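import Pool.Agent.Helper82.TK.HCases
import Pool.Agent.Helper75.SEP.Numbers

/-!
# SOFT: delete a handle and suppress the ends of degree three in the link graph

`SEnd G p h q a b S`: the end `q` of the handle `h` (other end `p`) has only the neighbours `h`,
`a`, `b` and the vertices of `S`, which are handles between `q` and `a` or `b`.

`SE H U q a b S o e t`: one suppression step for `H`: the set `K = insert q S` is replaced by an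
edge `a b` (if `o`) and by the vertex `q` of degree two (if `e`); the result is
`vG H (insert q S) q a b o e` on `vU U (insert q S) q e`.

`Stp`: what is used of a step. `K = A = ∅` is the trivial step.
-/

set_option autoImplicit false

namespace Pool.Agent.Helper97.SO

open SimpleGraph Pool.Agent.Helper57.TOK Pool.Agent.Helper57.TD Pool.Agent.Helper57.TOP
  Pool.Agent.Helper82.TK Pool.Agent.Helper75.SEP

variable {V : Type*}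

/-- An end of a handle which has degree three in the link graph. -/
structure SEnd (G : SimpleGraph V) (p h q a b : V) (S : Set V) : Prop where
  ab : a ≠ b
  pa : p ≠ a
  pb : p ≠ b
  a3 : 3 ≤ (G.neighborSet a).ncard
  b3 : 3 ≤ (G.neighborSet b).ncard
  nbq : ∀ v, G.Adj q v → v = h ∨ v = a ∨ v = b ∨ v ∈ S
  hand : ∀ s ∈ S, Hand G s q a ∨ Hand G s q b
  la : G.Adj q a ∨ ∃ s ∈ S, Hand G s q a
  lb : G.Adj q b ∨ ∃ s ∈ S, Hand G s q b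

/-- Replace `K` by an edge `a b` (if `o`) and a vertex `m` with the neighbours `a`, `b` (if `e`). -/
def vG (H : SimpleGraph V) (K : Set V) (m a b : V) (o e : Prop) : SimpleGraph V where
  Adj x y := (H.Adj x y ∧ x ∉ K ∧ y ∉ K) ∨
    (o ∧ a ≠ b ∧ ((x = a ∧ y = b) ∨ (x = b ∧ y = a))) ∨
    (e ∧ m ≠ a ∧ m ≠ b ∧ ((x = m ∧ (y = a ∨ y = b)) ∨ (y = m ∧ (x = a ∨ x = b))))
  symm := ⟨fun x y hxy => by
    rcases hxy with h1 | ⟨h1, h2, h3⟩ | ⟨h1, h2, h3, h4⟩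
    · exact Or.inl ⟨h1.1.symm, h1.2.2, h1.2.1⟩
    · refine Or.inr (Or.inl ⟨h1, h2, ?_⟩)
      rcases h3 with h3 | h3
      · exact Or.inr ⟨h3.2, h3.1⟩
      · exact Or.inl ⟨h3.2, h3.1⟩
    · exact Or.inr (Or.inr ⟨h1, h2, h3, h4.symm⟩)⟩
  loopless := ⟨fun x hx => by
    rcases hx with h1 | ⟨-, h2, h3⟩ | ⟨-, h2, h3, h4⟩
    · exact h1.1.ne rfl
    · rcases h3 with h3 | h3
      · exact h2 (h3.1.symm.trans h3.2)
      · exact h2 (h3.2.symm.trans h3.1)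
    · rcases h4 with ⟨h4, h5 | h5⟩ | ⟨h4, h5 | h5⟩
      · exact h2 (h4.symm.trans h5)
      · exact h3 (h4.symm.trans h5)
      · exact h2 (h4.symm.trans h5)
      · exact h3 (h4.symm.trans h5)⟩

lemma vG_adj {H : SimpleGraph V} {K : Set V} {m a b : V} {o e : Prop} {x y : V} :
    (vG H K m a b o e).Adj x y ↔ (H.Adj x y ∧ x ∉ K ∧ y ∉ K) ∨
    (o ∧ a ≠ b ∧ ((x = a ∧ y = b) ∨ (x = b ∧ y = a))) ∨
    (e ∧ m ≠ a ∧ m ≠ b ∧ ((x = m ∧ (y = a ∨ y = b)) ∨ (y = m ∧ (x = a ∨ x = b)))) := Iff.rfl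

/-- The vertices of `vG`. -/
def vU (U K : Set V) (m : V) (e : Prop) : Set V := {v | (v ∈ U ∧ v ∉ K) ∨ (e ∧ v = m)}

/-- There is a handle between `q` and `a` in `S`. -/
def Ev (H : SimpleGraph V) (S : Set V) (q a : V) : Prop := ∃ s ∈ S, Hand H s q a

/-- One suppression step. `T` is a set of vertices of degree two (of the original graph). -/
structure SE (H : SimpleGraph V) (U T : Set V) (q a b : V) (S : Set V) (o e : Prop) (t : V) :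
    Prop where
  edge_mem : ∀ u v, H.Adj u v → u ∈ U
  ab : a ≠ b
  qa : q ≠ a
  qb : q ≠ b
  qS : q ∉ S
  aT : a ∉ T
  bT : b ∉ T
  ST : S ⊆ T
  qT : q ∉ T
  nbq : ∀ v, H.Adj q v → v = a ∨ v = b ∨ v ∈ S
  hand : ∀ s ∈ S, Hand H s q a ∨ Hand H s q b
  la : H.Adj q a ∨ Ev H S q a
  lb : H.Adj q b ∨ Ev H S q b
  ua : ∀ s ∈ S, ∀ s' ∈ S, Hand H s q a → Hand H s' q a → s = s'
  ub : ∀ s ∈ S, ∀ s' ∈ S, Hand H s q b → Hand H s' q b → s = s'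
  ho : o ↔ (H.Adj q a ∧ Ev H S q b) ∨ (Ev H S q a ∧ H.Adj q b)
  he : e → (H.Adj q a ∧ H.Adj q b) ∨ (Ev H S q a ∧ Ev H S q b)
  het : e → ∀ t' ∈ T, t' ∉ S → ¬ Hand H t' a b
  he' : (H.Adj q a ∧ H.Adj q b) ∨ (Ev H S q a ∧ Ev H S q b) → e ∨ (Hand H t a b ∧ t ∈ T ∧ t ∉ S)

open Classical in
/-- The gain of a step. -/
noncomputable def sg (H : SimpleGraph V) (q a b : V) (o : Prop) : ℤ :=
  2 - rr H q a - rr H q b + (if o ∧ ¬ H.Adj a b then 1 else 0)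

/-- The vertices at which the index may drop. -/
def Bad1 (H : SimpleGraph V) (S T : Set V) (q a b : V) (w : V) : Prop :=
  (w = a ∧ H.Adj q b ∧ Ev H S q b) ∨ (w = b ∧ H.Adj q a ∧ Ev H S q a) ∨ (w ∈ T ∧ Hand H w a b)

/-- `κ` is proper off `Z`. -/
def POff (H : SimpleGraph V) (Z : Set V) (κ : V → ZMod 2) : Prop :=
  ∀ u v, u ∉ Z → v ∉ Z → H.Adj u v → κ u ≠ κ v

/-- A separation. -/
structure Sepn (H : SimpleGraph V) (U Y N R : Set V) : Prop where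
  YU : Y ⊆ U
  NU : N ⊆ U
  RU : R ⊆ U
  cov : ∀ v ∈ U, v ∈ Y ∨ v ∈ N ∨ v ∈ R
  YN : Disjoint Y N
  YR : Disjoint Y R
  NR : Disjoint N R
  no : ∀ u ∈ Y, ∀ v ∈ R, ¬ H.Adj u v

/-- What is used of a step. `T` is a set of vertices of degree two of the original graph. -/
structure Stp (H : SimpleGraph V) (U : Set V) (H1 : SimpleGraph V) (U1 : Set V) (q : V)
    (K A T : Set V) (σ : ℤ) (Bd : V → Prop) : Prop where
  KU : K ⊆ U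
  AU : A ⊆ U
  AK : Disjoint A K
  AT : Disjoint A T
  A2 : A.ncard ≤ 2
  KT : ∀ v ∈ K, v = q ∨ v ∈ T
  qA : q ∉ A
  out : ∀ v, v ∉ K → (v ∈ U1 ↔ v ∈ U)
  inn : ∀ v ∈ K, v ∈ U1 → v = q ∧ H1.neighborSet q = A ∧ A.ncard = 2 ∧
    ∀ t ∈ T, t ∉ K → H.neighborSet t ≠ A
  card : U1.ncard ≤ U.ncard
  sig : 0 ≤ σ
  edge_mem : ∀ u v, H1.Adj u v → u ∈ U1
  nbr : ∀ v, v ∉ K → v ∉ A → H1.neighborSet v = H.neighborSet v
  sub : ∀ u v, u ∉ K → v ∉ K → H.Adj u v → H1.Adj u v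
  nbK : ∀ u ∈ K, ∀ v, H.Adj u v → v ∈ K ∨ v ∈ A
  att : ∀ v ∈ A, ∃ u ∈ K, H.Adj u v
  lk : ∀ x ∈ A, ∃ y ∈ A, y ≠ x ∧
    (H1.Adj x y ∨ ∃ m, m ∈ U1 ∧ (m ∈ T ∨ m = q) ∧ H1.neighborSet m = {x, y})
  weight : (H1.edgeSet.ncard : ℤ) - 2 * (U1.ncard : ℤ) =
    (H.edgeSet.ncard : ℤ) - 2 * (U.ncard : ℤ) + σ
  lift : HasTOK4s H1 (One V) → HasTOK4s H (One V)
  idx : ∀ w z κ1, z ∉ K → z ∉ A → z ∉ T → POff H1 {w, z} κ1 →
    ∃ κ0, (∀ v, v ∉ K → κ0 v = κ1 v) ∧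
      (POff H {w, z} κ0 ∨ (Bd w ∧ POff H {w, z, q} κ0))
  dense : ∀ Y ⊆ U1, ∀ κ, PB H1 κ Y → (∀ n ∈ Nb H1 Y, n ∉ K ∧ n ∉ T) →
    ∃ Y0 κ0, Y0 ⊆ U ∧ PB H κ0 Y0 ∧ Nb H Y0 ⊆ Nb H1 Y ∧ (∀ v, v ∉ K → κ0 v = κ v) ∧
      (∀ v, v ∉ K → (v ∈ Y0 ↔ v ∈ Y)) ∧
      (((∀ v ∈ K, v ∉ Y0) ∧ fden H1 Y = fden H Y0) ∨
        ((∃ v ∈ A, v ∈ Y) ∧ A ⊆ Y ∪ Nb H1 Y ∧ K ⊆ Y0 ∧ fden H1 Y = fden H Y0 + σ))
  sep : ∀ Y N R, Sepn H1 U1 Y N R → (∀ n ∈ N, n ∉ K ∧ n ∉ T) →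
    ∃ Y0 R0, Sepn H U Y0 N R0 ∧ (∀ v, v ∉ K → (v ∈ Y0 ↔ v ∈ Y)) ∧
      (∀ v, v ∉ K → (v ∈ R0 ↔ v ∈ R))

/-- The trivial step. -/
lemma Stp.triv {H : SimpleGraph V} {U T : Set V} {q : V} (he : ∀ u v, H.Adj u v → u ∈ U) :
    Stp H U H U q ∅ ∅ T 0 (fun _ => False) where
  KU := Set.empty_subset _
  AU := Set.empty_subset _
  AK := Set.disjoint_empty _
  AT := Set.empty_disjoint _
  A2 := by simp
  KT := fun _ h => absurd h (Set.notMem_empty _)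
  qA := Set.notMem_empty _
  out := fun _ _ => Iff.rfl
  inn := fun _ h => absurd h (Set.notMem_empty _)
  card := le_rfl
  sig := le_rfl
  edge_mem := he
  nbr := fun _ _ _ => rfl
  sub := fun _ _ _ _ h => h
  nbK := fun _ h => absurd h (Set.notMem_empty _)
  att := fun _ h => absurd h (Set.notMem_empty _)
  lk := fun _ h => absurd h (Set.notMem_empty _)
  weight := by simp
  lift := id
  idx := fun _ _ κ1 _ _ _ h => ⟨κ1, fun _ _ => rfl, Or.inl h⟩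
  dense := fun Y hY κ hb _ => ⟨Y, κ, hY, hb, subset_rfl, fun _ _ => rfl, fun _ _ => Iff.rfl,
    Or.inl ⟨fun _ h => absurd h (Set.notMem_empty _), rfl⟩⟩
  sep := fun Y N R hs _ => ⟨Y, R, hs, fun _ _ => Iff.rfl, fun _ _ => Iff.rfl⟩

/-- The vertices of degree two other than `h`. -/
def T2 (G : SimpleGraph V) (h : V) : Set V := {t | t ≠ h ∧ (G.neighborSet t).ncard = 2}

/-- The two steps. -/
structure Two (G : SimpleGraph V) (U : Set V) (h p q : V) (H1 : SimpleGraph V) (U1 : Set V)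
    (H2 : SimpleGraph V) (U2 : Set V) (Kq Aq Kp Ap : Set V) (σq σp : ℤ) (Bq Bp : V → Prop) :
    Prop where
  gmin : GMin G U
  hU : h ∈ U
  hand : Hand G h p q
  s1 : Stp (delV G h) (U \ {h}) H1 U1 q Kq Aq (T2 G h) σq Bq
  s2 : Stp H1 U1 H2 U2 p Kp Ap (T2 G h) σp Bp
  KK : Disjoint Kq Kp
  AqKp : Disjoint Aq Kp
  ApKq : Disjoint Ap Kq
  pA : p ∉ Aq
  qA : q ∉ Ap
  AA : Aq.Nonempty → Aq ≠ Ap
  qK : q ∈ Kq ∨ (Kq = ∅ ∧ Aq = ∅ ∧ ∀ a b S, ¬ SEnd G p h q a b S)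
  pK : p ∈ Kp ∨ (Kp = ∅ ∧ Ap = ∅ ∧ ∀ a b S, ¬ SEnd G q h p a b S)
  bad : ∀ w, Bq w → Bp w → ∀ κ, ¬ POff G {w, p, q} κ

end Pool.Agent.Helper97.SO
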