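import Pool.Agent.Helper97.SO.Defs
import Pool.Agent.Helper82.RP.AllDef
import Pool.Agent.Helper20.HD.NoSep

/-!
# Separations of `G - h` (StubCut)
-/

set_option autoImplicit false

namespace Pool.Agent.Helper97.SO

open SimpleGraph Pool.Agent.Helper57.TOK Pool.Agent.Helper57.TD Pool.Agent.Helper57.TOP
  Pool.Agent.Helper82.TK Pool.Agent.Helper82.RP Pool.Agent.Helper75.SEP Pool.Agent.Helper20.HD

variable {V : Type*} {G : SimpleGraph V} {U : Set V} {h p q : V}

/-- If `q` is the only vertex of degree at least three on its side, then `q` is an `SEnd`. -/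
theorem send_of_cut [Finite V] (hM : GMin G U) (hU : h ∈ U) (hh : Hand G h p q) {Y N R : Set V}
    (hs : Sepn (delV G h) (U \ {h}) Y N R) (hN : N.ncard ≤ 2)
    (hN3 : ∀ n ∈ N, 3 ≤ (G.neighborSet n).ncard) (hp : p ∈ Y) (hq : q ∈ R)
    (h1 : ∀ r ∈ R, 3 ≤ (G.neighborSet r).ncard → r = q) : ∃ a b S, SEnd G p h q a b S := by
  classical
  have he : ∀ u v, (delV G h).Adj u v → u ∈ U \ {h} := fun u v huv =>
    ⟨hM.ex.edge_mem u v huv.1, huv.2.1⟩
  have hhR : h ∉ R := fun h3 => (hs.RU h3).2 rfl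
  have hYN := Set.disjoint_left.1 hs.YN
  have hYR := Set.disjoint_left.1 hs.YR
  have hNR := Set.disjoint_left.1 hs.NR
  have hq3 := gmin_hand_real hM hU hh.symm
  have hp3 := gmin_hand_real hM hU hh
  have hout : ∀ {u v : V}, u ∈ R → v ≠ h → G.Adj u v → v ∈ R ∨ v ∈ N := by
    intro u v hu hvh huv
    exact sepn_nb (sepn_symm hs) he hu ⟨huv, fun h3 => hhR (h3 ▸ hu), hvh⟩
  -- the handles at `q`
  have hhand : ∀ s ∈ R, s ≠ q → G.Adj q s → ∃ n ∈ N, Hand G s q n := by
    intro s hsR hsq hqs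
    have hd2 := hM.ex.deg2 s (hs.RU hsR).1
    have hd3 : ¬ 3 ≤ (G.neighborSet s).ncard := fun h3 => hsq (h1 s hsR h3)
    obtain ⟨x, y, hxy⟩ := exists_hand (G := G) (h := s) (by omega)
    have hsh : ¬ G.Adj s h := by
      intro h3
      rcases hh.adj.1 h3.symm with h4 | h4
      · exact hYR hp (h4 ▸ hsR)
      · exact hsq h4
    -- the other neighbour
    have key : ∀ {z : V}, Hand G s q z → ∃ n ∈ N, Hand G s q n := by
      intro z hz
      have hzh : z ≠ h := fun h3 => hsh (h3 ▸ hz.hq)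
      rcases hout hsR hzh hz.hq with h3 | h3
      · exfalso
        have h4 := gmin_hand_real hM (hs.RU hsR).1 hz.symm
        exact hz.ne (h1 z h3 h4).symm
      · exact ⟨z, h3, hz⟩
    rcases hxy.adj.1 hqs.symm with h3 | h3
    · exact key (h3 ▸ hxy)
    · exact key (h3 ▸ hxy.symm)
  set S : Set V := {s | s ∈ R ∧ s ≠ q ∧ G.Adj q s} with hS
  have hqN : ∀ v, G.Adj q v → v = h ∨ v ∈ N ∨ v ∈ S := by
    intro v hv
    by_cases hvh : v = h
    · exact Or.inl hvh
    · rcases hout hq hvh hv with h3 | h3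
      · exact Or.inr (Or.inr ⟨h3, hv.ne', hv⟩)
      · exact Or.inr (Or.inl h3)
  -- two linked vertices of `N`
  have hlink : ∃ a ∈ N, ∃ b ∈ N, a ≠ b ∧ (G.Adj q a ∨ ∃ s ∈ S, Hand G s q a) ∧
      (G.Adj q b ∨ ∃ s ∈ S, Hand G s q b) := by
    by_contra hcon
    push Not at hcon
    -- some linked vertex
    have hex : ∃ n0 ∈ N, (G.Adj q n0 ∨ ∃ s ∈ S, Hand G s q n0) := by
      by_contra hno
      push Not at hno
      have h3 : G.neighborSet q ⊆ {h} := by
        intro v hv
        rcases hqN v hv with h4 | h4 | h4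
        · exact h4
        · exact absurd hv (hno v h4).1
        · obtain ⟨n, hn, hsn⟩ := hhand v h4.1 h4.2.1 h4.2.2
          exact absurd hsn ((hno n hn).2 v h4)
      have h4 := Set.ncard_le_ncard h3 (Set.toFinite _)
      rw [Set.ncard_singleton] at h4
      omega
    obtain ⟨n0, hn0, hl0⟩ := hex
    have huniq : ∀ n ∈ N, (G.Adj q n ∨ ∃ s ∈ S, Hand G s q n) → n = n0 := by
      intro n hn hl
      by_contra hne
      obtain ⟨g1, g2⟩ := hcon n hn n0 hn0 hne hl
      rcases hl0 with h3 | ⟨s, hs1, hs2⟩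
      · exact g1 h3
      · exact g2 s hs1 hs2
    have hS0 : ∀ s ∈ S, Hand G s q n0 := by
      intro s hsS
      obtain ⟨n, hn, hsn⟩ := hhand s hsS.1 hsS.2.1 hsS.2.2
      rw [← huniq n hn (Or.inr ⟨s, hsS, hsn⟩)]
      exact hsn
    -- there is a handle
    have hSne : ∃ s, s ∈ S := by
      by_contra hno
      push Not at hno
      have h3 : (G.neighborSet q).ncard ≤ 2 := by
        apply ncard_le_two_of (a := h) (b := n0)
        intro v hv
        rcases hqN v hv with h4 | h4 | h4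
        · exact Or.inl h4
        · exact Or.inr (huniq v h4 (Or.inl hv))
        · exact absurd h4 (hno v)
      omega
    obtain ⟨s0, hs0⟩ := hSne
    have hs0' := hS0 s0 hs0
    have hSu : ∀ s ∈ S, s = s0 := fun s hsS =>
      gmin_hand_unique hM (hs.RU hsS.1).1 (hS0 s hsS) (hs.RU hs0.1).1 hs0'
    have hNb : ∀ v ∈ Nb G {q, s0}, v = h ∨ v = n0 := by
      rintro v ⟨hv, u, hu, huv⟩
      have hvq : v ≠ q := fun h3 => hv (Or.inl h3)
      have hvs : v ≠ s0 := fun h3 => hv (Or.inr h3)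
      rcases hu with hu | hu
      · rw [hu] at huv
        rcases hqN v huv with h4 | h4 | h4
        · exact Or.inl h4
        · exact Or.inr (huniq v h4 (Or.inl huv))
        · exact absurd (hSu v h4) hvs
      · rw [Set.mem_singleton_iff] at hu
        rw [hu] at huv
        rcases hs0'.adj.1 huv with h4 | h4
        · exact absurd h4 hvq
        · exact Or.inr h4
    have hqs0 : q ≠ s0 := hs0.2.1.symm
    have hc := hM.ex.conn {q, s0} (by
      rintro v (h3 | h3)
      · rw [h3]; exact (hs.RU hq).1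
      · rw [Set.mem_singleton_iff] at h3
        rw [h3]; exact (hs.RU hs0.1).1) (by rw [Set.ncard_pair hqs0]) (ncard_le_two_of hNb)
    -- `p` and a further neighbour of `p` are in the rest
    have hpr : p ∈ U \ ({q, s0} ∪ Nb G {q, s0}) := by
      refine ⟨(hs.YU hp).1, ?_⟩
      rintro ((h3 | h3) | h3)
      · exact hh.ne h3
      · exact hYR hp (h3 ▸ hs0.1)
      · rcases hNb p h3 with h4 | h4
        · exact hh.hp.ne h4.symm
        · exact hYN hp (h4 ▸ hn0)
    have hpd : (G.neighborSet p).ncard ≤ 2 := by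
      apply ncard_le_two_of (a := h) (b := n0)
      intro v hv
      have hpv : G.Adj p v := hv
      by_contra hno
      push Not at hno
      have hvr : v ∈ U \ ({q, s0} ∪ Nb G {q, s0}) := by
        refine ⟨hM.ex.edge_mem v p hpv.symm, ?_⟩
        rintro ((h3 | h3) | h3)
        · rw [h3] at hpv
          exact hs.no p hp q hq ⟨hpv, hh.hp.ne', hh.hq.ne'⟩
        · rw [Set.mem_singleton_iff] at h3
          rw [h3] at hpv
          exact hs.no p hp s0 hs0.1 ⟨hpv, hh.hp.ne', fun h4 => hhR (h4 ▸ hs0.1)⟩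
        · rcases hNb v h3 with h4 | h4
          · exact hno.1 h4
          · exact hno.2 h4
      have h3 : ({p, v} : Set V) ⊆ U \ ({q, s0} ∪ Nb G {q, s0}) := by
        rintro w (h4 | h4)
        · rw [h4]; exact hpr
        · rw [Set.mem_singleton_iff] at h4
          rw [h4]; exact hvr
      have h4 := Set.ncard_le_ncard h3 (Set.toFinite _)
      rw [Set.ncard_pair hpv.ne] at h4
      omega
    omega
  obtain ⟨a, haN, b, hbN, hab, hla, hlb⟩ := hlink
  have hNab : ∀ n ∈ N, n = a ∨ n = b := by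
    intro n hn
    by_contra hno
    push Not at hno
    have h3 : ({n, a, b} : Set V) ⊆ N := by
      rintro w (h4 | h4 | h4)
      · rw [h4]; exact hn
      · rw [h4]; exact haN
      · rw [Set.mem_singleton_iff] at h4
        rw [h4]; exact hbN
    have h4 := Set.ncard_le_ncard h3 (Set.toFinite _)
    rw [Set.ncard_insert_of_notMem, Set.ncard_pair hab] at h4
    · omega
    · rintro (h5 | h5)
      · exact hno.1 h5
      · exact hno.2 h5
  refine ⟨a, b, S, hab, fun h3 => hYN hp (h3 ▸ haN), fun h3 => hYN hp (h3 ▸ hbN), hN3 a haN,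
    hN3 b hbN, ?_, ?_, hla, hlb⟩
  · intro v hv
    rcases hqN v hv with h4 | h4 | h4
    · exact Or.inl h4
    · rcases hNab v h4 with h5 | h5
      · exact Or.inr (Or.inl h5)
      · exact Or.inr (Or.inr (Or.inl h5))
    · exact Or.inr (Or.inr (Or.inr h4))
  · intro s hsS
    obtain ⟨n, hn, hsn⟩ := hhand s hsS.1 hsS.2.1 hsS.2.2
    rcases hNab n hn with h5 | h5
    · exact Or.inl (h5 ▸ hsn)
    · exact Or.inr (h5 ▸ hsn)

/-- No separation of `G - h` by at most two vertices of degree at least three with vertices of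
degree at least three on both sides (the ends of `h` count only if they are not `SEnd`). -/
theorem cut_false [Finite V] (hM : GMin G U) (hU : h ∈ U) (hh : Hand G h p q) {Y N R : Set V}
    (hs : Sepn (delV G h) (U \ {h}) Y N R) (hN : N.ncard ≤ 2)
    (hN3 : ∀ n ∈ N, 3 ≤ (G.neighborSet n).ncard) {y r : V} (hy : y ∈ Y)
    (hy3 : 3 ≤ (G.neighborSet y).ncard) (hr : r ∈ R) (hr3 : 3 ≤ (G.neighborSet r).ncard)
    (hyq : y = q → ∀ a b S, ¬ SEnd G p h q a b S) (hyp : y = p → ∀ a b S, ¬ SEnd G q h p a b S)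
    (hrq : r = q → ∀ a b S, ¬ SEnd G p h q a b S) (hrp : r = p → ∀ a b S, ¬ SEnd G q h p a b S) :
    False := by
  classical
  have hYR := Set.disjoint_left.1 hs.YR
  have main : ∀ {p q : V} {Y R : Set V} {y r : V}, Hand G h p q →
      Sepn (delV G h) (U \ {h}) Y N R → y ∈ Y → 3 ≤ (G.neighborSet y).ncard → r ∈ R →
      3 ≤ (G.neighborSet r).ncard → p ∈ Y → q ∈ R →
      (y = p → ∀ a b S, ¬ SEnd G q h p a b S) → (r = q → ∀ a b S, ¬ SEnd G p h q a b S) →
      False := by
    intro p q Y R y r hh hs hy hy3 hr hr3 hp hq hyp hrq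
    have hYR := Set.disjoint_left.1 hs.YR
    by_cases c1 : ∀ r ∈ R, 3 ≤ (G.neighborSet r).ncard → r = q
    · obtain ⟨a, b, S, h3⟩ := send_of_cut hM hU hh hs hN hN3 hp hq c1
      exact hrq (c1 r hr hr3) a b S h3
    · by_cases c2 : ∀ r ∈ Y, 3 ≤ (G.neighborSet r).ncard → r = p
      · obtain ⟨a, b, S, h3⟩ := send_of_cut hM hU hh.symm (sepn_symm hs) hN hN3 hq hp c2
        exact hyp (c2 y hy hy3) a b S h3
      · push Not at c1 c2
        obtain ⟨r2, g1, g2, g3⟩ := c1
        obtain ⟨r1, g4, g5, g6⟩ := c2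
        exact no_sep hM hU hh hs hN g4 g6 (fun h3 => hYR g4 (h3 ▸ hq)) g5 g1
          (fun h3 => hYR hp (h3 ▸ g1)) g3 g2
  by_cases hpR : p ∈ R
  · by_cases hqY : q ∈ Y
    · exact main hh.symm hs hy hy3 hr hr3 hqY hpR hyq hrp
    · exact no_sep_same hM hU hh (sepn_symm hs) hN hr hy hy3 (fun h3 => hYR h3 hpR) hqY
  · by_cases hqR : q ∈ R
    · by_cases hpY : p ∈ Y
      · exact main hh hs hy hy3 hr hr3 hpY hqR hyp hrq
      · exact no_sep_same hM hU hh (sepn_symm hs) hN hr hy hy3 hpY (fun h3 => hYR h3 hqR)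
    · exact no_sep_same hM hU hh hs hN hy hr hr3 hpR hqR

end Pool.Agent.Helper97.SO
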