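import Pool.Agent.Helper97.SO.TwoBase
import Pool.Agent.Helper97.SO.StubCut
import Pool.Agent.Helper82.SO.ConnOf

/-!
# The two steps: connectivity
-/

set_option autoImplicit false

namespace Pool.Agent.Helper97.SO

open SimpleGraph Pool.Agent.Helper57.TOK Pool.Agent.Helper57.TD Pool.Agent.Helper57.TOP
  Pool.Agent.Helper82.TK Pool.Agent.Helper82.RP Pool.Agent.Helper75.SEP

variable {V : Type*} {G : SimpleGraph V} {U : Set V} {h p q : V} {H1 H2 : SimpleGraph V}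
  {U1 U2 Kq Aq Kp Ap : Set V} {σq σp : ℤ} {Bq Bp : V → Prop}

lemma pair_of_two {A : Set V} (h2 : A.ncard = 2) : ∃ x y, x ≠ y ∧ x ∈ A ∧ y ∈ A ∧ A = {x, y} := by
  obtain ⟨x, y, hxy, rfl⟩ := Set.ncard_eq_two.1 h2
  exact ⟨x, y, hxy, Or.inl rfl, Or.inr rfl, rfl⟩

lemma Two.nb_TT [Finite V] (F : Two G U h p q H1 U1 H2 U2 Kq Aq Kp Ap σq σp Bq Bp) {t : V}
    (htU : t ∈ U2) (ht : t ∈ T2 G h ∨ t ∈ Kq ∨ t ∈ Kp) :
    ∃ x y, x ≠ y ∧ ¬ (x ∈ T2 G h ∨ x ∈ Kq ∨ x ∈ Kp) ∧ ¬ (y ∈ T2 G h ∨ y ∈ Kq ∨ y ∈ Kp) ∧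
      H2.neighborSet t = {x, y} := by
  by_cases hq : t ∈ Kq
  · obtain ⟨h1, h2, h3, -⟩ := F.nb_q hq htU
    have key : ∀ x ∈ Aq, ¬ (x ∈ T2 G h ∨ x ∈ Kq ∨ x ∈ Kp) := by
      rintro x hx (h4 | h4 | h4)
      · exact (Set.disjoint_left.1 F.s1.AT) hx h4
      · exact (Set.disjoint_left.1 F.s1.AK) hx h4
      · exact (Set.disjoint_left.1 F.AqKp) hx h4
    obtain ⟨x, y, hxy, hx, hy, h4⟩ := pair_of_two h3
    exact ⟨x, y, hxy, key x hx, key y hy, by rw [h1, h2]; exact h4⟩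
  by_cases hp : t ∈ Kp
  · obtain ⟨h1, h2, h3, -⟩ := F.nb_p hp htU
    have key : ∀ x ∈ Ap, ¬ (x ∈ T2 G h ∨ x ∈ Kq ∨ x ∈ Kp) := by
      rintro x hx (h4 | h4 | h4)
      · exact (Set.disjoint_left.1 F.s2.AT) hx h4
      · exact (Set.disjoint_left.1 F.ApKq) hx h4
      · exact (Set.disjoint_left.1 F.s2.AK) hx h4
    obtain ⟨x, y, hxy, hx, hy, h4⟩ := pair_of_two h3
    exact ⟨x, y, hxy, key x hx, key y hy, by rw [h1, h2]; exact h4⟩
  have hT : t ∈ T2 G h := by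
    rcases ht with h1 | h1 | h1
    · exact h1
    · exact absurd h1 hq
    · exact absurd h1 hp
  have htU' := (F.mem_U hq hp).1 htU
  obtain ⟨x, y, hxy⟩ := exists_hand hT.2
  have key : ∀ x, G.Adj t x → 3 ≤ (G.neighborSet x).ncard →
      ¬ (x ∈ T2 G h ∨ x ∈ Kq ∨ x ∈ Kp) := by
    intro x hx hx3 h4
    have hxT : x ∉ T2 G h := fun h5 => by have := h5.2; omega
    have hxh : x ≠ h := by
      rintro rfl
      rcases F.hand.adj.1 hx.symm with h5 | h5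
      · exact F.pT (h5 ▸ hT)
      · exact F.qT (h5 ▸ hT)
    rcases h4 with h4 | h4 | h4
    · exact hxT h4
    · rcases F.s1.nbK x h4 t ⟨hx.symm, hxh, hT.1⟩ with h5 | h5
      · exact hq h5
      · exact (Set.disjoint_left.1 F.s1.AT) h5 hT
    · have hxq : x ∉ Kq := fun h5 => (Set.disjoint_left.1 F.KK) h5 h4
      rcases F.s2.nbK x h4 t (F.s1.sub x t hxq hq ⟨hx.symm, hxh, hT.1⟩) with h5 | h5
      · exact hp h5
      · exact (Set.disjoint_left.1 F.s2.AT) h5 hT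
  exact ⟨x, y, hxy.ne, key x hxy.hp (gmin_hand_real F.gmin htU'.1 hxy),
    key y hxy.hq (gmin_hand_real F.gmin htU'.1 hxy.symm), by rw [F.nb_T hT hq hp]; exact hxy.nb⟩

lemma Two.uniq [Finite V] (F : Two G U h p q H1 U1 H2 U2 Kq Aq Kp Ap σq σp Bq Bp) {t t' : V}
    (htU : t ∈ U2) (ht : t ∈ T2 G h ∨ t ∈ Kq ∨ t ∈ Kp) (htU' : t' ∈ U2)
    (ht' : t' ∈ T2 G h ∨ t' ∈ Kq ∨ t' ∈ Kp) (he : H2.neighborSet t = H2.neighborSet t') :
    t = t' := by
  have hqT : ∀ t t' : V, t ∈ U2 → t' ∈ U2 → t ∈ Kq → t' ∉ Kq → t' ∉ Kp → t' ∈ T2 G h →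
      H2.neighborSet t = H2.neighborSet t' → False := by
    intro t t' htU htU' hq hq' hp' hT he
    obtain ⟨h1, h2, -, h3⟩ := F.nb_q hq htU
    apply h3 t' hT hq'
    rw [← h2, ← h1, he, F.nb_T hT hq' hp', delV_nb t' hT.1]
    apply Set.sdiff_singleton_eq_self
    intro h4
    rcases F.hand.adj.1 (SimpleGraph.Adj.symm h4) with h5 | h5
    · exact F.pT (h5 ▸ hT)
    · exact F.qT (h5 ▸ hT)
  have hpT : ∀ t t' : V, t ∈ U2 → t' ∈ U2 → t ∈ Kp → t' ∉ Kq → t' ∉ Kp → t' ∈ T2 G h →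
      H2.neighborSet t = H2.neighborSet t' → False := by
    intro t t' htU htU' hp hq' hp' hT he
    obtain ⟨h1, h2, -, h3⟩ := F.nb_p hp htU
    apply h3 t' hT hp'
    rw [← h2, ← h1, he, F.s2.nbr t' hp' (fun h4 => (Set.disjoint_left.1 F.s2.AT) h4 hT)]
  have hqp : ∀ t t' : V, t ∈ U2 → t' ∈ U2 → t ∈ Kq → t' ∈ Kp →
      H2.neighborSet t = H2.neighborSet t' → False := by
    intro t t' htU htU' hq hp he
    obtain ⟨h1, h2, h3, -⟩ := F.nb_q hq htU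
    obtain ⟨h1', h2', -, -⟩ := F.nb_p hp htU'
    refine F.AA ?_ ?_
    · rw [← Set.ncard_pos (Set.toFinite _)]; omega
    · rw [← h2, ← h1, he, h1', h2']
  by_cases hq : t ∈ Kq
  · by_cases hq' : t' ∈ Kq
    · rw [(F.nb_q hq htU).1, (F.nb_q hq' htU').1]
    · by_cases hp' : t' ∈ Kp
      · exact (hqp t t' htU htU' hq hp' he).elim
      · exact (hqT t t' htU htU' hq hq' hp'
          (ht'.resolve_right (fun h1 => h1.elim hq' hp')) he).elim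
  · by_cases hp : t ∈ Kp
    · by_cases hq' : t' ∈ Kq
      · exact (hqp t' t htU' htU hq' hp he.symm).elim
      · by_cases hp' : t' ∈ Kp
        · rw [(F.nb_p hp htU).1, (F.nb_p hp' htU').1]
        · exact (hpT t t' htU htU' hp hq' hp'
            (ht'.resolve_right (fun h1 => h1.elim hq' hp')) he).elim
    · have hT := ht.resolve_right (fun h1 => h1.elim hq hp)
      by_cases hq' : t' ∈ Kq
      · exact (hqT t' t htU' htU hq' hq hp hT he.symm).elim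
      · by_cases hp' : t' ∈ Kp
        · exact (hpT t' t htU' htU hp' hq hp hT he.symm).elim
        · have hT' := ht'.resolve_right (fun h1 => h1.elim hq' hp')
          obtain ⟨x, y, hxy⟩ := exists_hand hT.2
          rw [F.nb_T hT hq hp, F.nb_T hT' hq' hp'] at he
          exact gmin_hand_unique F.gmin ((F.mem_U hq hp).1 htU).1 hxy
            ((F.mem_U hq' hp').1 htU').1 ⟨hxy.ne, by rw [← he]; exact hxy.nb⟩

/-- A side with two elements contains a real vertex. -/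
lemma Two.exists_real [Finite V] (F : Two G U h p q H1 U1 H2 U2 Kq Aq Kp Ap σq σp Bq Bp)
    {Y N R : Set V} (hs : Sepn H2 U2 Y N R) (hN : N.ncard ≤ 2) (hY : 2 ≤ Y.ncard) :
    ∃ y ∈ Y, ¬ (y ∈ T2 G h ∨ y ∈ Kq ∨ y ∈ Kp) := by
  by_contra hcon
  push Not at hcon
  obtain ⟨t, ht, t', ht', hne⟩ := (Set.one_lt_ncard (Set.toFinite _)).1
    (show 1 < Y.ncard by omega)
  have key : ∀ t ∈ Y, H2.neighborSet t = N := by
    intro t ht
    obtain ⟨x, y, hxy, hx, hy, he⟩ := F.nb_TT (hs.YU ht) (hcon t ht)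
    have hin : ∀ z, H2.Adj t z → ¬ (z ∈ T2 G h ∨ z ∈ Kq ∨ z ∈ Kp) → z ∈ N := by
      intro z hz hz'
      rcases hs.cov z (F.s2.edge_mem z t hz.symm) with h1 | h1 | h1
      · exact absurd (hcon z h1) hz'
      · exact h1
      · exact absurd hz (hs.no t ht z h1)
    have hx' : x ∈ N := hin x (by
      have : x ∈ H2.neighborSet t := by rw [he]; exact Or.inl rfl
      exact this) hx
    have hy' : y ∈ N := hin y (by
      have : y ∈ H2.neighborSet t := by rw [he]; exact Or.inr rfl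
      exact this) hy
    rw [he]
    apply Set.eq_of_subset_of_ncard_le _ _ (Set.toFinite _)
    · rintro z (rfl | hz)
      · exact hx'
      · rw [Set.mem_singleton_iff] at hz
        rw [hz]; exact hy'
    · rw [Set.ncard_pair hxy]; exact hN
  exact hne (F.uniq (hs.YU ht) (hcon t ht) (hs.YU ht') (hcon t' ht')
    ((key t ht).trans (key t' ht').symm))

lemma Sepn.symm' {H : SimpleGraph V} {U Y N R : Set V} (hs : Sepn H U Y N R) :
    Sepn H U R N Y where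
  YU := hs.RU
  NU := hs.NU
  RU := hs.YU
  cov := fun v hv => by
    rcases hs.cov v hv with h1 | h1 | h1
    · exact Or.inr (Or.inr h1)
    · exact Or.inr (Or.inl h1)
    · exact Or.inl h1
  YN := hs.NR.symm
  YR := hs.YR.symm
  NR := hs.YN.symm
  no := fun u hu v hv huv => hs.no v hv u hu huv.symm

/-- No separation by real vertices. -/
theorem Two.cut' [Finite V] (F : Two G U h p q H1 U1 H2 U2 Kq Aq Kp Ap σq σp Bq Bp)
    {Y N R : Set V} (hs : Sepn H2 U2 Y N R) (hN : N.ncard ≤ 2)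
    (hNT : Disjoint N {t | t ∈ U2 ∧ (t ∈ T2 G h ∨ t ∈ Kq ∨ t ∈ Kp)}) (hY : 2 ≤ Y.ncard)
    (hR : 2 ≤ R.ncard) : False := by
  have hNn : ∀ n ∈ N, ¬ (n ∈ T2 G h ∨ n ∈ Kq ∨ n ∈ Kp) := fun n hn h1 =>
    (Set.disjoint_left.1 hNT) hn ⟨hs.NU hn, h1⟩
  obtain ⟨y, hy, hyT⟩ := F.exists_real hs hN hY
  obtain ⟨r, hr, hrT⟩ := F.exists_real hs.symm' hN hR
  obtain ⟨Y1, R1, hs1, hY1, hR1⟩ := F.s2.sep Y N R hs
    (fun n hn => ⟨fun h1 => hNn n hn (Or.inr (Or.inr h1)), fun h1 => hNn n hn (Or.inl h1)⟩)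
  obtain ⟨Y0, R0, hs0, hY0, hR0⟩ := F.s1.sep Y1 N R1 hs1
    (fun n hn => ⟨fun h1 => hNn n hn (Or.inr (Or.inl h1)), fun h1 => hNn n hn (Or.inl h1)⟩)
  have hreal : ∀ v ∈ U2, ¬ (v ∈ T2 G h ∨ v ∈ Kq ∨ v ∈ Kp) → 3 ≤ (G.neighborSet v).ncard := by
    intro v hv hv'
    push Not at hv'
    have h1 := (F.mem_U hv'.2.1 hv'.2.2).1 hv
    have h2 := F.gmin.ex.deg2 v h1.1
    by_contra hlt
    exact hv'.1 ⟨h1.2, by omega⟩
  push Not at hyT hrT
  have hyU2 := hs.YU hy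
  have hrU2 := hs.RU hr
  refine cut_false F.gmin F.hU F.hand hs0 hN (fun n hn => hreal n (hs.NU hn) (hNn n hn))
    (y := y) (r := r) ((hY0 y hyT.2.1).2 ((hY1 y hyT.2.2).2 hy))
    (hreal y hyU2 (by push Not; exact hyT)) ((hR0 r hrT.2.1).2 ((hR1 r hrT.2.2).2 hr))
    (hreal r hrU2 (by push Not; exact hrT)) ?_ ?_ ?_ ?_
  · rintro rfl
    exact (F.qK.resolve_left hyT.2.1).2.2
  · rintro rfl
    exact (F.pK.resolve_left hyT.2.2).2.2
  · rintro rfl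
    exact (F.qK.resolve_left hrT.2.1).2.2
  · rintro rfl
    exact (F.pK.resolve_left hrT.2.2).2.2

theorem Two.conn' [Finite V] (F : Two G U h p q H1 U1 H2 U2 Kq Aq Kp Ap σq σp Bq Bp)
    (hi : Ind2 H2) : ∀ Y ⊆ U2, 2 ≤ Y.ncard → (Nb H2 Y).ncard ≤ 2 →
      (U2 \ (Y ∪ Nb H2 Y)).ncard ≤ 1 := by
  refine Pool.Agent.Helper82.SO.conn_of
    (T := {t | t ∈ U2 ∧ (t ∈ T2 G h ∨ t ∈ Kq ∨ t ∈ Kp)}) F.s2.edge_mem ?_ hi
    (fun Y N R hs hN hNT hY hR => F.cut' hs hN hNT hY hR)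
  rintro t ⟨htU, ht⟩
  obtain ⟨x, y, hxy, hx, hy, he⟩ := F.nb_TT htU ht
  exact ⟨x, y, hxy, fun h1 => hx h1.2, fun h1 => hy h1.2, he⟩

end Pool.Agent.Helper97.SO
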