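import Pool.Agent.Helper97.SO.TwoBase

/-!
# The two steps: the index
-/

set_option autoImplicit false

namespace Pool.Agent.Helper97.SO

open SimpleGraph Pool.Agent.Helper57.TOK Pool.Agent.Helper57.TD Pool.Agent.Helper57.TOP
  Pool.Agent.Helper82.TK Pool.Agent.Helper82.RP Pool.Agent.Helper75.SEP

variable {V : Type*} {G : SimpleGraph V} {U : Set V} {h p q : V} {H1 H2 : SimpleGraph V}
  {U1 U2 Kq Aq Kp Ap : Set V} {σq σp : ℤ} {Bq Bp : V → Prop}

private lemma add_one_ne (x : ZMod 2) : x + 1 ≠ x := by revert x; decide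

/-- Give a colour to `h` if one end is deleted. -/
lemma no_col [Finite V] (hM : GMin G U) (hh : Hand G h p q) {w : V} {κ : V → ZMod 2}
    (hk : POff (delV G h) {w, h, q} κ) : False := by
  classical
  refine gmin_ind3 hM w q (Function.update κ h (κ p + 1)) ?_
  intro u v hu1 hu2 hv1 hv2 huv
  by_cases hu : u = h
  · subst hu
    have hv : v = p := (hh.adj.1 huv).resolve_right hv2
    rw [Function.update_self, Function.update_of_ne huv.ne', hv]
    exact add_one_ne _
  · by_cases hv : v = h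
    · subst hv
      have hu' : u = p := (hh.adj.1 huv.symm).resolve_right hu2
      rw [Function.update_self, Function.update_of_ne huv.ne, hu']
      exact (add_one_ne _).symm
    · rw [Function.update_of_ne hu, Function.update_of_ne hv]
      exact hk u v (by rintro (h1 | h1 | h1); exacts [hu1 h1, hu h1, hu2 h1])
        (by rintro (h1 | h1 | h1); exacts [hv1 h1, hv h1, hv2 h1]) ⟨huv, hu, hv⟩

lemma POff.mono {H : SimpleGraph V} {Z Z' : Set V} {κ : V → ZMod 2} (h : POff H Z κ)
    (hs : Z ⊆ Z') : POff H Z' κ :=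
  fun u v hu hv huv => h u v (fun h1 => hu (hs h1)) (fun h1 => hv (hs h1)) huv

theorem Two.ind2 [Finite V] (F : Two G U h p q H1 U1 H2 U2 Kq Aq Kp Ap σq σp Bq Bp) :
    Ind2 H2 := by
  intro w κ2 hk
  have h0 : POff H2 {w, h} κ2 := fun u v hu hv huv =>
    hk u v (fun e => hu (Or.inl e)) (fun e => hv (Or.inl e)) huv
  obtain ⟨κ1, -, hk1⟩ := F.s2.idx w h κ2 F.hKp F.hAp F.hT h0
  rcases hk1 with hk1 | ⟨hBp, hk1⟩
  · obtain ⟨κ0, -, hk0⟩ := F.s1.idx w h κ1 F.hKq F.hAq F.hT hk1
    rcases hk0 with hk0 | ⟨-, hk0⟩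
    · refine gmin_ind3 F.gmin w h κ0 ?_
      intro u v hu1 hu2 hv1 hv2 huv
      exact hk0 u v (by rintro (h1 | h1); exacts [hu1 h1, hu2 h1])
        (by rintro (h1 | h1); exacts [hv1 h1, hv2 h1]) ⟨huv, hu2, hv2⟩
    · exact no_col F.gmin F.hand hk0
  · have h2 : POff H1 {w, p} κ1 := by
      intro u v hu hv huv
      have hu' : u ≠ h := fun h1 => F.hU1 (h1 ▸ F.s1.edge_mem u v huv)
      have hv' : v ≠ h := fun h1 => F.hU1 (h1 ▸ F.s1.edge_mem v u huv.symm)
      exact hk1 u v (by rintro (h1 | h1 | h1); exacts [hu (Or.inl h1), hu' h1, hu (Or.inr h1)])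
        (by rintro (h1 | h1 | h1); exacts [hv (Or.inl h1), hv' h1, hv (Or.inr h1)]) huv
    obtain ⟨κ0, -, hk0⟩ := F.s1.idx w p κ1 F.pKq F.pA F.pT h2
    rcases hk0 with hk0 | ⟨hBq, hk0⟩
    · refine no_col (w := w) F.gmin F.hand.symm (hk0.mono ?_)
      rintro x (h1 | h1)
      · exact Or.inl h1
      · exact Or.inr (Or.inr h1)
    · refine F.bad w hBq hBp κ0 ?_
      intro u v hu hv huv
      have hu' : u ≠ h := by
        rintro rfl
        rcases F.hand.adj.1 huv with h1 | h1
        · exact hv (Or.inr (Or.inl h1))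
        · exact hv (Or.inr (Or.inr h1))
      have hv' : v ≠ h := by
        rintro rfl
        rcases F.hand.adj.1 huv.symm with h1 | h1
        · exact hu (Or.inr (Or.inl h1))
        · exact hu (Or.inr (Or.inr h1))
      exact hk0 u v hu hv ⟨huv, hu', hv'⟩

end Pool.Agent.Helper97.SO
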