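import Pool.Agent.Helper97.SO.Defs

/-!
# Balanced sets of `G - h` (StubSmall)
-/

set_option autoImplicit false

namespace Pool.Agent.Helper97.SO

open SimpleGraph Pool.Agent.Helper57.TOK Pool.Agent.Helper57.TD Pool.Agent.Helper57.TOP
  Pool.Agent.Helper82.TK Pool.Agent.Helper75.SEP

variable {V : Type*} {G : SimpleGraph V} {U : Set V} {h p q : V}

/-- A balanced set with at most two neighbours. -/
lemma fden_le_zero_small [Finite V] (hM : GMin G U) {X : Set V} (hXU : X ⊆ U) {κ : V → ZMod 2}
    (hb : PB G κ X) (h2 : (Nb G X).ncard ≤ 2) : fden G X ≤ 0 := by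
  classical
  have h1 : X.ncard ≤ 1 := by
    by_contra hlt
    push Not at hlt
    have := gmin_three_le hM hXU hb (by omega)
    omega
  by_cases h0 : X.ncard = 0
  · rw [Set.ncard_eq_zero (Set.toFinite _)] at h0
    subst h0
    have hE : EAt G (∅ : Set V) = ∅ := by
      ext e
      induction e using Sym2.ind with
      | _ x y =>
        rw [mem_EAt]
        simp
    unfold fden rho
    rw [hE]
    simp
  · obtain ⟨y, rfl⟩ := Set.ncard_eq_one.1 (by omega : X.ncard = 1)
    have h3 : fden G (insert y (∅ : Set V)) = fden G ∅ +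
        ((G.neighborSet y \ (∅ : Set V)).ncard : ℤ) - 2 := fden_insert G (Set.notMem_empty y)
    have hE : EAt G (∅ : Set V) = ∅ := by
      ext e
      induction e using Sym2.ind with
      | _ x y =>
        rw [mem_EAt]
        simp
    have h4 : fden G (∅ : Set V) = 0 := by
      unfold fden rho
      rw [hE]
      simp
    have h5 : Nb G {y} = G.neighborSet y := by
      ext v
      constructor
      · rintro ⟨-, u, hu, huv⟩
        rw [Set.mem_singleton_iff] at hu
        exact hu ▸ huv
      · intro hv
        refine ⟨?_, y, rfl, hv⟩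
        rw [Set.mem_singleton_iff]
        exact fun hh => (SimpleGraph.Adj.ne hv) hh.symm
    rw [h4, Set.sdiff_empty, insert_empty_eq, ← h5] at h3
    rw [h3]
    have h6 : ((Nb G {y}).ncard : ℤ) ≤ 2 := by exact_mod_cast h2
    linarith

/-- One end of the handle is in the set. -/
lemma small_one [Finite V] (hM : GMin G U) (hh : Hand G h p q) {X N : Set V}
    {κ : V → ZMod 2} (hX : X ⊆ U \ {h}) (hb : PB (delV G h) κ X) (hN : Nb (delV G h) X ⊆ N)
    (hhN : h ∉ N) (h3 : N.ncard = 3) (hp : p ∈ X) (hq : q ∉ X) :
    fden (delV G h) X ≤ beta κ N := by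
  classical
  have hXU : X ⊆ U := fun x hx => (hX hx).1
  have hhX : h ∉ X := fun hx => (hX hx).2 rfl
  have hb' := delV_PB_one hh hhX hq hb
  have hdif : ({p, q} \ X : Set V) = {q} := by
    ext x
    simp only [Set.mem_sdiff, Set.mem_insert_iff, Set.mem_singleton_iff]
    constructor
    · rintro ⟨h1 | h1, h2⟩
      · exact absurd (h1 ▸ hp) h2
      · exact h1
    · rintro rfl
      exact ⟨Or.inr rfl, hq⟩
  have hf := delV_fden hh hhX
  rw [hdif, Set.ncard_singleton] at hf
  push_cast at hf
  have hNd := delV_Nb (G := G) hhX
  have hmem : h ∈ Nb G X := (hh.mem_Nb hhX).2 (Or.inl hp)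
  have hNe : Nb G X = insert h (Nb (delV G h) X) := by
    rw [hNd, Set.insert_sdiff_singleton, Set.insert_eq_of_mem hmem]
  have hhNd : h ∉ Nb (delV G h) X := fun hx => hhN (hN hx)
  have hc : (Nb G X).ncard = (Nb (delV G h) X).ncard + 1 := by
    rw [hNe, Set.ncard_insert_of_notMem hhNd (Set.toFinite _)]
  have hle := Set.ncard_le_ncard hN (Set.toFinite _)
  have hb0 : 0 ≤ beta κ N := by
    by_cases hm : Mono κ N
    · rw [beta_of_mono hm, h3]; norm_num
    · rw [beta_of_not_mono hm, h3]; norm_num
  by_cases hc3 : (Nb (delV G h) X).ncard = 3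
  · have hEq : Nb (delV G h) X = N :=
      Set.eq_of_subset_of_ncard_le hN (by omega) (Set.toFinite _)
    have h4 := gmin_P2 hM hXU hb' (by omega)
    rw [hNe, hEq] at h4
    have h5 : beta (Function.update κ h (κ p + 1)) (insert h N) ≤ beta κ N + 1 := by
      refine beta_insert_le h3 ?_ (Set.subset_insert _ _) ?_
      · rw [Set.ncard_insert_of_notMem hhN (Set.toFinite _), h3]
      · intro x hx
        have hxh : x ≠ h := by
          intro hxh
          rw [hxh] at hx
          exact hhN hx
        rw [Function.update_of_ne hxh]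
    linarith
  · by_cases hc2 : (Nb (delV G h) X).ncard = 2
    · have h4 := gmin_P1 hM hXU hb' (by omega)
      have h5 : beta (Function.update κ h (κ p + 1)) (Nb G X) ≤ 1 := by
        by_cases hm : Mono (Function.update κ h (κ p + 1)) (Nb G X)
        · rw [beta_of_mono hm, hc, hc2]; norm_num
        · rw [beta_of_not_mono hm, hc, hc2]; norm_num
      linarith
    · have h4 := fden_le_zero_small hM hXU hb' (by omega)
      linarith

/-- Balanced sets of `G - h` with at most three neighbours are not dense, if there is no `F2c`. -/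
theorem small0 [Finite V] (hM : GMin G U) (hU : h ∈ U) (hh : Hand G h p q)
    (hnF : ∀ Y κ, ¬ F2c G U h p q Y κ) {X N : Set V} {κ : V → ZMod 2} (hX : X ⊆ U \ {h})
    (hb : PB (delV G h) κ X) (hN : Nb (delV G h) X ⊆ N) (hNU : N ⊆ U \ {h}) (h3 : N.ncard = 3)
    (hXN : Disjoint X N) (hr : ((U \ {h}) \ (X ∪ N)).Nonempty) :
    fden (delV G h) X ≤ beta κ N := by
  classical
  have hXU : X ⊆ U := fun x hx => (hX hx).1
  have hhX : h ∉ X := fun hx => (hX hx).2 rfl
  have hhN : h ∉ N := fun hx => (hNU hx).2 rfl
  have hle := Set.ncard_le_ncard hN (Set.toFinite _)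
  have hb0 : 0 ≤ beta κ N := by
    by_cases hm : Mono κ N
    · rw [beta_of_mono hm, h3]; norm_num
    · rw [beta_of_not_mono hm, h3]; norm_num
  by_cases hp : p ∈ X
  · by_cases hq : q ∈ X
    · -- both ends
      have hp3 := gmin_hand_real hM hU hh
      have hq3 := gmin_hand_real hM hU hh.symm
      have hsub : Nb G (insert h X) ⊆ Nb (delV G h) X := by
        rintro v ⟨hv, y, hy, hyv⟩
        have hvh : v ≠ h := fun h1 => hv (Or.inl h1)
        have hvX : v ∉ X := fun h1 => hv (Or.inr h1)
        rcases hy with rfl | hy
        · rcases hh.adj.1 hyv with h1 | h1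
          · exact absurd (h1 ▸ hp) hvX
          · exact absurd (h1 ▸ hq) hvX
        · exact ⟨hvX, y, hy, hyv, fun h1 => hhX (h1 ▸ hy), hvh⟩
      have hins : insert h X ⊆ U := by
        rintro x (rfl | hx)
        · exact hU
        · exact hXU hx
      by_cases hc : κ p = κ q
      · exfalso
        have h4 := Set.ncard_le_ncard hsub (Set.toFinite _)
        exact gmin_no_two_real hM hins (delV_PB_both hh hhX hc hb) (by omega)
          (Or.inr hp) (Or.inr hq) hh.ne hp3 hq3
      · by_contra hlt
        push Not at hlt
        by_cases hc3 : (Nb (delV G h) X).ncard = 3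
        · have hEq : Nb (delV G h) X = N :=
            Set.eq_of_subset_of_ncard_le hN (by omega) (Set.toFinite _)
          exact hnF X κ ⟨hh, hU, hXU, hhX, hp, hq, hc3, by rw [hEq]; exact hr, hb, hc,
            by rw [hEq]; exact hlt⟩
        · have h4 := Set.ncard_le_ncard hsub (Set.toFinite _)
          have h5 : 2 ≤ (insert h X).ncard := by
            have h6 : ({p, q} : Set V) ⊆ insert h X := by
              rintro x (rfl | hx)
              · exact Or.inr hp
              · rw [Set.mem_singleton_iff] at hx; rw [hx]; exact Or.inr hq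
            have h7 := Set.ncard_le_ncard h6 (Set.toFinite _)
            rwa [Set.ncard_pair hh.ne] at h7
          have h6 := hM.ex.conn _ hins h5 (by omega)
          obtain ⟨r, hrU, hrX⟩ := hr
          obtain ⟨n, hnN, hnd⟩ : ∃ n ∈ N, n ∉ Nb (delV G h) X := by
            by_contra hcon
            push Not at hcon
            have := Set.ncard_le_ncard (fun x hx => hcon x hx : N ⊆ Nb (delV G h) X)
              (Set.toFinite _)
            omega
          have hrn : r ≠ n := fun h7 => hrX (Or.inr (h7 ▸ hnN))
          have h7 : ({r, n} : Set V) ⊆ U \ (insert h X ∪ Nb G (insert h X)) := by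
            rintro x (rfl | hx)
            · refine ⟨hrU.1, ?_⟩
              rintro ((h8 | h8) | h8)
              · exact hrU.2 h8
              · exact hrX (Or.inl h8)
              · exact hrX (Or.inr (hN (hsub h8)))
            · rw [Set.mem_singleton_iff] at hx
              subst hx
              refine ⟨(hNU hnN).1, ?_⟩
              rintro ((h8 | h8) | h8)
              · exact hhN (h8 ▸ hnN)
              · exact (Set.disjoint_left.1 hXN) h8 hnN
              · exact hnd (hsub h8)
          have h8 := Set.ncard_le_ncard h7 (Set.toFinite _)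
          rw [Set.ncard_pair hrn] at h8
          omega
    · exact small_one hM hh hX hb hN hhN h3 hp hq
  · by_cases hq : q ∈ X
    · exact small_one hM hh.symm hX hb hN hhN h3 hq hp
    · -- neither
      have hb' := delV_PB_none hh hhX hp hq hb
      have hdif : ({p, q} \ X : Set V) = {p, q} := by
        ext x
        simp only [Set.mem_sdiff, Set.mem_insert_iff, Set.mem_singleton_iff]
        constructor
        · exact fun h1 => h1.1
        · rintro (rfl | rfl)
          · exact ⟨Or.inl rfl, hp⟩
          · exact ⟨Or.inr rfl, hq⟩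
      have hf := delV_fden hh hhX
      rw [hdif, Set.ncard_pair hh.ne] at hf
      push_cast at hf
      have hNe : Nb (delV G h) X = Nb G X := by
        rw [delV_Nb hhX, Set.sdiff_singleton_eq_self]
        rw [hh.mem_Nb hhX]
        rintro (h1 | h1)
        · exact hp h1
        · exact hq h1
      by_cases hc3 : (Nb (delV G h) X).ncard = 3
      · have hEq : Nb (delV G h) X = N :=
          Set.eq_of_subset_of_ncard_le hN (by omega) (Set.toFinite _)
        have h4 := gmin_P1 hM hXU hb' (by rw [← hNe]; exact hc3)
        rw [← hNe, hEq] at h4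
        linarith
      · have h4 := fden_le_zero_small hM hXU hb' (by rw [← hNe]; omega)
        linarith

end Pool.Agent.Helper97.SO
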