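import Pool.Agent.Helper97.SO.TwoBase
import Pool.Agent.Helper97.SO.StubSmall

/-!
# The two steps: packing of dense sets
-/

set_option autoImplicit false

namespace Pool.Agent.Helper97.SO

open SimpleGraph Pool.Agent.Helper57.TOK Pool.Agent.Helper57.TD Pool.Agent.Helper57.TOP
  Pool.Agent.Helper82.TK Pool.Agent.Helper82.RP Pool.Agent.Helper75.SEP

variable {V : Type*} {G : SimpleGraph V} {U : Set V} {h p q : V} {H1 H2 : SimpleGraph V}
  {U1 U2 Kq Aq Kp Ap : Set V} {σq σp : ℤ} {Bq Bp : V → Prop}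

/-- `Y` uses the link `A`. -/
def Uses (H : SimpleGraph V) (A Y : Set V) : Prop := (∃ v ∈ A, v ∈ Y) ∧ A ⊆ Y ∪ Nb H Y

lemma not_uses {H : SimpleGraph V} {A Y Y' : Set V} (h : NT H Y Y') (h1 : Uses H A Y)
    (h2 : Uses H A Y') : False := by
  obtain ⟨v, hv, hvY⟩ := h1.1
  rcases h2.2 hv with h3 | h3
  · exact (Set.disjoint_left.1 h.1) hvY h3
  · exact (Set.disjoint_left.1 h.2) hvY h3

open Classical in
lemma sum_le_of_pairwise {α : Type*} {P : α → Prop} {R : α → α → Prop} {σ : ℤ} (hσ : 0 ≤ σ)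
    (hR : ∀ a b, R a b → P a → P b → False) (L : List α) (hL : L.Pairwise R) :
    (L.map (fun s => if P s then σ else 0)).sum ≤ σ := by
  induction L with
  | nil => simpa using hσ
  | cons a L ih =>
    rw [List.pairwise_cons] at hL
    rw [List.map_cons, List.sum_cons]
    by_cases ha : P a
    · have h0 : (L.map (fun s => if P s then σ else 0)).sum = 0 := by
        apply List.sum_eq_zero
        intro x hx
        obtain ⟨b, hb, rfl⟩ := List.mem_map.1 hx
        rw [if_neg (fun hPb => hR a b (hL.1 b hb) ha hPb)]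
      rw [h0, if_pos ha, add_zero]
    · rw [if_neg ha, zero_add]
      exact ih hL.2

open Classical in
theorem Two.exc_le [Finite V] (F : Two G U h p q H1 U1 H2 U2 Kq Aq Kp Ap σq σp Bq Bp)
    (hnF : ∀ Y κ, ¬ F2c G U h p q Y κ) {Y : Set V} {κ : V → ZMod 2} (hd : DenseR H2 U2 Y κ) :
    exc H2 Y κ ≤ (if Uses H2 Aq Y then σq else 0) + (if Uses H2 Ap Y then σp else 0) := by
  obtain ⟨hd, hreal⟩ := hd
  have hNU : ∀ n ∈ Nb H2 Y, n ∈ U2 := by
    rintro n ⟨-, u, -, hun⟩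
    exact F.s2.edge_mem n u hun.symm
  have hnot : ∀ n ∈ Nb H2 Y, ¬ (n ∈ T2 G h ∨ n ∈ Kq ∨ n ∈ Kp) := by
    intro n hn h1
    have h2 := F.deg_T (hNU n hn) h1
    have h3 := hreal n hn
    omega
  obtain ⟨Y1, κ1, hY1U, hb1, hN1, hκ1, hY1, hc1⟩ := F.s2.dense Y hd.sub κ hd.bal
    (fun n hn => ⟨fun h1 => hnot n hn (Or.inr (Or.inr h1)), fun h1 => hnot n hn (Or.inl h1)⟩)
  obtain ⟨Y0, κ0, hY0U, hb0, hN0, hκ0, hY0, hc0⟩ := F.s1.dense Y1 hY1U κ1 hb1
    (fun n hn => ⟨fun h1 => hnot n (hN1 hn) (Or.inr (Or.inl h1)),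
      fun h1 => hnot n (hN1 hn) (Or.inl h1)⟩)
  set N := Nb H2 Y with hN
  have hNY : ∀ n ∈ N, n ∉ Y := fun n hn => hn.1
  have hYY : ∀ v, v ∉ Kq → v ∉ Kp → (v ∈ Y0 ↔ v ∈ Y) := fun v h1 h2 => by
    rw [hY0 v h1, hY1 v h2]
  -- the members of `Kq`, `Kp`
  have hqrest : ∀ v ∈ Kq, v ∈ U2 → v ∉ Y → v ∉ N → v ∉ Y0 := by
    intro v hv hvU hvY hvN hv0
    obtain ⟨h1, h2, -, -⟩ := F.nb_q hv hvU
    rcases hc0 with ⟨h3, -⟩ | ⟨⟨x, hx, hx1⟩, -⟩
    · exact h3 v hv hv0
    · have hxKp : x ∉ Kp := (Set.disjoint_left.1 F.AqKp) hx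
      have hxY : x ∈ Y := (hY1 x hxKp).1 hx1
      have hadj : H2.Adj x v := by
        have h4 : x ∈ H2.neighborSet q := by rw [h2]; exact hx
        rw [h1]
        exact SimpleGraph.Adj.symm h4
      exact hvN ⟨hvY, x, hxY, hadj⟩
  have hprest : ∀ v ∈ Kp, v ∈ U2 → v ∉ Y → v ∉ N → v ∉ Y1 := by
    intro v hv hvU hvY hvN hv0
    obtain ⟨h1, h2, -, -⟩ := F.nb_p hv hvU
    rcases hc1 with ⟨h3, -⟩ | ⟨⟨x, hx, hxY⟩, -⟩
    · exact h3 v hv hv0
    · have hadj : H2.Adj x v := by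
        have h4 : x ∈ H2.neighborSet p := by rw [h2]; exact hx
        rw [h1]
        exact SimpleGraph.Adj.symm h4
      exact hvN ⟨hvY, x, hxY, hadj⟩
  have hNU0 : N ⊆ U \ {h} := fun n hn =>
    (F.mem_U (fun h1 => hnot n hn (Or.inr (Or.inl h1)))
      (fun h1 => hnot n hn (Or.inr (Or.inr h1)))).1 (hNU n hn)
  have hdis : Disjoint Y0 N := by
    rw [Set.disjoint_left]
    intro n hn0 hn
    exact hNY n hn ((hYY n (fun h1 => hnot n hn (Or.inr (Or.inl h1)))
      (fun h1 => hnot n hn (Or.inr (Or.inr h1)))).1 hn0)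
  have hrest : ((U \ {h}) \ (Y0 ∪ N)).Nonempty := by
    obtain ⟨v, hvU, hv⟩ := hd.rest
    have hvY : v ∉ Y := fun h1 => hv (Or.inl h1)
    have hvN : v ∉ N := fun h1 => hv (Or.inr h1)
    by_cases hq : v ∈ Kq
    · exact ⟨v, F.s1.KU hq, fun h1 => h1.elim (hqrest v hq hvU hvY hvN) hvN⟩
    · by_cases hp : v ∈ Kp
      · refine ⟨v, (F.s1.out v hq).1 (F.s2.KU hp), fun h1 => h1.elim ?_ hvN⟩
        intro h2
        exact hprest v hp hvU hvY hvN ((hY0 v hq).1 h2)
      · exact ⟨v, (F.mem_U hq hp).1 hvU, fun h1 =>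
          h1.elim (fun h2 => hvY ((hYY v hq hp).1 h2)) hvN⟩
  have hsm := small0 F.gmin F.hU F.hand hnF hY0U hb0 (hN0.trans hN1) hNU0 hd.three hdis hrest
  have hbe : beta κ0 N = beta κ N := by
    apply beta_congr
    intro n hn
    rw [hκ0 n (fun h1 => hnot n hn (Or.inr (Or.inl h1))),
      hκ1 n (fun h1 => hnot n hn (Or.inr (Or.inr h1)))]
  rw [hbe] at hsm
  -- the counts
  have e1 : fden H2 Y ≤ fden H1 Y1 + (if Uses H2 Ap Y then σp else 0) := by
    rcases hc1 with ⟨-, h3⟩ | ⟨h2, h3, -, h4⟩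
    · rw [h3]
      have : (0 : ℤ) ≤ (if Uses H2 Ap Y then σp else 0) := by
        split_ifs
        · exact F.s2.sig
        · exact le_rfl
      linarith
    · rw [h4, if_pos ⟨h2, h3⟩]
  have e0 : fden H1 Y1 ≤ fden (delV G h) Y0 + (if Uses H2 Aq Y then σq else 0) := by
    rcases hc0 with ⟨-, h3⟩ | ⟨h2, h3, -, h4⟩
    · rw [h3]
      have : (0 : ℤ) ≤ (if Uses H2 Aq Y then σq else 0) := by
        split_ifs
        · exact F.s1.sig
        · exact le_rfl
      linarith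
    · have hu : Uses H2 Aq Y := by
        refine ⟨?_, ?_⟩
        · obtain ⟨x, hx, hx1⟩ := h2
          exact ⟨x, hx, (hY1 x ((Set.disjoint_left.1 F.AqKp) hx)).1 hx1⟩
        · intro x hx
          rcases h3 hx with h5 | h5
          · exact Or.inl ((hY1 x ((Set.disjoint_left.1 F.AqKp) hx)).1 h5)
          · exact Or.inr (hN1 h5)
      rw [h4, if_pos hu]
  unfold exc
  linarith

theorem Two.packR [Finite V] (F : Two G U h p q H1 U1 H2 U2 Kq Aq Kp Ap σq σp Bq Bp)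
    (hnF : ∀ Y κ, ¬ F2c G U h p q Y κ) : PackR H2 U2 := by
  classical
  intro L hL hp
  have h1 : (L.map (fun s => exc H2 s.1 s.2)).sum ≤
      (L.map (fun s => (if Uses H2 Aq s.1 then σq else 0) +
        (if Uses H2 Ap s.1 then σp else 0))).sum := by
    apply List.sum_le_sum
    intro s hs
    exact F.exc_le hnF (hL s hs)
  have h2 := sum_le_of_pairwise (P := fun s : Set V × (V → ZMod 2) => Uses H2 Aq s.1)
    F.s1.sig (fun a b hab ha hb => not_uses hab ha hb) L hp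
  have h3 := sum_le_of_pairwise (P := fun s : Set V × (V → ZMod 2) => Uses H2 Ap s.1)
    F.s2.sig (fun a b hab ha hb => not_uses hab ha hb) L hp
  have h4 : (L.map (fun s => (if Uses H2 Aq s.1 then σq else 0) +
        (if Uses H2 Ap s.1 then σp else 0))).sum =
      (L.map (fun s => if Uses H2 Aq s.1 then σq else 0)).sum +
      (L.map (fun s => if Uses H2 Ap s.1 then σp else 0)).sum := by
    rw [← List.sum_map_add]
  have h5 := F.s2.weight
  have h6 := F.s1.weight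
  have h7 := delV_card_edges (G := G) F.hand
  have h8 := F.gmin.ex.dens
  rw [odG_one] at h8
  have h9 := Set.ncard_sdiff_singleton_add_one F.hU (Set.toFinite _)
  have h10 : (G.edgeSet.ncard : ℤ) = (delV G h).edgeSet.ncard + 2 := by
    have : G.edgeSet.ncard = (delV G h).edgeSet.ncard + 2 := by omega
    exact_mod_cast this
  have h11 : (U.ncard : ℤ) = (U \ {h}).ncard + 1 := by exact_mod_cast h9.symm
  have h12 : 2 * (U.ncard : ℤ) ≤ G.edgeSet.ncard + 2 := by exact_mod_cast h8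
  linarith

end Pool.Agent.Helper97.SO
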