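import Pool.Agent.Helper97.SO.ConnB

/-!
# The two steps: connectivity (StubConn)
-/

set_option autoImplicit false

namespace Pool.Agent.Helper97.SO

open SimpleGraph Pool.Agent.Helper57.TOK Pool.Agent.Helper57.TD Pool.Agent.Helper57.TOP
  Pool.Agent.Helper82.TK Pool.Agent.Helper82.RP Pool.Agent.Helper75.SEP

variable {V : Type*} {G : SimpleGraph V} {U : Set V} {h p q : V} {H1 H2 : SimpleGraph V}
  {U1 U2 Kq Aq Kp Ap : Set V} {σq σp : ℤ} {Bq Bp : V → Prop}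

/-- Connectivity from separations by vertices outside of `T`. -/
theorem conn_of [Finite V] {H : SimpleGraph V} {U T : Set V}
    (he : ∀ u v, H.Adj u v → u ∈ U)
    (hT : ∀ t ∈ T, ∃ x y, x ≠ y ∧ x ∉ T ∧ y ∉ T ∧ H.neighborSet t = {x, y})
    (hu : ∀ t ∈ T, ∀ t' ∈ T, H.neighborSet t = H.neighborSet t' → t = t')
    (hi : Ind2 H)
    (hc : ∀ Y N R, Sepn H U Y N R → N.ncard ≤ 2 → Disjoint N T → 2 ≤ Y.ncard → 2 ≤ R.ncard →
      False) :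
    ∀ Y ⊆ U, 2 ≤ Y.ncard → (Nb H Y).ncard ≤ 2 → (U \ (Y ∪ Nb H Y)).ncard ≤ 1 :=
  Pool.Agent.Helper82.SO.conn_of he hT hi hc

/-- No separation by real vertices. -/
theorem Two.cut [Finite V] (F : Two G U h p q H1 U1 H2 U2 Kq Aq Kp Ap σq σp Bq Bp)
    {Y N R : Set V} (hs : Sepn H2 U2 Y N R) (hN : N.ncard ≤ 2)
    (hNT : Disjoint N {t | t ∈ U2 ∧ (t ∈ T2 G h ∨ t ∈ Kq ∨ t ∈ Kp)}) (hY : 2 ≤ Y.ncard)
    (hR : 2 ≤ R.ncard) : False :=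
  F.cut' hs hN hNT hY hR

theorem Two.conn [Finite V] (F : Two G U h p q H1 U1 H2 U2 Kq Aq Kp Ap σq σp Bq Bp)
    (hi : Ind2 H2) : ∀ Y ⊆ U2, 2 ≤ Y.ncard → (Nb H2 Y).ncard ≤ 2 →
      (U2 \ (Y ∪ Nb H2 Y)).ncard ≤ 1 :=
  F.conn' hi

end Pool.Agent.Helper97.SO
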