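import Pool.Agent.Helper97.SO.TwoBase

/-!
# The two steps: degrees (StubDeg)
-/

set_option autoImplicit false

namespace Pool.Agent.Helper97.SO

open SimpleGraph Pool.Agent.Helper57.TOK Pool.Agent.Helper57.TD Pool.Agent.Helper57.TOP
  Pool.Agent.Helper82.TK Pool.Agent.Helper82.RP Pool.Agent.Helper75.SEP

variable {V : Type*} {G : SimpleGraph V} {U : Set V} {h p q : V} {H1 H2 : SimpleGraph V}
  {U1 U2 Kq Aq Kp Ap : Set V} {σq σp : ℤ} {Bq Bp : V → Prop}

lemma deg_aux [Finite V] (hM : GMin G U) {X : Set V} {y' h x : V} (hXU : X ⊆ U)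
    (h2 : 2 ≤ X.ncard) (hNX : ∀ u ∈ X, ∀ v, G.Adj u v → v ∈ X ∨ v = y' ∨ v = h) (hx : x ∈ U)
    (hxX : x ∉ X) (hxy : x ≠ y') (hxh : x ≠ h) (hx3 : 3 ≤ (G.neighborSet x).ncard) : False := by
  have hN : Nb G X ⊆ {y', h} := by
    rintro v ⟨hv, u, hu, huv⟩
    rcases hNX u hu v huv with h1 | h1 | h1
    · exact absurd h1 hv
    · exact Or.inl h1
    · exact Or.inr h1
  have hN2 : (Nb G X).ncard ≤ 2 :=
    (Set.ncard_le_ncard hN (Set.toFinite _)).trans
      ((Set.ncard_insert_le y' {h}).trans (by rw [Set.ncard_singleton]))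
  have hr := hM.ex.conn X hXU h2 hN2
  have hxN : x ∉ Nb G X := fun h1 => by
    rcases hN h1 with h3 | h3
    · exact hxy h3
    · exact hxh h3
  have hsub : G.neighborSet x ⊆ {y', h} := by
    intro v hv
    have hadj : G.Adj x v := hv
    have hvU : v ∈ U := hM.ex.edge_mem v x hadj.symm
    have hvX : v ∉ X := fun h1 => hxN ⟨hxX, v, h1, hadj.symm⟩
    by_cases hvN : v ∈ Nb G X
    · exact hN hvN
    · exfalso
      have h3 : ({x, v} : Set V) ⊆ U \ (X ∪ Nb G X) := by
        rintro w (rfl | hw)
        · exact ⟨hx, fun h1 => h1.elim hxX hxN⟩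
        · rw [Set.mem_singleton_iff] at hw
          rw [hw]; exact ⟨hvU, fun h1 => h1.elim hvX hvN⟩
      have h4 := Set.ncard_le_ncard h3 (Set.toFinite _)
      rw [Set.ncard_pair hadj.ne] at h4
      omega
  have h5 := Set.ncard_le_ncard hsub (Set.toFinite _)
  have h6 := Set.ncard_insert_le y' ({h} : Set V)
  rw [Set.ncard_singleton] at h6
  omega

lemma two_le_of {s : Set V} [Finite V] {a b : V} (ha : a ∈ s) (hb : b ∈ s) (hab : a ≠ b) :
    2 ≤ s.ncard := by
  have h1 : ({a, b} : Set V) ⊆ s := by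
    rintro x (rfl | hx)
    · exact ha
    · rw [Set.mem_singleton_iff] at hx
      rw [hx]; exact hb
  have h2 := Set.ncard_le_ncard h1 (Set.toFinite _)
  rwa [Set.ncard_pair hab] at h2

/-- A set with at most two elements is the pair of two of its elements. -/
lemma eq_pair_of [Finite V] {A : Set V} (h2 : A.ncard ≤ 2) {x y : V} (hx : x ∈ A) (hy : y ∈ A)
    (hxy : x ≠ y) : A = {x, y} := by
  symm
  apply Set.eq_of_subset_of_ncard_le _ _ (Set.toFinite _)
  · rintro z (rfl | hz)
    · exact hx
    · rw [Set.mem_singleton_iff] at hz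
      rw [hz]; exact hy
  · rw [Set.ncard_pair hxy]; exact h2

/-- The link at `y ∈ Aq` in `H2`. -/
lemma Two.lkq [Finite V] (F : Two G U h p q H1 U1 H2 U2 Kq Aq Kp Ap σq σp Bq Bp) {y : V}
    (hy : y ∈ Aq) : ∃ y' ∈ Aq, y' ≠ y ∧ (H2.Adj y y' ∨
      ∃ m, (m ∈ T2 G h ∨ m = q) ∧ m ∉ Kp ∧ H2.neighborSet m = {y, y'}) := by
  obtain ⟨y', hy', hne, h1⟩ := F.s1.lk y hy
  have hyK : y ∉ Kp := (Set.disjoint_left.1 F.AqKp) hy
  have hyK' : y' ∉ Kp := (Set.disjoint_left.1 F.AqKp) hy'
  refine ⟨y', hy', hne, ?_⟩
  rcases h1 with h1 | ⟨m, -, hm, hnb⟩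
  · exact Or.inl (F.s2.sub y y' hyK hyK' h1)
  · right
    have hmK : m ∉ Kp := by
      intro hmK
      have ha : H1.Adj m y := by
        have : y ∈ H1.neighborSet m := by rw [hnb]; exact Or.inl rfl
        exact this
      have ha' : H1.Adj m y' := by
        have : y' ∈ H1.neighborSet m := by rw [hnb]; exact Or.inr rfl
        exact this
      have hyA := (F.s2.nbK m hmK y ha).resolve_left hyK
      have hyA' := (F.s2.nbK m hmK y' ha').resolve_left hyK'
      apply F.AA ⟨y, hy⟩
      rw [eq_pair_of F.s1.A2 hy hy' hne.symm, eq_pair_of F.s2.A2 hyA hyA' hne.symm]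
    refine ⟨m, hm, hmK, ?_⟩
    rw [F.s2.nbr m hmK, hnb]
    rcases hm with hm | hm
    · exact fun h2 => (Set.disjoint_left.1 F.s2.AT) h2 hm
    · rw [hm]; exact F.qA

theorem Two.deg2 [Finite V] (F : Two G U h p q H1 U1 H2 U2 Kq Aq Kp Ap σq σp Bq Bp) :
    ∀ y ∈ U2, 2 ≤ (H2.neighborSet y).ncard := by
  classical
  intro y hyU2
  by_cases hT : y ∈ T2 G h ∨ y ∈ Kq ∨ y ∈ Kp
  · exact (F.deg_T hyU2 hT).ge
  push Not at hT
  obtain ⟨hyT, hyq, hyp⟩ := hT
  have hyU := (F.mem_U hyq hyp).1 hyU2
  have hpU : p ∈ U := F.gmin.ex.edge_mem p h F.hand.hp.symm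
  have hqU : q ∈ U := F.gmin.ex.edge_mem q h F.hand.hq.symm
  by_cases hAq : y ∈ Aq
  · obtain ⟨y', hy', hne, hlk⟩ := F.lkq hAq
    obtain ⟨n, hn, hn'⟩ : ∃ n, H2.Adj y n ∧ (n = y' ∨ ((n ∈ T2 G h ∨ n = q) ∧ n ∉ Kp ∧
        H2.neighborSet n = {y, y'})) := by
      rcases hlk with h1 | ⟨m, h1, h2, h3⟩
      · exact ⟨y', h1, Or.inl rfl⟩
      · refine ⟨m, ?_, Or.inr ⟨h1, h2, h3⟩⟩
        have : y ∈ H2.neighborSet m := by rw [h3]; exact Or.inl rfl
        exact SimpleGraph.Adj.symm this
    have hyT' : y' ∉ T2 G h := fun h1 => (Set.disjoint_left.1 F.s1.AT) hy' h1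
    by_cases hAp : y ∈ Ap
    · obtain ⟨z', hz', hne', hlk'⟩ := F.s2.lk y hAp
      have hzT' : z' ∉ T2 G h := fun h1 => (Set.disjoint_left.1 F.s2.AT) hz' h1
      have hyz : y' ≠ z' := by
        rintro rfl
        apply F.AA ⟨y, hAq⟩
        rw [eq_pair_of F.s1.A2 hAq hy' hne.symm, eq_pair_of F.s2.A2 hAp hz' hne'.symm]
      rcases hlk' with h1 | ⟨m, -, h2, h3⟩
      · refine two_le_of hn h1 ?_
        rintro rfl
        rcases hn' with h4 | ⟨h4 | h4, -⟩
        · exact hyz h4.symm
        · exact hzT' h4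
        · exact F.qA (h4 ▸ hz')
      · have hym : H2.Adj y m := by
          have : y ∈ H2.neighborSet m := by rw [h3]; exact Or.inl rfl
          exact SimpleGraph.Adj.symm this
        refine two_le_of hn hym ?_
        rintro rfl
        rcases hn' with h4 | ⟨-, -, h4⟩
        · subst h4
          rcases h2 with h5 | h5
          · exact hyT' h5
          · exact F.pA (h5 ▸ hy')
        · rw [h4] at h3
          have h6 : y' ∈ ({y, z'} : Set V) := by rw [← h3]; exact Or.inr rfl
          rcases h6 with h6 | h6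
          · exact hne h6
          · exact hyz h6
    · by_contra hlt
      have hone : ∀ v, H2.Adj y v → v = n := by
        intro v hv
        by_contra hvn
        exact hlt (two_le_of hv hn hvn)
      have hyp' : y ≠ p := fun h1 => F.pA (h1 ▸ hAq)
      have hyq' : y ≠ q := fun h1 => F.s1.qA (h1 ▸ hAq)
      have hNy : ∀ v, G.Adj y v → v ∈ Kq ∨ v = n := by
        intro v hv
        by_cases hvq : v ∈ Kq
        · exact Or.inl hvq
        · right
          have hvh : v ≠ h := by
            rintro rfl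
            rcases F.hand.adj.1 hv.symm with h1 | h1
            · exact hyp' h1
            · exact hyq' h1
          have h1 : H1.Adj y v := F.s1.sub y v hyq hvq ⟨hv, hyU.2, hvh⟩
          have hvp : v ∉ Kp := by
            intro h2
            rcases F.s2.nbK v h2 y h1.symm with h3 | h3
            · exact hyp h3
            · exact hAp h3
          exact hone v (F.s2.sub y v hyp hvp h1)
      obtain ⟨u0, hu0, -⟩ := F.s1.att y hAq
      have hKq : ∀ u ∈ Kq, ∀ v, G.Adj u v → v ∈ Kq ∨ v = y ∨ v = y' ∨ v = h := by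
        intro u hu v huv
        by_cases hvh : v = h
        · exact Or.inr (Or.inr (Or.inr hvh))
        have huh : u ≠ h := fun h1 => F.hKq (h1 ▸ hu)
        rcases F.s1.nbK u hu v ⟨huv, huh, hvh⟩ with h1 | h1
        · exact Or.inl h1
        · rw [eq_pair_of F.s1.A2 hAq hy' hne.symm] at h1
          rcases h1 with h1 | h1
          · exact Or.inr (Or.inl h1)
          · exact Or.inr (Or.inr (Or.inl h1))
      set X : Set V := insert y Kq ∪ {m | m = n ∧ m ≠ y'} with hX
      have hnX : n ≠ y' → n ∈ Kq ∨ (n ∈ T2 G h ∧ n ∉ Kq ∧ G.neighborSet n = {y, y'}) := by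
        intro hnn
        rcases hn' with h1 | ⟨h1, h2, h3⟩
        · exact absurd h1 hnn
        · by_cases hnK : n ∈ Kq
          · exact Or.inl hnK
          · right
            rcases h1 with h1 | h1
            · exact ⟨h1, hnK, by rw [← F.nb_T h1 hnK h2]; exact h3⟩
            · exfalso
              rcases F.qK with h4 | ⟨-, h4, -⟩
              · exact hnK (h1 ▸ h4)
              · rw [h4] at hAq; exact hAq
      refine deg_aux F.gmin (X := X) (y' := y') (h := h) (x := p) ?_ ?_ ?_ hpU ?_ ?_
        F.hand.hp.ne' F.p3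
      · rintro x ((rfl | hx) | ⟨rfl, hx⟩)
        · exact hyU.1
        · exact (F.s1.KU hx).1
        · rcases hnX hx with h1 | ⟨h1, -, h2⟩
          · exact (F.s1.KU h1).1
          · have : G.Adj x y := by
              have : y ∈ G.neighborSet x := by rw [h2]; exact Or.inl rfl
              exact this
            exact F.gmin.ex.edge_mem x y this
      · exact two_le_of (Or.inl (Or.inl rfl)) (Or.inl (Or.inr hu0)) (fun h1 => hyq (h1 ▸ hu0))
      · rintro u ((rfl | hu) | ⟨rfl, hu⟩) v huv
        · rcases hNy v huv with h1 | h1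
          · exact Or.inl (Or.inl (Or.inr h1))
          · by_cases h2 : v = y'
            · exact Or.inr (Or.inl h2)
            · exact Or.inl (Or.inr ⟨h1, h2⟩)
        · rcases hKq u hu v huv with h1 | h1 | h1 | h1
          · exact Or.inl (Or.inl (Or.inr h1))
          · exact Or.inl (Or.inl (Or.inl h1))
          · exact Or.inr (Or.inl h1)
          · exact Or.inr (Or.inr h1)
        · rcases hnX hu with h1 | ⟨-, -, h1⟩
          · rcases hKq u h1 v huv with h1 | h1 | h1 | h1
            · exact Or.inl (Or.inl (Or.inr h1))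
            · exact Or.inl (Or.inl (Or.inl h1))
            · exact Or.inr (Or.inl h1)
            · exact Or.inr (Or.inr h1)
          · have h2 : v ∈ ({y, y'} : Set V) := by rw [← h1]; exact huv
            rcases h2 with h2 | h2
            · exact Or.inl (Or.inl (Or.inl h2))
            · exact Or.inr (Or.inl h2)
      · rintro ((h1 | h1) | ⟨h1, h2⟩)
        · exact hyp' h1.symm
        · exact F.pKq h1
        · subst h1
          rcases hnX h2 with h3 | h3
          · exact F.pKq h3
          · exact F.pT h3.1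
      · exact fun h1 => F.pA (h1 ▸ hy')
  · by_cases hAp : y ∈ Ap
    · obtain ⟨y', hy', hne, hlk⟩ := F.s2.lk y hAp
      obtain ⟨n, hn, hn'⟩ : ∃ n, H2.Adj y n ∧ (n = y' ∨ (n ∈ U2 ∧ (n ∈ T2 G h ∨ n = p) ∧
          H2.neighborSet n = {y, y'})) := by
        rcases hlk with h1 | ⟨m, h1, h2, h3⟩
        · exact ⟨y', h1, Or.inl rfl⟩
        · refine ⟨m, ?_, Or.inr ⟨h1, h2, h3⟩⟩
          have : y ∈ H2.neighborSet m := by rw [h3]; exact Or.inl rfl
          exact SimpleGraph.Adj.symm this
      by_contra hlt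
      have hone : ∀ v, H2.Adj y v → v = n := by
        intro v hv
        by_contra hvn
        exact hlt (two_le_of hv hn hvn)
      have hyp' : y ≠ p := fun h1 => F.s2.qA (h1 ▸ hAp)
      have hyq' : y ≠ q := fun h1 => F.qA (h1 ▸ hAp)
      have hNy : ∀ v, G.Adj y v → v ∈ Kp ∨ v = n := by
        intro v hv
        by_cases hvp : v ∈ Kp
        · exact Or.inl hvp
        · right
          have hvh : v ≠ h := by
            rintro rfl
            rcases F.hand.adj.1 hv.symm with h1 | h1
            · exact hyp' h1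
            · exact hyq' h1
          have hvq : v ∉ Kq := by
            intro h2
            rcases F.s1.nbK v h2 y ⟨hv.symm, hvh, hyU.2⟩ with h3 | h3
            · exact hyq h3
            · exact hAq h3
          have h1 : H1.Adj y v := F.s1.sub y v hyq hvq ⟨hv, hyU.2, hvh⟩
          exact hone v (F.s2.sub y v hyp hvp h1)
      obtain ⟨u0, hu0, -⟩ := F.s2.att y hAp
      have hKp : ∀ u ∈ Kp, ∀ v, G.Adj u v → v ∈ Kp ∨ v = y ∨ v = y' ∨ v = h := by
        intro u hu v huv
        by_cases hvh : v = h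
        · exact Or.inr (Or.inr (Or.inr hvh))
        have huh : u ≠ h := fun h1 => F.hKp (h1 ▸ hu)
        have huq : u ∉ Kq := fun h1 => (Set.disjoint_left.1 F.KK) h1 hu
        have hvq : v ∉ Kq := by
          intro h2
          rcases F.s1.nbK v h2 u ⟨huv.symm, hvh, huh⟩ with h3 | h3
          · exact huq h3
          · exact (Set.disjoint_left.1 F.AqKp) h3 hu
        rcases F.s2.nbK u hu v (F.s1.sub u v huq hvq ⟨huv, huh, hvh⟩) with h1 | h1
        · exact Or.inl h1
        · rw [eq_pair_of F.s2.A2 hAp hy' hne.symm] at h1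
          rcases h1 with h1 | h1
          · exact Or.inr (Or.inl h1)
          · exact Or.inr (Or.inr (Or.inl h1))
      set X : Set V := insert y Kp ∪ {m | m = n ∧ m ≠ y'} with hX
      have hnX : n ≠ y' → n ∈ Kp ∨ (n ∈ T2 G h ∧ G.neighborSet n = {y, y'}) := by
        intro hnn
        rcases hn' with h1 | ⟨h0, h1, h3⟩
        · exact absurd h1 hnn
        · by_cases hnK : n ∈ Kp
          · exact Or.inl hnK
          · right
            rcases h1 with h1 | h1
            · have hnq : n ∉ Kq := by
                intro h4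
                obtain ⟨h5, -⟩ := F.nb_q h4 h0
                exact F.qT (h5 ▸ h1)
              exact ⟨h1, by rw [← F.nb_T h1 hnq hnK]; exact h3⟩
            · exfalso
              rcases F.pK with h4 | ⟨-, h4, -⟩
              · exact hnK (h1 ▸ h4)
              · rw [h4] at hAp; exact hAp
      refine deg_aux F.gmin (X := X) (y' := y') (h := h) (x := q) ?_ ?_ ?_ hqU ?_ ?_
        F.hand.hq.ne' F.q3
      · rintro x ((rfl | hx) | ⟨rfl, hx⟩)
        · exact hyU.1
        · have hxq : x ∉ Kq := fun h1 => (Set.disjoint_left.1 F.KK) h1 hx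
          exact ((F.s1.out x hxq).1 (F.s2.KU hx)).1
        · rcases hnX hx with h1 | ⟨-, h2⟩
          · have hxq : x ∉ Kq := fun h3 => (Set.disjoint_left.1 F.KK) h3 h1
            exact ((F.s1.out x hxq).1 (F.s2.KU h1)).1
          · have : G.Adj x y := by
              have : y ∈ G.neighborSet x := by rw [h2]; exact Or.inl rfl
              exact this
            exact F.gmin.ex.edge_mem x y this
      · exact two_le_of (Or.inl (Or.inl rfl)) (Or.inl (Or.inr hu0)) (fun h1 => hyp (h1 ▸ hu0))
      · rintro u ((rfl | hu) | ⟨rfl, hu⟩) v huv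
        · rcases hNy v huv with h1 | h1
          · exact Or.inl (Or.inl (Or.inr h1))
          · by_cases h2 : v = y'
            · exact Or.inr (Or.inl h2)
            · exact Or.inl (Or.inr ⟨h1, h2⟩)
        · rcases hKp u hu v huv with h1 | h1 | h1 | h1
          · exact Or.inl (Or.inl (Or.inr h1))
          · exact Or.inl (Or.inl (Or.inl h1))
          · exact Or.inr (Or.inl h1)
          · exact Or.inr (Or.inr h1)
        · rcases hnX hu with h1 | ⟨-, h1⟩
          · rcases hKp u h1 v huv with h1 | h1 | h1 | h1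
            · exact Or.inl (Or.inl (Or.inr h1))
            · exact Or.inl (Or.inl (Or.inl h1))
            · exact Or.inr (Or.inl h1)
            · exact Or.inr (Or.inr h1)
          · have h2 : v ∈ ({y, y'} : Set V) := by rw [← h1]; exact huv
            rcases h2 with h2 | h2
            · exact Or.inl (Or.inl (Or.inl h2))
            · exact Or.inr (Or.inl h2)
      · rintro ((h1 | h1) | ⟨h1, h2⟩)
        · exact hyq' h1.symm
        · exact F.qKp h1
        · subst h1
          rcases hnX h2 with h3 | h3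
          · exact F.qKp h3
          · exact F.qT h3.1
      · exact fun h1 => F.qA (h1 ▸ hy')
    · rw [F.s2.nbr y hyp hAp, F.s1.nbr y hyq hAq, delV_nb y hyU.2]
      by_cases h1 : h ∈ G.neighborSet y
      · have h2 := Set.ncard_sdiff_singleton_add_one h1 (Set.toFinite _)
        have h3 : 3 ≤ (G.neighborSet y).ncard := by
          rcases F.hand.adj.1 (SimpleGraph.Adj.symm h1) with h4 | h4
          · rw [h4]; exact F.p3
          · rw [h4]; exact F.q3
        omega
      · rw [Set.sdiff_singleton_eq_self h1]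
        exact F.gmin.ex.deg2 y hyU.1

end Pool.Agent.Helper97.SO
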