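import Pool.Agent.Helper97.SO.Stp
import Pool.Agent.Helper51.W2.TwoS

/-!
# The two steps exist (StubTwo)
-/

set_option autoImplicit false

namespace Pool.Agent.Helper97.SO

open SimpleGraph Pool.Agent.Helper57.TOK Pool.Agent.Helper57.TD Pool.Agent.Helper57.TOP
  Pool.Agent.Helper82.TK Pool.Agent.Helper75.SEP Pool.Agent.Helper51.W2

variable {V : Type*} {G : SimpleGraph V} {U : Set V} {h p q : V}

/-- The pairs of the two ends are different. -/
theorem SEnd.pair_ne [Finite V] (hM : GMin G U) (hU : h ∈ U) (hh : Hand G h p q) {a b a' b' : V}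
    {S S' : Set V} (h1 : SEnd G p h q a b S) (h2 : SEnd G q h p a' b' S') :
    ({a, b} : Set V) ≠ {a', b'} :=
  PQ.AA ⟨⟨hM, hU, hh, h1⟩, ⟨hM, hU, hh.symm, h2⟩⟩

/-- The first step. -/
theorem SEnd.se1 [Finite V] (hM : GMin G U) (hU : h ∈ U) (hh : Hand G h p q) {a b : V} {S : Set V}
    (h1 : SEnd G p h q a b S) :
    ∃ o e t, SE (delV G h) (U \ {h}) (T2 G h) q a b S o e t :=
  exists_first ⟨hM, hU, hh, h1⟩

/-- The second step, after a first step. -/
theorem SEnd.se2 [Finite V] (hM : GMin G U) (hU : h ∈ U) (hh : Hand G h p q) {a b : V} {S : Set V}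
    (h1 : SEnd G q h p a b S) {H1 : SimpleGraph V} {U1 K A : Set V} {σ : ℤ} {Bd : V → Prop}
    (hs : Stp (delV G h) (U \ {h}) H1 U1 q K A (T2 G h) σ Bd) (_hqA : q ∉ ({a, b} : Set V))
    (hK : ∀ v ∈ K, v ≠ p ∧ v ∉ S) (hA : ∀ v ∈ A, v ≠ p ∧ v ∉ S) :
    ∃ o e t, SE H1 U1 (T2 G h) p a b S o e t := by
  have g : QF G U h q p a b S := ⟨hM, hU, hh.symm, h1⟩
  refine g.exists_se hs.edge_mem ?_ ?_
  · rw [hs.nbr p (fun h2 => (hK p h2).1 rfl) (fun h2 => (hA p h2).1 rfl)]
    exact delV_nb p hh.hp.ne.symm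
  · intro s hsS
    rw [hs.nbr s (fun h2 => (hK s h2).2 hsS) (fun h2 => (hA s h2).2 hsS)]
    exact delV_nbS g hsS

theorem exists_two [Finite V] (hM : GMin G U) (hU : h ∈ U) (hh : Hand G h p q) :
    ∃ H1 U1 H2 U2 Kq Aq Kp Ap σq σp Bq Bp,
      Two G U h p q H1 U1 H2 U2 Kq Aq Kp Ap σq σp Bq Bp := by
  classical
  have hdel : ∀ u v, (delV G h).Adj u v → u ∈ U \ {h} := delV_edge hM.ex.edge_mem
  by_cases hq : ∃ a b S, SEnd G p h q a b S
  · obtain ⟨a, b, S, h1⟩ := hq
    have f : QF G U h p q a b S := ⟨hM, hU, hh, h1⟩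
    obtain ⟨o, e, t, hse⟩ := h1.se1 hM hU hh
    have s1 := hse.stp
    by_cases hp : ∃ a' b' S', SEnd G q h p a' b' S'
    · obtain ⟨a', b', S', h2⟩ := hp
      have g : QF G U h q p a' b' S' := ⟨hM, hU, hh.symm, h2⟩
      have z : PQ G U h p q a b a' b' S S' := ⟨f, g⟩
      have hqA : q ∉ ({a', b'} : Set V) := by
        rintro (h3 | h3)
        · exact h2.pa h3
        · exact h2.pb h3
      have hpA : p ∉ ({a, b} : Set V) := by
        rintro (h3 | h3)
        · exact h1.pa h3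
        · exact h1.pb h3
      obtain ⟨o', e', t', hse'⟩ := h2.se2 hM hU hh s1 hqA (by
        intro v hv
        refine ⟨?_, fun h3 => Set.disjoint_left.1 z.KK hv (Or.inr h3)⟩
        rintro rfl
        exact Set.disjoint_left.1 z.KK hv (Or.inl rfl)) (by
        intro v hv
        refine ⟨?_, fun h3 => Set.disjoint_left.1 z.AK hv (Or.inr h3)⟩
        rintro rfl
        exact hpA hv)
      have s2 := hse'.stp
      refine ⟨_, _, _, _, _, _, _, _, _, _, _, _, hM, hU, hh, s1, s2, z.KK, z.AK, z.symm.AK, hpA,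
        hqA, fun _ => z.AA, Or.inl (Or.inl rfl), Or.inl (Or.inl rfl), ?_⟩
      intro w hw1 hw2 κ
      exact z.bad (fun v hv hv' => s1.nbr v hv hv') w hw1 hw2 κ
    · refine ⟨_, _, _, _, _, _, ∅, ∅, _, 0, _, fun _ => False, hM, hU, hh, s1,
        Stp.triv s1.edge_mem, Set.disjoint_empty _, Set.disjoint_empty _, Set.empty_disjoint _, ?_,
        Set.notMem_empty _, ?_, Or.inl (Or.inl rfl), Or.inr ⟨rfl, rfl, ?_⟩, ?_⟩
      · rintro (h3 | h3)
        · exact h1.pa h3
        · exact h1.pb h3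
      · intro hne he
        rw [he] at hne
        exact Set.not_nonempty_empty hne
      · intro a' b' S' h3
        exact hp ⟨a', b', S', h3⟩
      · intro w _ hw
        exact hw.elim
  · have s1 : Stp (delV G h) (U \ {h}) (delV G h) (U \ {h}) q ∅ ∅ (T2 G h) 0 (fun _ => False) :=
      Stp.triv hdel
    by_cases hp : ∃ a' b' S', SEnd G q h p a' b' S'
    · obtain ⟨a', b', S', h2⟩ := hp
      have hqA : q ∉ ({a', b'} : Set V) := by
        rintro (h3 | h3)
        · exact h2.pa h3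
        · exact h2.pb h3
      obtain ⟨o', e', t', hse'⟩ := h2.se2 hM hU hh s1 hqA
        (fun v hv => absurd hv (Set.notMem_empty _)) (fun v hv => absurd hv (Set.notMem_empty _))
      have s2 := hse'.stp
      refine ⟨_, _, _, _, ∅, ∅, _, _, 0, _, fun _ => False, _, hM, hU, hh, s1, s2,
        Set.empty_disjoint _, Set.empty_disjoint _, Set.disjoint_empty _, Set.notMem_empty _, hqA,
        ?_, Or.inr ⟨rfl, rfl, ?_⟩, Or.inl (Or.inl rfl), ?_⟩
      · intro hne
        exact absurd hne Set.not_nonempty_empty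
      · intro a b S h3
        exact hq ⟨a, b, S, h3⟩
      · intro w hw
        exact hw.elim
    · refine ⟨_, _, _, _, ∅, ∅, ∅, ∅, 0, 0, fun _ => False, fun _ => False, hM, hU, hh, s1,
        Stp.triv hdel, Set.empty_disjoint _, Set.empty_disjoint _, Set.empty_disjoint _,
        Set.notMem_empty _, Set.notMem_empty _, ?_, Or.inr ⟨rfl, rfl, ?_⟩, Or.inr ⟨rfl, rfl, ?_⟩,
        ?_⟩
      · intro hne
        exact absurd hne Set.not_nonempty_empty
      · intro a b S h3
        exact hq ⟨a, b, S, h3⟩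
      · intro a b S h3
        exact hp ⟨a, b, S, h3⟩
      · intro w hw
        exact hw.elim

end Pool.Agent.Helper97.SO
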