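import Pool.Agent.Helper97.SO.Ind
import Pool.Agent.Helper97.SO.Pk
import Pool.Agent.Helper97.SO.StubTwo
import Pool.Agent.Helper97.SO.StubDeg
import Pool.Agent.Helper97.SO.StubConn
import Pool.Agent.Helper82.RP.All
import Pool.Agent.Helper94.F2.Main

/-!
# Every handle of a minimal counterexample has an `F2c`; there are no vertices of degree two
-/

set_option autoImplicit false

namespace Pool.Agent.Helper97.SO

open SimpleGraph Pool.Agent.Helper57.TOK Pool.Agent.Helper57.TD Pool.Agent.Helper57.TOP
  Pool.Agent.Helper82.TK Pool.Agent.Helper82.RP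

variable {V : Type*} {G : SimpleGraph V} {U : Set V} {h p q : V}

/-- **Mixed cuts are not needed:** every handle has an `F2c`. -/
theorem hand_f2c [Finite V] (hM : GMin G U) (hU : h ∈ U) (hh : Hand G h p q) :
    ∃ Y κ, F2c G U h p q Y κ := by
  by_contra hcon
  push Not at hcon
  obtain ⟨H1, U1, H2, U2, Kq, Aq, Kp, Ap, σq, σp, Bq, Bp, F⟩ := exists_two hM hU hh
  have hi : Ind2 H2 := F.ind2
  have hp : Pre2 H2 U2 := ⟨fun u v huv => F.s2.edge_mem u v huv, F.deg2, F.conn hi⟩
  have hk : PackR H2 U2 := F.packR hcon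
  have hc : U2.ncard < U.ncard := by
    have h1 := F.s2.card
    have h2 := F.s1.card
    have h3 := Set.ncard_sdiff_singleton_add_one hU (Set.toFinite _)
    omega
  have ht := rep_allR hM hc hp hi hk
  exact hM.bad (HasTOK4s.mono (delV_le G h) (fun _ _ => rfl) (F.s1.lift (F.s2.lift ht)))

/-- **There are no vertices of degree two in a minimal counterexample.** -/
theorem gmin_deg3 [Finite V] (hM : GMin G U) : ∀ y ∈ U, 3 ≤ (G.neighborSet y).ncard := by
  intro y hy
  by_contra hlt
  push Not at hlt
  have h2 := hM.ex.deg2 y hy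
  obtain ⟨p, q, hh⟩ := exists_hand (by omega : (G.neighborSet y).ncard = 2)
  exact Pool.Agent.Helper94.F2.f2c_false hM
    (fun h p q hU hh => hand_f2c hM hU hh) hy hh

end Pool.Agent.Helper97.SO
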