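import Pool.Agent.Helper97.SO.StubBase

/-!
# One suppression step: colourings (StubIdx)
-/

set_option autoImplicit false

namespace Pool.Agent.Helper97.SO

open SimpleGraph Pool.Agent.Helper57.TOK Pool.Agent.Helper57.TD Pool.Agent.Helper57.TOP
  Pool.Agent.Helper82.TK Pool.Agent.Helper75.SEP

variable {V : Type*} {H : SimpleGraph V} {U T : Set V} {q a b : V} {S : Set V} {o e : Prop} {t : V}

private lemma zm_ne (c : ZMod 2) : c + 1 ≠ c := by revert c; decide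

private lemma zm_eq {x y z : ZMod 2} (h1 : x ≠ y) (h2 : x ≠ z) : y = z := by
  revert x y z; decide

private lemma zm_of_ne {x y : ZMod 2} (h1 : x ≠ y) : y = x + 1 := by
  revert x y; decide

private lemma SE.a_notMem (h : SE H U T q a b S o e t) : a ∉ insert q S := by
  rintro (h1 | h1)
  · exact h.qa h1.symm
  · exact h.aT (h.ST h1)

private lemma SE.b_notMem (h : SE H U T q a b S o e t) : b ∉ insert q S := by
  rintro (h1 | h1)
  · exact h.qb h1.symm
  · exact h.bT (h.ST h1)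

/-- The vertices of `S` have a colour, `q` has none. -/
private lemma SE.extA (h : SE H U T q a b S o e t) {w z : V} {κ1 : V → ZMod 2}
    (hk : POff (vG H (insert q S) q a b o e) {w, z} κ1) :
    ∃ κ0 : V → ZMod 2, (∀ v, v ∉ insert q S → κ0 v = κ1 v) ∧ POff H {w, z, q} κ0 := by
  classical
  have haS : a ∉ S := fun h1 => h.a_notMem (Or.inr h1)
  have hbS : b ∉ S := fun h1 => h.b_notMem (Or.inr h1)
  obtain ⟨κ0, hκ0⟩ : ∃ κ0 : V → ZMod 2, κ0 = fun v => if v ∈ S then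
    (if Hand H v q a then κ1 a + 1 else κ1 b + 1) else κ1 v := ⟨_, rfl⟩
  have hout : ∀ v, v ∉ S → κ0 v = κ1 v := fun v hv => by rw [hκ0]; exact if_neg hv
  have key : ∀ s ∈ S, ∀ x, x ≠ q → H.Adj s x → κ0 s ≠ κ0 x := by
    intro s hs x hx hsx
    by_cases h1 : Hand H s q a
    · have h2 : κ0 s = κ1 a + 1 := by
        rw [hκ0]
        show (if s ∈ S then _ else _) = _
        rw [if_pos hs, if_pos h1]
      rcases h1.adj.1 hsx with h3 | h3
      · exact absurd h3 hx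
      · rw [h2, h3, hout a haS]; exact zm_ne _
    · have h2 : κ0 s = κ1 b + 1 := by
        rw [hκ0]
        show (if s ∈ S then _ else _) = _
        rw [if_pos hs, if_neg h1]
      have h4 : Hand H s q b := (h.hand s hs).resolve_left h1
      rcases h4.adj.1 hsx with h3 | h3
      · exact absurd h3 hx
      · rw [h2, h3, hout b hbS]; exact zm_ne _
  refine ⟨κ0, fun v hv => hout v (fun h1 => hv (Or.inr h1)), ?_⟩
  intro u v hu hv huv
  have huq : u ≠ q := fun h1 => hu (Or.inr (Or.inr h1))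
  have hvq : v ≠ q := fun h1 => hv (Or.inr (Or.inr h1))
  by_cases h1 : u ∈ S
  · exact key u h1 v hvq huv
  by_cases h2 : v ∈ S
  · exact (key v h2 u huq huv.symm).symm
  rw [hout u h1, hout v h2]
  refine hk u v ?_ ?_ (Or.inl ⟨huv, ?_, ?_⟩)
  · rintro (h3 | h3)
    · exact hu (Or.inl h3)
    · exact hu (Or.inr (Or.inl h3))
  · rintro (h3 | h3)
    · exact hv (Or.inl h3)
    · exact hv (Or.inr (Or.inl h3))
  · rintro (h3 | h3)
    · exact huq h3
    · exact h1 h3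
  · rintro (h3 | h3)
    · exact hvq h3
    · exact h2 h3

/-- The vertex `q` has the colour `c`. -/
private lemma SE.extB (h : SE H U T q a b S o e t) {w z : V} {κ1 : V → ZMod 2}
    (hk : POff (vG H (insert q S) q a b o e) {w, z} κ1) (c : ZMod 2)
    (ha1 : H.Adj q a → a ≠ w → c ≠ κ1 a) (hb1 : H.Adj q b → b ≠ w → c ≠ κ1 b)
    (ha2 : Ev H S q a → a ≠ w → c = κ1 a) (hb2 : Ev H S q b → b ≠ w → c = κ1 b) :
    ∃ κ0 : V → ZMod 2, (∀ v, v ∉ insert q S → κ0 v = κ1 v) ∧ POff H {w, z} κ0 := by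
  classical
  have haK := h.a_notMem
  have hbK := h.b_notMem
  obtain ⟨κ0, hκ0⟩ : ∃ κ0 : V → ZMod 2, κ0 = fun v => if v = q then c else
    (if v ∈ S then c + 1 else κ1 v) := ⟨_, rfl⟩
  have hout : ∀ v, v ∉ insert q S → κ0 v = κ1 v := fun v hv => by
    rw [hκ0]
    show (if v = q then c else (if v ∈ S then c + 1 else κ1 v)) = κ1 v
    rw [if_neg (fun h1 => hv (Or.inl h1)), if_neg (fun h1 => hv (Or.inr h1))]
  have hq : κ0 q = c := by rw [hκ0]; exact if_pos rfl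
  have hS : ∀ s ∈ S, κ0 s = c + 1 := fun s hs => by
    rw [hκ0]
    show (if s = q then c else (if s ∈ S then c + 1 else κ1 s)) = c + 1
    rw [if_neg (fun h1 : s = q => h.qS (h1 ▸ hs)), if_pos hs]
  have keyS : ∀ s ∈ S, ∀ x, x ≠ w → H.Adj s x → κ0 s ≠ κ0 x := by
    intro s hs x hx hsx
    rw [hS s hs]
    rcases h.hand s hs with h1 | h1
    · rcases h1.adj.1 hsx with h3 | h3
      · rw [h3, hq]; exact zm_ne _
      · rw [h3, hout a haK, ← ha2 ⟨s, hs, h1⟩ (h3 ▸ hx)]; exact zm_ne _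
    · rcases h1.adj.1 hsx with h3 | h3
      · rw [h3, hq]; exact zm_ne _
      · rw [h3, hout b hbK, ← hb2 ⟨s, hs, h1⟩ (h3 ▸ hx)]; exact zm_ne _
  have keyq : ∀ x, x ≠ w → H.Adj q x → κ0 q ≠ κ0 x := by
    intro x hx hqx
    rw [hq]
    rcases h.nbq x hqx with h1 | h1 | h1
    · subst h1
      rw [hout x haK]; exact ha1 hqx hx
    · subst h1
      rw [hout x hbK]; exact hb1 hqx hx
    · rw [hS x h1]; exact (zm_ne c).symm
  have key : ∀ u ∈ insert q S, ∀ x, x ≠ w → H.Adj u x → κ0 u ≠ κ0 x := by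
    rintro u (hu | hu) x hx hux
    · rw [hu] at hux ⊢
      exact keyq x hx hux
    · exact keyS u hu x hx hux
  refine ⟨κ0, hout, ?_⟩
  intro u v hu hv huv
  by_cases h1 : u ∈ insert q S
  · exact key u h1 v (fun h2 => hv (Or.inl h2)) huv
  by_cases h2 : v ∈ insert q S
  · exact (key v h2 u (fun h3 => hu (Or.inl h3)) huv.symm).symm
  rw [hout u h1, hout v h2]
  exact hk u v hu hv (Or.inl ⟨huv, h1, h2⟩)

theorem SE.idx (h : SE H U T q a b S o e t) {w z : V} {κ1 : V → ZMod 2}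
    (hz : z ∉ insert q S) (hz' : z ∉ ({a, b} : Set V)) (hzT : z ∉ T)
    (hk : POff (vG H (insert q S) q a b o e) {w, z} κ1) :
    ∃ κ0 : V → ZMod 2, (∀ v, v ∉ insert q S → κ0 v = κ1 v) ∧
      (POff H {w, z} κ0 ∨ (Bad1 H S T q a b w ∧ POff H {w, z, q} κ0)) := by
  classical
  obtain ⟨κA, hA1, hA2⟩ := h.extA hk
  by_cases hbad : Bad1 H S T q a b w
  · exact ⟨κA, hA1, Or.inr ⟨hbad, hA2⟩⟩
  by_cases hwq : w = q
  · refine ⟨κA, hA1, Or.inl ?_⟩
    intro u v hu hv huv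
    refine hA2 u v ?_ ?_ huv
    · rintro (h3 | h3 | h3)
      · exact hu (Or.inl h3)
      · exact hu (Or.inr h3)
      · exact hu (Or.inl (h3.trans hwq.symm))
    · rintro (h3 | h3 | h3)
      · exact hv (Or.inl h3)
      · exact hv (Or.inr h3)
      · exact hv (Or.inl (h3.trans hwq.symm))
  have haK := h.a_notMem
  have hbK := h.b_notMem
  have hza : a ≠ z := fun h1 => hz' (Or.inl h1.symm)
  have hzb : b ≠ z := fun h1 => hz' (Or.inr h1.symm)
  -- the colour of `q`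
  suffices hc : ∃ c : ZMod 2, (H.Adj q a → a ≠ w → c ≠ κ1 a) ∧ (H.Adj q b → b ≠ w → c ≠ κ1 b) ∧
      (Ev H S q a → a ≠ w → c = κ1 a) ∧ (Ev H S q b → b ≠ w → c = κ1 b) by
    obtain ⟨c, h1, h2, h3, h4⟩ := hc
    obtain ⟨κ0, h5, h6⟩ := h.extB hk c h1 h2 h3 h4
    exact ⟨κ0, h5, Or.inl h6⟩
  by_cases hwa : a = w
  · have hab : b ≠ w := fun h1 => h.ab (hwa.trans h1.symm)
    by_cases h1 : H.Adj q b
    · have h2 : ¬ Ev H S q b := fun h2 => hbad (Or.inl ⟨hwa.symm, h1, h2⟩)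
      exact ⟨κ1 b + 1, fun _ h3 => absurd hwa h3, fun _ _ => zm_ne _,
        fun _ h3 => absurd hwa h3, fun h3 => absurd h3 h2⟩
    · exact ⟨κ1 b, fun _ h3 => absurd hwa h3, fun h3 => absurd h3 h1,
        fun _ h3 => absurd hwa h3, fun _ _ => rfl⟩
  by_cases hwb : b = w
  · by_cases h1 : H.Adj q a
    · have h2 : ¬ Ev H S q a := fun h2 => hbad (Or.inr (Or.inl ⟨hwb.symm, h1, h2⟩))
      exact ⟨κ1 a + 1, fun _ _ => zm_ne _, fun _ h3 => absurd hwb h3,
        fun h3 => absurd h3 h2, fun _ h3 => absurd hwb h3⟩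
    · exact ⟨κ1 a, fun h3 => absurd h3 h1, fun _ h3 => absurd hwb h3,
        fun _ _ => rfl, fun _ h3 => absurd hwb h3⟩
  -- `w` is none of `a`, `b`, `q`
  have hodd : o → κ1 a ≠ κ1 b := by
    intro ho
    refine hk a b ?_ ?_ (Or.inr (Or.inl ⟨ho, h.ab, Or.inl ⟨rfl, rfl⟩⟩))
    · rintro (h3 | h3)
      · exact hwa h3
      · exact hza h3
    · rintro (h3 | h3)
      · exact hwb h3
      · exact hzb h3
  have hmid : ∀ m : V, m ∉ ({w, z} : Set V) → (vG H (insert q S) q a b o e).Adj m a →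
      (vG H (insert q S) q a b o e).Adj m b → κ1 a = κ1 b := by
    intro m hm h1 h2
    refine zm_eq (hk m a hm ?_ h1) (hk m b hm ?_ h2)
    · rintro (h3 | h3)
      · exact hwa h3
      · exact hza h3
    · rintro (h3 | h3)
      · exact hwb h3
      · exact hzb h3
  have heven : (H.Adj q a ∧ H.Adj q b) ∨ (Ev H S q a ∧ Ev H S q b) → κ1 a = κ1 b := by
    intro h1
    rcases h.he' h1 with h2 | ⟨h2, h3, h4⟩
    · refine hmid q ?_ (Or.inr (Or.inr ⟨h2, h.qa, h.qb, Or.inl ⟨rfl, Or.inl rfl⟩⟩))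
        (Or.inr (Or.inr ⟨h2, h.qa, h.qb, Or.inl ⟨rfl, Or.inr rfl⟩⟩))
      rintro (h5 | h5)
      · exact hwq h5.symm
      · exact hz (Or.inl h5.symm)
    · have htK : t ∉ insert q S := by
        rintro (h5 | h5)
        · exact h.qT (h5 ▸ h3)
        · exact h4 h5
      refine hmid t ?_ (Or.inl ⟨h2.hp, htK, haK⟩) (Or.inl ⟨h2.hq, htK, hbK⟩)
      rintro (h5 | h5)
      · exact hbad (Or.inr (Or.inr ⟨h5 ▸ h3, h5 ▸ h2⟩))
      · exact hzT (h5 ▸ h3)
  have ho1 : H.Adj q a → Ev H S q b → κ1 a ≠ κ1 b := fun h1 h2 => hodd (h.ho.2 (Or.inl ⟨h1, h2⟩))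
  have ho2 : Ev H S q a → H.Adj q b → κ1 a ≠ κ1 b := fun h1 h2 => hodd (h.ho.2 (Or.inr ⟨h1, h2⟩))
  have he1 : H.Adj q a → H.Adj q b → κ1 a = κ1 b := fun h1 h2 => heven (Or.inl ⟨h1, h2⟩)
  have he2 : Ev H S q a → Ev H S q b → κ1 a = κ1 b := fun h1 h2 => heven (Or.inr ⟨h1, h2⟩)
  by_cases h1 : H.Adj q a
  · have h2 : ¬ Ev H S q a := by
      intro h2
      rcases h.lb with h3 | h3
      · exact ho2 h2 h3 (he1 h1 h3)
      · exact ho1 h1 h3 (he2 h2 h3)
    refine ⟨κ1 a + 1, fun _ _ => zm_ne _, fun h3 _ => ?_, fun h3 => absurd h3 h2, fun h3 _ => ?_⟩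
    · rw [he1 h1 h3]; exact zm_ne _
    · exact (zm_of_ne (ho1 h1 h3)).symm
  · have h2 : Ev H S q a := h.la.resolve_left h1
    refine ⟨κ1 a, fun h3 => absurd h3 h1, fun h3 _ => ho2 h2 h3, fun _ _ => rfl, fun h3 _ => ?_⟩
    exact he2 h2 h3

end Pool.Agent.Helper97.SO
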