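import Pool.Agent.Helper97.SO.StubBase
import Pool.Agent.Helper1.SEP.LiftTwo

/-!
# One suppression step: TOK4s lift (StubLift)
-/

set_option autoImplicit false

namespace Pool.Agent.Helper97.SO

open SimpleGraph Pool.Agent.Helper57.TOK Pool.Agent.Helper57.TD Pool.Agent.Helper57.TOP
  Pool.Agent.Helper82.TK Pool.Agent.Helper75.SEP
open Pool.Agent.Helper1.SEP (inG lift_odd lift_even lift_phi inG_le supp_inG)

variable {V : Type*} {H : SimpleGraph V} {U T : Set V} {q a b : V} {S : Set V} {o e : Prop} {t : V}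

/-- Path of length two. -/
lemma path2 {x y z : V} (h1 : H.Adj x y) (h2 : H.Adj y z) (hxz : x ≠ z) :
    ∃ R : H.Walk x z, R.IsPath ∧ wt (fun _ => (1 : ZMod 2)) R = 0 ∧
      ∀ w ∈ R.support, w = x ∨ w = y ∨ w = z := by
  refine ⟨Walk.cons h1 (Walk.cons h2 Walk.nil), ?_, ?_, ?_⟩
  · rw [Walk.cons_isPath_iff, Walk.cons_isPath_iff]
    refine ⟨⟨Walk.IsPath.nil, by simpa using h2.ne⟩, ?_⟩
    simp only [Walk.support_cons, Walk.support_nil, List.mem_cons, List.not_mem_nil, or_false,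
      not_or]
    exact ⟨h1.ne, hxz⟩
  · rw [wt_cons, wt_cons, wt_nil]; decide
  · intro w hw
    simpa only [Walk.support_cons, Walk.support_nil, List.mem_cons, List.not_mem_nil,
      or_false] using hw

/-- Prolong a path by one edge. -/
lemma path_cons {x y z : V} {c : Sym2 V → ZMod 2} (h1 : H.Adj x y) {R : H.Walk y z}
    (hR : R.IsPath) (hx : x ∉ R.support) {k : ZMod 2} (hw : wt c R = k) (hc : c s(x, y) = 1) :
    ∃ R' : H.Walk x z, R'.IsPath ∧ wt c R' = 1 + k ∧ ∀ w ∈ R'.support, w = x ∨ w ∈ R.support := by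
  refine ⟨Walk.cons h1 R, ?_, ?_, ?_⟩
  · rw [Walk.cons_isPath_iff]; exact ⟨hR, hx⟩
  · rw [wt_cons, hw, hc]
  · intro w hw'
    rw [Walk.support_cons, List.mem_cons] at hw'
    exact hw'

/-- Path of length three. -/
lemma path3 {x y z w : V} (h1 : H.Adj x y) (h2 : H.Adj y z) (h3 : H.Adj z w) (hxz : x ≠ z)
    (hxw : x ≠ w) (hyw : y ≠ w) :
    ∃ R : H.Walk x w, R.IsPath ∧ wt (fun _ => (1 : ZMod 2)) R = 1 ∧
      ∀ v ∈ R.support, v = x ∨ v = y ∨ v = z ∨ v = w := by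
  obtain ⟨R, r1, r2, r3⟩ := path2 h2 h3 hyw
  obtain ⟨R', s1, s2, s3⟩ := path_cons h1 r1 (by
    intro hh
    rcases r3 x hh with h4 | h4 | h4
    · exact h1.ne h4
    · exact hxz h4
    · exact hxw h4) r2 rfl
  refine ⟨R', s1, by rw [s2, add_zero], ?_⟩
  intro v hv
  rcases s3 v hv with h4 | h4
  · exact Or.inl h4
  · exact Or.inr (r3 v h4)

/-- Path of length four. -/
lemma path4 {x y z w v : V} (h1 : H.Adj x y) (h2 : H.Adj y z) (h3 : H.Adj z w) (h4 : H.Adj w v)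
    (hxz : x ≠ z) (hxw : x ≠ w) (hxv : x ≠ v) (hyw : y ≠ w) (hyv : y ≠ v) (hzv : z ≠ v) :
    ∃ R : H.Walk x v, R.IsPath ∧ wt (fun _ => (1 : ZMod 2)) R = 0 ∧
      ∀ u ∈ R.support, u = x ∨ u = y ∨ u = z ∨ u = w ∨ u = v := by
  obtain ⟨R, r1, r2, r3⟩ := path3 h2 h3 h4 hyw hyv hzv
  obtain ⟨R', s1, s2, s3⟩ := path_cons h1 r1 (by
    intro hh
    rcases r3 x hh with h5 | h5 | h5 | h5
    · exact h1.ne h5
    · exact hxz h5
    · exact hxw h5
    · exact hxv h5) r2 rfl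
  refine ⟨R', s1, by rw [s2]; decide, ?_⟩
  intro u hu
  rcases s3 u hu with h5 | h5
  · exact Or.inl h5
  · exact Or.inr (r3 u h5)

lemma SE.odd_path (h : SE H U T q a b S o e t) (ho : o) :
    ∃ R : H.Walk a b, R.IsPath ∧ wt (fun _ => (1 : ZMod 2)) R = 1 ∧
      ∀ v ∈ R.support, v = a ∨ v = b ∨ v ∈ insert q S := by
  rcases h.ho.1 ho with ⟨h1, s, hs, h2⟩ | ⟨⟨s, hs, h1⟩, h2⟩
  · have has : a ≠ s := fun hh => h.aT (hh ▸ h.ST hs)
    obtain ⟨R, r1, r2, r3⟩ := path3 h1.symm h2.hp.symm h2.hq has h.ab h.qb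
    refine ⟨R, r1, r2, fun v hv => ?_⟩
    rcases r3 v hv with h3 | h3 | h3 | h3
    · exact Or.inl h3
    · exact Or.inr (Or.inr (Or.inl h3))
    · exact Or.inr (Or.inr (Or.inr (h3 ▸ hs)))
    · exact Or.inr (Or.inl h3)
  · have hbs : s ≠ b := fun hh => h.bT (hh ▸ h.ST hs)
    obtain ⟨R, r1, r2, r3⟩ := path3 h1.hq.symm h1.hp h2 h.qa.symm h.ab hbs
    refine ⟨R, r1, r2, fun v hv => ?_⟩
    rcases r3 v hv with h3 | h3 | h3 | h3
    · exact Or.inl h3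
    · exact Or.inr (Or.inr (Or.inr (h3 ▸ hs)))
    · exact Or.inr (Or.inr (Or.inl h3))
    · exact Or.inr (Or.inl h3)

lemma SE.even_path (h : SE H U T q a b S o e t) (he : e) :
    ∃ R : H.Walk a b, R.IsPath ∧ wt (fun _ => (1 : ZMod 2)) R = 0 ∧
      ∀ v ∈ R.support, v = a ∨ v = b ∨ v ∈ insert q S := by
  rcases h.he he with ⟨h1, h2⟩ | ⟨⟨s, hs, h1⟩, s', hs', h2⟩
  · obtain ⟨R, r1, r2, r3⟩ := path2 h1.symm h2 h.ab
    refine ⟨R, r1, r2, fun v hv => ?_⟩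
    rcases r3 v hv with h3 | h3 | h3
    · exact Or.inl h3
    · exact Or.inr (Or.inr (Or.inl h3))
    · exact Or.inr (Or.inl h3)
  · have has' : a ≠ s' := fun hh => h.aT (hh ▸ h.ST hs')
    have hbs : s ≠ b := fun hh => h.bT (hh ▸ h.ST hs)
    have hss : s ≠ s' := by
      rintro rfl
      rcases h2.adj.1 h1.hq with h3 | h3
      · exact h.qa h3.symm
      · exact h.ab h3
    obtain ⟨R, r1, r2, r3⟩ := path4 h1.hq.symm h1.hp h2.hp.symm h2.hq h.qa.symm has' h.ab hss hbs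
      h.qb
    refine ⟨R, r1, r2, fun v hv => ?_⟩
    rcases r3 v hv with h3 | h3 | h3 | h3 | h3
    · exact Or.inl h3
    · exact Or.inr (Or.inr (Or.inr (h3 ▸ hs)))
    · exact Or.inr (Or.inr (Or.inl h3))
    · exact Or.inr (Or.inr (Or.inr (h3 ▸ hs')))
    · exact Or.inr (Or.inl h3)

theorem SE.lift [Finite V] (h : SE H U T q a b S o e t)
    (hT : HasTOK4s (vG H (insert q S) q a b o e) (One V)) : HasTOK4s H (One V) := by
  classical
  have haK : a ∈ (insert q S)ᶜ := by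
    rintro (h1 | h1)
    · exact h.qa h1.symm
    · exact h.aT (h.ST h1)
  have hbK : b ∈ (insert q S)ᶜ := by
    rintro (h1 | h1)
    · exact h.qb h1.symm
    · exact h.bT (h.ST h1)
  have hqK : q ∉ (insert q S)ᶜ := fun hh => hh (Or.inl rfl)
  have hle : inG H (insert q S)ᶜ ≤ H := inG_le
  have hsup : ∀ x ∈ supp (inG H (insert q S)ᶜ), x ∈ (insert q S)ᶜ := supp_inG
  have hout : ∀ {R : H.Walk a b}, (∀ v ∈ R.support, v = a ∨ v = b ∨ v ∈ insert q S) →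
      ∀ x ∈ R.support, x ∈ (insert q S)ᶜ → x = a ∨ x = b := by
    intro R hR x hx hxK
    rcases hR x hx with h1 | h1 | h1
    · exact Or.inl h1
    · exact Or.inr h1
    · exact absurd h1 hxK
  by_cases ho : o
  · obtain ⟨R1, r1, r2, r3⟩ := h.odd_path ho
    by_cases he : e
    · obtain ⟨R0, s1, s2, s3⟩ := h.even_path he
      refine lift_phi hle hsup hqK haK hbK h.ab ⟨R1, r1, r2, hout r3⟩ ⟨R0, s1, s2, hout s3⟩
        (HasTOK4s.mono ?_ (fun _ _ => rfl) hT)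
      intro x y hxy
      rw [SimpleGraph.sup_adj, SimpleGraph.fromEdgeSet_adj]
      simp only [Set.mem_insert_iff, Set.mem_singleton_iff]
      rcases hxy with ⟨h1, h2, h3⟩ | ⟨-, -, ⟨h1, h2⟩ | ⟨h1, h2⟩⟩ | ⟨-, -, -, ⟨h1, h2 | h2⟩ | ⟨h1, h2 | h2⟩⟩
      · exact Or.inl ⟨h1, h2, h3⟩
      · refine Or.inr ⟨Or.inl (by rw [h1, h2]), ?_⟩
        rw [h1, h2]; exact h.ab
      · refine Or.inr ⟨Or.inl (by rw [h1, h2, Sym2.eq_swap]), ?_⟩
        rw [h1, h2]; exact h.ab.symm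
      · refine Or.inr ⟨Or.inr (Or.inl (by rw [h1, h2])), ?_⟩
        rw [h1, h2]; exact h.qa
      · refine Or.inr ⟨Or.inr (Or.inr (by rw [h1, h2])), ?_⟩
        rw [h1, h2]; exact h.qb
      · refine Or.inr ⟨Or.inr (Or.inl (by rw [h1, h2, Sym2.eq_swap])), ?_⟩
        rw [h1, h2]; exact h.qa.symm
      · refine Or.inr ⟨Or.inr (Or.inr (by rw [h1, h2, Sym2.eq_swap])), ?_⟩
        rw [h1, h2]; exact h.qb.symm
    · refine lift_odd hle hsup haK hbK R1 r1 r2 (hout r3) (HasTOK4s.mono ?_ (fun _ _ => rfl) hT)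
      intro x y hxy
      rw [SimpleGraph.sup_adj, SimpleGraph.fromEdgeSet_adj]
      simp only [Set.mem_singleton_iff]
      rcases hxy with ⟨h1, h2, h3⟩ | ⟨-, -, ⟨h1, h2⟩ | ⟨h1, h2⟩⟩ | ⟨h1, -⟩
      · exact Or.inl ⟨h1, h2, h3⟩
      · refine Or.inr ⟨by rw [h1, h2], ?_⟩
        rw [h1, h2]; exact h.ab
      · refine Or.inr ⟨by rw [h1, h2, Sym2.eq_swap], ?_⟩
        rw [h1, h2]; exact h.ab.symm
      · exact absurd h1 he
  · by_cases he : e
    · obtain ⟨R0, s1, s2, s3⟩ := h.even_path he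
      have hsup' : ∀ x ∈ supp (inG H (insert q S)ᶜ), x ∈ (insert q S)ᶜ ∧ x ≠ q := by
        intro x hx
        refine ⟨hsup x hx, ?_⟩
        rintro rfl
        exact hqK (hsup x hx)
      refine lift_even hle hsup' haK hbK h.ab
        h.qa h.qb R0 s1 s2 (hout s3) (HasTOK4s.mono ?_ (fun _ _ => rfl) hT)
      intro x y hxy
      rw [SimpleGraph.sup_adj, SimpleGraph.fromEdgeSet_adj]
      simp only [Set.mem_insert_iff, Set.mem_singleton_iff]
      rcases hxy with ⟨h1, h2, h3⟩ | ⟨h1, -⟩ | ⟨-, -, -, ⟨h1, h2 | h2⟩ | ⟨h1, h2 | h2⟩⟩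
      · exact Or.inl ⟨h1, h2, h3⟩
      · exact absurd h1 ho
      · refine Or.inr ⟨Or.inl (by rw [h1, h2]), ?_⟩
        rw [h1, h2]; exact h.qa
      · refine Or.inr ⟨Or.inr (by rw [h1, h2]), ?_⟩
        rw [h1, h2]; exact h.qb
      · refine Or.inr ⟨Or.inl (by rw [h1, h2, Sym2.eq_swap]), ?_⟩
        rw [h1, h2]; exact h.qa.symm
      · refine Or.inr ⟨Or.inr (by rw [h1, h2, Sym2.eq_swap]), ?_⟩
        rw [h1, h2]; exact h.qb.symm
    · refine HasTOK4s.mono ?_ (fun _ _ => rfl) hT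
      intro x y hxy
      rcases hxy with ⟨h1, -⟩ | ⟨h1, -⟩ | ⟨h1, -⟩
      · exact h1
      · exact absurd h1 ho
      · exact absurd h1 he

end Pool.Agent.Helper97.SO
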