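import Pool.Agent.Helper97.SO.StubDense
import Pool.Agent.Helper97.SO.StubIdx
import Pool.Agent.Helper97.SO.StubLift

/-!
# One suppression step: assembly
-/

set_option autoImplicit false

namespace Pool.Agent.Helper97.SO

open SimpleGraph Pool.Agent.Helper57.TOK Pool.Agent.Helper57.TD Pool.Agent.Helper57.TOP
  Pool.Agent.Helper82.TK Pool.Agent.Helper75.SEP

variable {V : Type*} {H : SimpleGraph V} {U T : Set V} {q a b : V} {S : Set V} {o e : Prop} {t : V}

lemma sg_nonneg (H : SimpleGraph V) (q a b : V) (o : Prop) : 0 ≤ sg H q a b o := by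
  unfold sg
  have h1 := rr_cases H q a
  have h2 := rr_cases H q b
  split_ifs <;> omega

/-- **One suppression step.** -/
theorem SE.stp [Finite V] (h : SE H U T q a b S o e t) :
    Stp H U (vG H (insert q S) q a b o e) (vU U (insert q S) q e) q (insert q S) {a, b} T
      (sg H q a b o) (Bad1 H S T q a b) where
  KU := h.KU
  AU := h.AU
  AK := h.AK
  AT := by
    rw [Set.disjoint_left]
    rintro x (rfl | hx)
    · exact h.aT
    · rw [Set.mem_singleton_iff] at hx
      rw [hx]; exact h.bT
  A2 := (Set.ncard_pair h.ab).le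
  KT := by
    rintro v (rfl | hv)
    · exact Or.inl rfl
    · exact Or.inr (h.ST hv)
  qA := by
    rintro (h1 | h1)
    · exact h.qa h1
    · exact h.qb h1
  out := by
    intro v hv
    constructor
    · rintro (h1 | h1)
      · exact h1.1
      · exact absurd (Or.inl h1.2) hv
    · exact fun h1 => Or.inl ⟨h1, hv⟩
  inn := by
    intro v hv hvU
    rcases hvU with h1 | ⟨he, h1⟩
    · exact absurd hv h1.2
    · refine ⟨h1, h.nbq1 he, Set.ncard_pair h.ab, ?_⟩
      intro t' ht' htK hnb
      exact h.het he t' ht' (fun h2 => htK (Or.inr h2)) ⟨h.ab, hnb⟩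
  card := by
    apply Set.ncard_le_ncard _ (Set.toFinite _)
    rintro v (h1 | h1)
    · exact h1.1
    · exact h.KU (Or.inl h1.2)
  sig := sg_nonneg H q a b o
  edge_mem := fun _ _ huv => h.edge1 huv
  nbr := fun _ hv hv' => h.nbr hv hv'
  sub := fun _ _ hu hv huv => Or.inl ⟨huv, hu, hv⟩
  nbK := fun _ hu _ huv => h.nbK hu huv
  att := by
    rintro v (rfl | hv)
    · rcases h.la with h1 | ⟨s, hs, h1⟩
      · exact ⟨q, Or.inl rfl, h1⟩
      · exact ⟨s, Or.inr hs, h1.hq⟩
    · rw [Set.mem_singleton_iff] at hv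
      subst hv
      rcases h.lb with h1 | ⟨s, hs, h1⟩
      · exact ⟨q, Or.inl rfl, h1⟩
      · exact ⟨s, Or.inr hs, h1.hq⟩
  lk := fun _ hx => h.lk hx
  weight := h.weight
  lift := h.lift
  idx := fun _ _ _ hz hz' hzT hk => h.idx hz hz' hzT hk
  dense := fun _ hY _ hb hn => h.dense hY hb hn
  sep := fun _ _ _ hs hN => h.sep hs hN

end Pool.Agent.Helper97.SO
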