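import Pool.Agent.Helper97.SO.Defs

/-!
# One suppression step: basic facts (StubBase)
-/

set_option autoImplicit false

namespace Pool.Agent.Helper97.SO

open SimpleGraph Pool.Agent.Helper57.TOK Pool.Agent.Helper57.TD Pool.Agent.Helper57.TOP
  Pool.Agent.Helper82.TK Pool.Agent.Helper75.SEP

variable {V : Type*} {H : SimpleGraph V} {U T : Set V} {q a b : V} {S : Set V} {o e : Prop} {t : V}

/-- Edges at `K = insert q S`. -/
theorem SE.nbK (h : SE H U T q a b S o e t) {u v : V} (hu : u ∈ insert q S) (huv : H.Adj u v) :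
    v ∈ insert q S ∨ v ∈ ({a, b} : Set V) := by
  rcases hu with rfl | hu
  · rcases h.nbq v huv with h1 | h1 | h1
    · exact Or.inr (Or.inl h1)
    · exact Or.inr (Or.inr h1)
    · exact Or.inl (Or.inr h1)
  · rcases h.hand u hu with h1 | h1
    · rcases h1.adj.1 huv with h2 | h2
      · exact Or.inl (Or.inl h2)
      · exact Or.inr (Or.inl h2)
    · rcases h1.adj.1 huv with h2 | h2
      · exact Or.inl (Or.inl h2)
      · exact Or.inr (Or.inr h2)

theorem SE.KU (h : SE H U T q a b S o e t) : insert q S ⊆ U := by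
  rintro u (rfl | hu)
  · rcases h.la with h1 | ⟨s, hs, h1⟩
    · exact h.edge_mem _ _ h1
    · exact h.edge_mem _ _ h1.hp.symm
  · rcases h.hand u hu with h1 | h1
    · exact h.edge_mem _ _ h1.hp
    · exact h.edge_mem _ _ h1.hp

theorem SE.AU (h : SE H U T q a b S o e t) : ({a, b} : Set V) ⊆ U := by
  rintro u (rfl | hu)
  · rcases h.la with h1 | ⟨s, hs, h1⟩
    · exact h.edge_mem _ _ h1.symm
    · exact h.edge_mem _ _ h1.hq.symm
  · rw [Set.mem_singleton_iff] at hu
    subst hu
    rcases h.lb with h1 | ⟨s, hs, h1⟩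
    · exact h.edge_mem _ _ h1.symm
    · exact h.edge_mem _ _ h1.hq.symm

theorem SE.AK (h : SE H U T q a b S o e t) : Disjoint ({a, b} : Set V) (insert q S) := by
  rw [Set.disjoint_left]
  rintro u (rfl | hu) hK
  · rcases hK with h1 | h1
    · exact h.qa h1.symm
    · exact h.aT (h.ST h1)
  · rw [Set.mem_singleton_iff] at hu
    subst hu
    rcases hK with h1 | h1
    · exact h.qb h1.symm
    · exact h.bT (h.ST h1)

theorem SE.nbr (h : SE H U T q a b S o e t) {v : V} (hv : v ∉ insert q S)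
    (hv' : v ∉ ({a, b} : Set V)) :
    (vG H (insert q S) q a b o e).neighborSet v = H.neighborSet v := by
  have hva : v ≠ a := fun h1 => hv' (Or.inl h1)
  have hvb : v ≠ b := fun h1 => hv' (Or.inr h1)
  have hvq : v ≠ q := fun h1 => hv (Or.inl h1)
  ext x
  rw [SimpleGraph.mem_neighborSet, SimpleGraph.mem_neighborSet, vG_adj]
  constructor
  · rintro (h1 | ⟨-, -, h1⟩ | ⟨-, -, -, h1⟩)
    · exact h1.1
    · rcases h1 with h1 | h1
      · exact absurd h1.1 hva
      · exact absurd h1.1 hvb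
    · rcases h1 with h1 | ⟨-, h1 | h1⟩
      · exact absurd h1.1 hvq
      · exact absurd h1 hva
      · exact absurd h1 hvb
  · intro h1
    refine Or.inl ⟨h1, hv, fun hx => ?_⟩
    rcases h.nbK hx h1.symm with h2 | h2
    · exact hv h2
    · exact hv' h2

theorem SE.nbq1 (h : SE H U T q a b S o e t) (he : e) :
    (vG H (insert q S) q a b o e).neighborSet q = {a, b} := by
  ext x
  rw [SimpleGraph.mem_neighborSet, vG_adj]
  constructor
  · rintro (h1 | ⟨-, -, h1⟩ | ⟨-, -, -, h1⟩)
    · exact absurd (Or.inl rfl) h1.2.1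
    · rcases h1 with h1 | h1
      · exact absurd h1.1 h.qa
      · exact absurd h1.1 h.qb
    · rcases h1 with h1 | ⟨-, h1 | h1⟩
      · exact h1.2
      · exact absurd h1 h.qa
      · exact absurd h1 h.qb
  · intro h1
    exact Or.inr (Or.inr ⟨he, h.qa, h.qb, Or.inl ⟨rfl, h1⟩⟩)

theorem SE.edge1 (h : SE H U T q a b S o e t) {u v : V}
    (huv : (vG H (insert q S) q a b o e).Adj u v) : u ∈ vU U (insert q S) q e := by
  have hA : ∀ x ∈ ({a, b} : Set V), x ∈ vU U (insert q S) q e := fun x hx =>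
    Or.inl ⟨h.AU hx, (Set.disjoint_left.1 h.AK) hx⟩
  rw [vG_adj] at huv
  rcases huv with h1 | ⟨-, -, h1⟩ | ⟨he, -, -, h1⟩
  · exact Or.inl ⟨h.edge_mem _ _ h1.1, h1.2.1⟩
  · rcases h1 with h1 | h1
    · exact hA u (Or.inl h1.1)
    · exact hA u (Or.inr h1.1)
  · rcases h1 with h1 | ⟨-, h1⟩
    · exact Or.inr ⟨he, h1.1⟩
    · exact hA u h1

theorem SE.lk (h : SE H U T q a b S o e t) {x : V} (hx : x ∈ ({a, b} : Set V)) :
    ∃ y ∈ ({a, b} : Set V), y ≠ x ∧ ((vG H (insert q S) q a b o e).Adj x y ∨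
      ∃ m, m ∈ vU U (insert q S) q e ∧ (m ∈ T ∨ m = q) ∧
        (vG H (insert q S) q a b o e).neighborSet m = {x, y}) := by
  have key : (vG H (insert q S) q a b o e).Adj a b ∨
      ∃ m, m ∈ vU U (insert q S) q e ∧ (m ∈ T ∨ m = q) ∧
        (vG H (insert q S) q a b o e).neighborSet m = {a, b} := by
    by_cases ho : o
    · left
      rw [vG_adj]
      exact Or.inr (Or.inl ⟨ho, h.ab, Or.inl ⟨rfl, rfl⟩⟩)
    · right
      have h1 : (H.Adj q a ∧ H.Adj q b) ∨ (Ev H S q a ∧ Ev H S q b) := by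
        rw [h.ho] at ho
        push Not at ho
        rcases h.la with h1 | h1
        · rcases h.lb with h2 | h2
          · exact Or.inl ⟨h1, h2⟩
          · exact absurd h2 (ho.1 h1)
        · rcases h.lb with h2 | h2
          · exact absurd h2 (ho.2 h1)
          · exact Or.inr ⟨h1, h2⟩
      rcases h.he' h1 with h2 | ⟨h2, h3, h4⟩
      · exact ⟨q, Or.inr ⟨h2, rfl⟩, Or.inr rfl, h.nbq1 h2⟩
      · have htK : t ∉ insert q S := by
          rintro (h5 | h5)
          · exact h.qT (h5 ▸ h3)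
          · exact h4 h5
        have htA : t ∉ ({a, b} : Set V) := by
          rintro (h5 | h5)
          · exact h.aT (h5 ▸ h3)
          · rw [Set.mem_singleton_iff] at h5
            exact h.bT (h5 ▸ h3)
        exact ⟨t, Or.inl ⟨h.edge_mem _ _ h2.hp, htK⟩, Or.inl h3, by rw [h.nbr htK htA, h2.nb]⟩
  rcases hx with rfl | hx
  · exact ⟨b, Or.inr rfl, h.ab.symm, key⟩
  · rw [Set.mem_singleton_iff] at hx
    subst hx
    refine ⟨a, Or.inl rfl, h.ab, ?_⟩
    rcases key with h1 | ⟨m, h1, h2, h3⟩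
    · exact Or.inl h1.symm
    · exact Or.inr ⟨m, h1, h2, by rw [h3, Set.pair_comm]⟩

theorem SE.sep (h : SE H U T q a b S o e t) {Y N R : Set V}
    (hs : Sepn (vG H (insert q S) q a b o e) (vU U (insert q S) q e) Y N R)
    (hN : ∀ n ∈ N, n ∉ insert q S ∧ n ∉ T) :
    ∃ Y0 R0, Sepn H U Y0 N R0 ∧ (∀ v, v ∉ insert q S → (v ∈ Y0 ↔ v ∈ Y)) ∧
      (∀ v, v ∉ insert q S → (v ∈ R0 ↔ v ∈ R)) := by
  classical
  have hYR := Set.disjoint_left.1 hs.YR
  have hYN := Set.disjoint_left.1 hs.YN
  have hNR := Set.disjoint_left.1 hs.NR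
  -- membership
  have hout : ∀ v, v ∉ insert q S → v ∈ vU U (insert q S) q e → v ∈ U := by
    rintro v hv (h1 | ⟨-, h1⟩)
    · exact h1.1
    · exact absurd (Or.inl h1) hv
  have hin : ∀ v, v ∉ insert q S → v ∈ U → v ∈ vU U (insert q S) q e := fun v hv hU =>
    Or.inl ⟨hU, hv⟩
  have hadj : ∀ u v, u ∉ insert q S → v ∉ insert q S → H.Adj u v →
      (vG H (insert q S) q a b o e).Adj u v := fun u v hu hv huv => Or.inl ⟨huv, hu, hv⟩
  have hNU : N ⊆ U := fun n hn => hout n (hN n hn).1 (hs.NU hn)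
  -- the link
  have hlink : ∀ x ∈ ({a, b} : Set V), x ∈ Y → ∀ z ∈ ({a, b} : Set V), z ∉ R := by
    intro x hx hxY z hz hzR
    obtain ⟨y, hy, hyx, hl⟩ := h.lk hx
    have hzx : z ≠ x := fun h1 => hYR hxY (h1 ▸ hzR)
    have hzy : z = y := by
      rcases (hx : x = a ∨ x = b) with hx | hx <;> rcases (hy : y = a ∨ y = b) with hy | hy <;>
        rcases (hz : z = a ∨ z = b) with hz | hz <;>
        first
        | exact absurd (hy.trans hx.symm) hyx
        | exact absurd (hz.trans hx.symm) hzx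
        | exact hz.trans hy.symm
    subst hzy
    rcases hl with h1 | ⟨m, h1, h2, h3⟩
    · exact hs.no _ hxY _ hzR h1
    · have hmx : (vG H (insert q S) q a b o e).Adj m x := by
        rw [← SimpleGraph.mem_neighborSet, h3]; exact Or.inl rfl
      have hmz : (vG H (insert q S) q a b o e).Adj m z := by
        rw [← SimpleGraph.mem_neighborSet, h3]; exact Or.inr rfl
      rcases hs.cov m h1 with h4 | h4 | h4
      · exact hs.no _ h4 _ hzR hmz
      · rcases h2 with h2 | h2
        · exact (hN m h4).2 h2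
        · exact (hN m h4).1 (Or.inl h2)
      · exact hs.no _ hxY _ h4 hmx.symm
  by_cases hc : ∃ x ∈ ({a, b} : Set V), x ∈ Y
  · obtain ⟨x, hx, hxY⟩ := hc
    refine ⟨Y ∪ insert q S, R \ insert q S, ⟨?_, hNU, ?_, ?_, ?_, ?_, ?_, ?_⟩, ?_, ?_⟩
    · rintro v (hv | hv)
      · by_cases hK : v ∈ insert q S
        · exact h.KU hK
        · exact hout v hK (hs.YU hv)
      · exact h.KU hv
    · rintro v ⟨hv, hK⟩
      exact hout v hK (hs.RU hv)
    · intro v hv
      by_cases hK : v ∈ insert q S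
      · exact Or.inl (Or.inr hK)
      · rcases hs.cov v (hin v hK hv) with h1 | h1 | h1
        · exact Or.inl (Or.inl h1)
        · exact Or.inr (Or.inl h1)
        · exact Or.inr (Or.inr ⟨h1, hK⟩)
    · rw [Set.disjoint_left]
      rintro v (hv | hv) hvN
      · exact hYN hv hvN
      · exact (hN v hvN).1 hv
    · rw [Set.disjoint_left]
      rintro v (hv | hv) hvR
      · exact hYR hv hvR.1
      · exact hvR.2 hv
    · rw [Set.disjoint_left]
      rintro v hvN hvR
      exact hNR hvN hvR.1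
    · rintro u hu v ⟨hvR, hvK⟩ huv
      by_cases hK : u ∈ insert q S
      · rcases h.nbK hK huv with h1 | h1
        · exact hvK h1
        · exact hlink x hx hxY v h1 hvR
      · rcases hu with hu | hu
        · exact hs.no u hu v hvR (hadj u v hK hvK huv)
        · exact hK hu
    · intro v hv
      exact ⟨fun h1 => h1.resolve_right hv, Or.inl⟩
    · intro v hv
      exact ⟨fun h1 => h1.1, fun h1 => ⟨h1, hv⟩⟩
  · push Not at hc
    refine ⟨Y \ insert q S, R ∪ insert q S, ⟨?_, hNU, ?_, ?_, ?_, ?_, ?_, ?_⟩, ?_, ?_⟩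
    · rintro v ⟨hv, hK⟩
      exact hout v hK (hs.YU hv)
    · rintro v (hv | hv)
      · by_cases hK : v ∈ insert q S
        · exact h.KU hK
        · exact hout v hK (hs.RU hv)
      · exact h.KU hv
    · intro v hv
      by_cases hK : v ∈ insert q S
      · exact Or.inr (Or.inr (Or.inr hK))
      · rcases hs.cov v (hin v hK hv) with h1 | h1 | h1
        · exact Or.inl ⟨h1, hK⟩
        · exact Or.inr (Or.inl h1)
        · exact Or.inr (Or.inr (Or.inl h1))
    · rw [Set.disjoint_left]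
      rintro v hv hvN
      exact hYN hv.1 hvN
    · rw [Set.disjoint_left]
      rintro v hv (hvR | hvR)
      · exact hYR hv.1 hvR
      · exact hv.2 hvR
    · rw [Set.disjoint_left]
      rintro v hvN (hvR | hvR)
      · exact hNR hvN hvR
      · exact (hN v hvN).1 hvR
    · rintro u ⟨huY, huK⟩ v hv huv
      by_cases hK : v ∈ insert q S
      · rcases h.nbK hK huv.symm with h1 | h1
        · exact huK h1
        · exact hc u h1 huY
      · rcases hv with hv | hv
        · exact hs.no u huY v hv (hadj u v huK hK huv)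
        · exact hK hv
    · intro v hv
      exact ⟨fun h1 => h1.1, fun h1 => ⟨h1, hv⟩⟩
    · intro v hv
      exact ⟨fun h1 => h1.resolve_right hv, Or.inl⟩

end Pool.Agent.Helper97.SO
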