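import Pool.Agent.Helper97.SO.StubBase
import Pool.Agent.Helper95.PHI.Count

/-!
# One suppression step: edge counts (StubCount)
-/

set_option autoImplicit false

namespace Pool.Agent.Helper97.SO

open SimpleGraph Pool.Agent.Helper57.TOK Pool.Agent.Helper57.TD Pool.Agent.Helper57.TOP
  Pool.Agent.Helper82.TK Pool.Agent.Helper75.SEP

variable {V : Type*} {H : SimpleGraph V} {U T : Set V} {q a b : V} {S : Set V} {o e : Prop} {t : V}

/-- The edges of `H` off `K` which meet `Y`. -/
private def EO (H : SimpleGraph V) (K Y : Set V) : Set (Sym2 V) :=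
  {x | x ∈ EAt H (Y \ K) ∧ ∀ k ∈ K, k ∉ x}

private lemma mem_EO {K Y : Set V} {u v : V} :
    s(u, v) ∈ EO H K Y ↔ H.Adj u v ∧ u ∉ K ∧ v ∉ K ∧ (u ∈ Y ∨ v ∈ Y) := by
  unfold EO
  simp only [Set.mem_ofPred_eq, mem_EAt, Sym2.mem_iff, Set.mem_sdiff]
  constructor
  · rintro ⟨⟨h1, h2⟩, h3⟩
    refine ⟨h1, fun h4 => h3 u h4 (Or.inl rfl), fun h4 => h3 v h4 (Or.inr rfl), ?_⟩
    rcases h2 with h2 | h2
    · exact Or.inl h2.1
    · exact Or.inr h2.1
  · rintro ⟨h1, h2, h3, h4⟩
    refine ⟨⟨h1, ?_⟩, ?_⟩
    · rcases h4 with h4 | h4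
      · exact Or.inl ⟨h4, h2⟩
      · exact Or.inr ⟨h4, h3⟩
    · rintro k hk (rfl | rfl)
      · exact h2 hk
      · exact h3 hk

/-- Splitting off the edges at `K`. -/
private lemma rho_split [Finite V] (H : SimpleGraph V) (K Y : Set V) :
    rho H ((Y \ K) ∪ K) = (EO H K Y).ncard + rho H K := by
  have h1 : EAt H ((Y \ K) ∪ K) = EO H K Y ∪ EAt H K := by
    ext x
    induction x using Sym2.ind with
    | _ u v =>
      simp only [Set.mem_union, mem_EAt, mem_EO, Set.mem_sdiff]
      tauto
  have h2 : Disjoint (EO H K Y) (EAt H K) := by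
    rw [Set.disjoint_left]
    intro x
    induction x using Sym2.ind with
    | _ u v =>
      simp only [mem_EAt, mem_EO]
      tauto
  unfold rho
  rw [h1, Set.ncard_union_eq h2 (Set.toFinite _) (Set.toFinite _)]

/-- The vertices of `S` contribute nothing. -/
private lemma fden_S [Finite V] (h : SE H U T q a b S o e t) : fden H S = 0 := by
  have key : ∀ Z : Set V, Z ⊆ S → fden H Z = 0 := by
    intro Z
    refine Set.Finite.induction_on (motive := fun Z _ => Z ⊆ S → fden H Z = 0) Z
      (Set.toFinite Z) ?_ ?_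
    · intro _
      exact fden_empty H
    · intro s Z' hs _ ih hZ
      have hsS : s ∈ S := hZ (Set.mem_insert _ _)
      have hZ' : Z' ⊆ S := (Set.subset_insert _ _).trans hZ
      rw [fden_insert H hs, ih hZ']
      have h1 : (H.neighborSet s \ Z').ncard = 2 := by
        have haS : a ∉ S := fun h2 => h.aT (h.ST h2)
        have hbS : b ∉ S := fun h2 => h.bT (h.ST h2)
        rcases h.hand s hsS with h2 | h2
        · have h3 : H.neighborSet s \ Z' = {q, a} := by
            rw [h2.nb]
            ext v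
            simp only [Set.mem_sdiff, Set.mem_insert_iff, Set.mem_singleton_iff]
            constructor
            · exact fun h4 => h4.1
            · rintro (rfl | rfl)
              · exact ⟨Or.inl rfl, fun h4 => h.qS (hZ' h4)⟩
              · exact ⟨Or.inr rfl, fun h4 => haS (hZ' h4)⟩
          rw [h3, Set.ncard_pair h.qa]
        · have h3 : H.neighborSet s \ Z' = {q, b} := by
            rw [h2.nb]
            ext v
            simp only [Set.mem_sdiff, Set.mem_insert_iff, Set.mem_singleton_iff]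
            constructor
            · exact fun h4 => h4.1
            · rintro (rfl | rfl)
              · exact ⟨Or.inl rfl, fun h4 => h.qS (hZ' h4)⟩
              · exact ⟨Or.inr rfl, fun h4 => hbS (hZ' h4)⟩
          rw [h3, Set.ncard_pair h.qb]
      rw [h1]
      norm_num
  exact key S subset_rfl

/-- The edges at `K`. -/
private lemma fden_K [Finite V] (h : SE H U T q a b S o e t) :
    fden H (insert q S) = rr H q a + rr H q b - 2 := by
  classical
  have haS : a ∉ S := fun h2 => h.aT (h.ST h2)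
  have hbS : b ∉ S := fun h2 => h.bT (h.ST h2)
  rw [fden_insert H h.qS, fden_S h]
  have h1 := Pool.Agent.Helper95.PHI.cnt (G := H) (y := q) (Y := S) (F := {a, b}) (by
    intro v hv
    rcases h.nbq v hv with h2 | h2 | h2
    · right; simp [h2]
    · right; simp [h2]
    · exact Or.inl h2) (by
    intro v hv
    simp only [Finset.mem_insert, Finset.mem_singleton] at hv
    rcases hv with rfl | rfl
    · exact haS
    · exact hbS)
  rw [h1, Finset.sum_pair h.ab]
  ring

private lemma fden_YK [Finite V] (h : SE H U T q a b S o e t) (Y : Set V) :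
    fden H ((Y \ insert q S) ∪ insert q S) =
      ((EO H (insert q S) Y).ncard : ℤ) - 2 * ((Y \ insert q S).ncard : ℤ) +
        rr H q a + rr H q b - 2 := by
  have h1 := rho_split H (insert q S) Y
  have h2 := fden_K h
  have h3 : Disjoint (Y \ insert q S) (insert q S) := Set.disjoint_sdiff_left
  have h4 := Set.ncard_union_eq h3 (Set.toFinite _) (Set.toFinite _)
  unfold fden at h2 ⊢
  rw [h1, h4]
  push_cast
  linarith

/-- Count for sets which contain `a` or `b` (and the new vertex `q` if there is one). -/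
theorem SE.count [Finite V] (h : SE H U T q a b S o e t) {Y : Set V}
    (hY : Y ⊆ vU U (insert q S) q e) (hab : a ∈ Y ∨ b ∈ Y) (hq : e → q ∈ Y) :
    fden (vG H (insert q S) q a b o e) Y = fden H ((Y \ insert q S) ∪ insert q S) +
      sg H q a b o := by
  classical
  rw [fden_YK h Y]
  have haK : a ∉ insert q S := by
    rintro (h1 | h1)
    · exact h.qa h1.symm
    · exact h.aT (h.ST h1)
  have hbK : b ∉ insert q S := by
    rintro (h1 | h1)
    · exact h.qb h1.symm
    · exact h.bT (h.ST h1)
  have hqK : q ∈ insert q S := Or.inl rfl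
  have hYK : ∀ v ∈ Y, v ∈ insert q S → e ∧ v = q := by
    intro v hv hvK
    rcases hY hv with h1 | h1
    · exact absurd hvK h1.2
    · exact h1
  set Eo : Set (Sym2 V) := {x | o ∧ ¬ H.Adj a b ∧ x = s(a, b)} with hEo
  set Ee : Set (Sym2 V) := {x | e ∧ (x = s(q, a) ∨ x = s(q, b))} with hEe
  have hE : EAt (vG H (insert q S) q a b o e) Y = EO H (insert q S) Y ∪ (Eo ∪ Ee) := by
    ext x
    induction x using Sym2.ind with
    | _ u v =>
      rw [mem_EAt, Set.mem_union, Set.mem_union, mem_EO, vG_adj, hEo, hEe]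
      simp only [Set.mem_ofPred_eq, Sym2.eq_iff]
      constructor
      · rintro ⟨h1 | ⟨h1, h2, h3⟩ | ⟨h1, h2, h3, h4⟩, h5⟩
        · exact Or.inl ⟨h1.1, h1.2.1, h1.2.2, h5⟩
        · by_cases hadj : H.Adj a b
          · left
            rcases h3 with ⟨rfl, rfl⟩ | ⟨rfl, rfl⟩
            · exact ⟨hadj, haK, hbK, h5⟩
            · exact ⟨hadj.symm, hbK, haK, h5⟩
          · exact Or.inr (Or.inl ⟨h1, hadj, h3⟩)
        · right; right
          refine ⟨h1, ?_⟩
          rcases h4 with ⟨h4, h6 | h6⟩ | ⟨h4, h6 | h6⟩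
          · exact Or.inl (Or.inl ⟨h4, h6⟩)
          · exact Or.inr (Or.inl ⟨h4, h6⟩)
          · exact Or.inl (Or.inr ⟨h6, h4⟩)
          · exact Or.inr (Or.inr ⟨h6, h4⟩)
      · rintro (⟨h1, h2, h3, h4⟩ | ⟨h1, h2, h3⟩ | ⟨h1, h2⟩)
        · exact ⟨Or.inl ⟨h1, h2, h3⟩, h4⟩
        · refine ⟨Or.inr (Or.inl ⟨h1, h.ab, h3⟩), ?_⟩
          rcases h3 with ⟨rfl, rfl⟩ | ⟨rfl, rfl⟩
          · exact hab
          · exact hab.symm
        · have hqY := hq h1
          refine ⟨Or.inr (Or.inr ⟨h1, h.qa, h.qb, ?_⟩), ?_⟩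
          · rcases h2 with (⟨h2, h3⟩ | ⟨h2, h3⟩) | (⟨h2, h3⟩ | ⟨h2, h3⟩)
            · exact Or.inl ⟨h2, Or.inl h3⟩
            · exact Or.inr ⟨h3, Or.inl h2⟩
            · exact Or.inl ⟨h2, Or.inr h3⟩
            · exact Or.inr ⟨h3, Or.inr h2⟩
          · rcases h2 with (⟨h2, h3⟩ | ⟨h2, h3⟩) | (⟨h2, h3⟩ | ⟨h2, h3⟩)
            · left; rw [h2]; exact hqY
            · right; rw [h3]; exact hqY
            · left; rw [h2]; exact hqY
            · right; rw [h3]; exact hqY
  have hd1 : Disjoint Eo Ee := by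
    rw [Set.disjoint_left]
    rintro x ⟨-, -, h1⟩ ⟨-, h2⟩
    rw [h1, Sym2.eq_iff, Sym2.eq_iff] at h2
    rcases h2 with (⟨h2, h3⟩ | ⟨h2, h3⟩) | (⟨h2, h3⟩ | ⟨h2, h3⟩)
    · exact h.qa h2.symm
    · exact h.qb h3.symm
    · exact h.qa h2.symm
    · exact h.qb h3.symm
  have hd2 : Disjoint (EO H (insert q S) Y) (Eo ∪ Ee) := by
    rw [Set.disjoint_left]
    rintro x hx (⟨-, h1, h2⟩ | ⟨-, h2⟩)
    · rw [h2, mem_EO] at hx
      exact h1 hx.1
    · rcases h2 with h2 | h2
      · rw [h2, mem_EO] at hx
        exact hx.2.1 hqK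
      · rw [h2, mem_EO] at hx
        exact hx.2.1 hqK
  have hc1 : (Eo.ncard : ℤ) = if o ∧ ¬ H.Adj a b then 1 else 0 := by
    by_cases h1 : o ∧ ¬ H.Adj a b
    · rw [if_pos h1]
      have h2 : Eo = {s(a, b)} := by
        ext x
        rw [hEo]
        simp only [Set.mem_ofPred_eq, Set.mem_singleton_iff]
        exact ⟨fun h3 => h3.2.2, fun h3 => ⟨h1.1, h1.2, h3⟩⟩
      rw [h2, Set.ncard_singleton]
      norm_num
    · rw [if_neg h1]
      have h2 : Eo = ∅ := by
        rw [Set.eq_empty_iff_forall_notMem]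
        rintro x ⟨h3, h4, -⟩
        exact h1 ⟨h3, h4⟩
      rw [h2, Set.ncard_empty]
      norm_num
  have hc2 : (Ee.ncard : ℤ) - 2 * (Y.ncard : ℤ) = - 2 * ((Y \ insert q S).ncard : ℤ) := by
    by_cases he : e
    · have h2 : Ee = {s(q, a), s(q, b)} := by
        ext x
        rw [hEe]
        simp only [Set.mem_ofPred_eq, Set.mem_singleton_iff, Set.mem_insert_iff]
        exact ⟨fun h3 => h3.2, fun h3 => ⟨he, h3⟩⟩
      have h3 : s(q, a) ≠ s(q, b) := by
        intro h4
        rw [Sym2.congr_right] at h4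
        exact h.ab h4
      have h4 : Y = insert q (Y \ insert q S) := by
        ext v
        simp only [Set.mem_insert_iff, Set.mem_sdiff]
        constructor
        · intro h5
          by_cases h6 : v ∈ insert q S
          · exact Or.inl (hYK v h5 h6).2
          · right
            exact ⟨h5, h6⟩
        · rintro (rfl | h5)
          · exact hq he
          · exact h5.1
      have h5 : q ∉ Y \ insert q S := fun h6 => h6.2 hqK
      have h6 : Y.ncard = (Y \ insert q S).ncard + 1 := by
        conv_lhs => rw [h4]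
        exact Set.ncard_insert_of_notMem h5 (Set.toFinite _)
      rw [h2, Set.ncard_pair h3, h6]
      push_cast
      ring
    · have h2 : Ee = ∅ := by
        rw [Set.eq_empty_iff_forall_notMem]
        rintro x ⟨h3, -⟩
        exact he h3
      have h4 : Y \ insert q S = Y := by
        ext v
        simp only [Set.mem_sdiff]
        exact ⟨fun h5 => h5.1, fun h5 => ⟨h5, fun h6 => he (hYK v h5 h6).1⟩⟩
      rw [h2, h4, Set.ncard_empty]
      push_cast
      ring
  unfold fden rho sg
  rw [hE, Set.ncard_union_eq hd2 (Set.toFinite _) (Set.toFinite _),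
    Set.ncard_union_eq hd1 (Set.toFinite _) (Set.toFinite _)]
  push_cast
  rw [← hc1]
  linarith

/-- Count for sets which contain neither `a` nor `b`. -/
theorem SE.count0 [Finite V] (h : SE H U T q a b S o e t) {Y : Set V}
    (hY : Y ⊆ vU U (insert q S) q e) (ha : a ∉ Y) (hb : b ∉ Y) :
    fden (vG H (insert q S) q a b o e) Y = fden H (Y \ insert q S) := by
  classical
  have haK : a ∉ insert q S := by
    rintro (h1 | h1)
    · exact h.qa h1.symm
    · exact h.aT (h.ST h1)
  have hbK : b ∉ insert q S := by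
    rintro (h1 | h1)
    · exact h.qb h1.symm
    · exact h.bT (h.ST h1)
  have hqK : q ∈ insert q S := Or.inl rfl
  have hYK : ∀ v ∈ Y, v ∈ insert q S → e ∧ v = q := by
    intro v hv hvK
    rcases hY hv with h1 | h1
    · exact absurd hvK h1.2
    · exact h1
  -- a neighbour in `K` of a vertex of `Y` off `K` is impossible
  have hnk : ∀ u v, u ∈ Y → u ∉ insert q S → v ∈ insert q S → ¬ H.Adj u v := by
    intro u v hu huK hvK huv
    rcases h.nbK hvK huv.symm with h1 | h1 | h1
    · exact huK h1
    · rw [h1] at hu; exact ha hu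
    · rw [Set.mem_singleton_iff] at h1
      rw [h1] at hu; exact hb hu
  set Ee : Set (Sym2 V) := {x | e ∧ q ∈ Y ∧ (x = s(q, a) ∨ x = s(q, b))} with hEe
  have hE : EAt (vG H (insert q S) q a b o e) Y = EAt H (Y \ insert q S) ∪ Ee := by
    ext x
    induction x using Sym2.ind with
    | _ u v =>
      rw [mem_EAt, Set.mem_union, mem_EAt, vG_adj, hEe]
      simp only [Set.mem_ofPred_eq, Sym2.eq_iff, Set.mem_sdiff]
      constructor
      · rintro ⟨h1 | ⟨h1, h2, h3⟩ | ⟨h1, h2, h3, h4⟩, h5⟩
        · left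
          refine ⟨h1.1, ?_⟩
          rcases h5 with h5 | h5
          · exact Or.inl ⟨h5, h1.2.1⟩
          · exact Or.inr ⟨h5, h1.2.2⟩
        · exfalso
          rcases h3 with ⟨rfl, rfl⟩ | ⟨rfl, rfl⟩
          · rcases h5 with h5 | h5
            · exact ha h5
            · exact hb h5
          · rcases h5 with h5 | h5
            · exact hb h5
            · exact ha h5
        · right
          rcases h4 with ⟨h4, h6 | h6⟩ | ⟨h4, h6 | h6⟩
          · subst h4; subst h6
            refine ⟨h1, ?_, Or.inl (Or.inl ⟨rfl, rfl⟩)⟩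
            rcases h5 with h5 | h5
            · exact h5
            · exact absurd h5 ha
          · subst h4; subst h6
            refine ⟨h1, ?_, Or.inr (Or.inl ⟨rfl, rfl⟩)⟩
            rcases h5 with h5 | h5
            · exact h5
            · exact absurd h5 hb
          · subst h4; subst h6
            refine ⟨h1, ?_, Or.inl (Or.inr ⟨rfl, rfl⟩)⟩
            rcases h5 with h5 | h5
            · exact absurd h5 ha
            · exact h5
          · subst h4; subst h6
            refine ⟨h1, ?_, Or.inr (Or.inr ⟨rfl, rfl⟩)⟩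
            rcases h5 with h5 | h5
            · exact absurd h5 hb
            · exact h5
      · rintro (⟨h1, h2⟩ | ⟨h1, hqY, h2⟩)
        · rcases h2 with h2 | h2
          · have hvK : v ∉ insert q S := fun h3 => hnk u v h2.1 h2.2 h3 h1
            exact ⟨Or.inl ⟨h1, h2.2, hvK⟩, Or.inl h2.1⟩
          · have huK : u ∉ insert q S := fun h3 => hnk v u h2.1 h2.2 h3 h1.symm
            exact ⟨Or.inl ⟨h1, huK, h2.2⟩, Or.inr h2.1⟩
        · refine ⟨Or.inr (Or.inr ⟨h1, h.qa, h.qb, ?_⟩), ?_⟩
          · rcases h2 with (⟨h2, h3⟩ | ⟨h2, h3⟩) | (⟨h2, h3⟩ | ⟨h2, h3⟩)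
            · exact Or.inl ⟨h2, Or.inl h3⟩
            · exact Or.inr ⟨h3, Or.inl h2⟩
            · exact Or.inl ⟨h2, Or.inr h3⟩
            · exact Or.inr ⟨h3, Or.inr h2⟩
          · rcases h2 with (⟨h2, h3⟩ | ⟨h2, h3⟩) | (⟨h2, h3⟩ | ⟨h2, h3⟩)
            · left; rw [h2]; exact hqY
            · right; rw [h3]; exact hqY
            · left; rw [h2]; exact hqY
            · right; rw [h3]; exact hqY
  have hd : Disjoint (EAt H (Y \ insert q S)) Ee := by
    rw [Set.disjoint_left]
    rintro x hx ⟨-, -, h2⟩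
    rcases h2 with h2 | h2
    · rw [h2, mem_EAt] at hx
      rcases hx.2 with h3 | h3
      · exact h3.2 hqK
      · exact ha h3.1
    · rw [h2, mem_EAt] at hx
      rcases hx.2 with h3 | h3
      · exact h3.2 hqK
      · exact hb h3.1
  have hc2 : (Ee.ncard : ℤ) - 2 * (Y.ncard : ℤ) = - 2 * ((Y \ insert q S).ncard : ℤ) := by
    by_cases hqY : q ∈ Y
    · have he : e := (hYK q hqY hqK).1
      have h2 : Ee = {s(q, a), s(q, b)} := by
        ext x
        rw [hEe]
        simp only [Set.mem_ofPred_eq, Set.mem_singleton_iff, Set.mem_insert_iff]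
        exact ⟨fun h3 => h3.2.2, fun h3 => ⟨he, hqY, h3⟩⟩
      have h3 : s(q, a) ≠ s(q, b) := by
        intro h4
        rw [Sym2.congr_right] at h4
        exact h.ab h4
      have h4 : Y = insert q (Y \ insert q S) := by
        ext v
        simp only [Set.mem_insert_iff, Set.mem_sdiff]
        constructor
        · intro h5
          by_cases h6 : v ∈ insert q S
          · exact Or.inl (hYK v h5 h6).2
          · right
            exact ⟨h5, h6⟩
        · rintro (rfl | h5)
          · exact hqY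
          · exact h5.1
      have h5 : q ∉ Y \ insert q S := fun h6 => h6.2 hqK
      have h6 : Y.ncard = (Y \ insert q S).ncard + 1 := by
        conv_lhs => rw [h4]
        exact Set.ncard_insert_of_notMem h5 (Set.toFinite _)
      rw [h2, Set.ncard_pair h3, h6]
      push_cast
      ring
    · have h2 : Ee = ∅ := by
        rw [Set.eq_empty_iff_forall_notMem]
        rintro x ⟨-, h3, -⟩
        exact hqY h3
      have h4 : Y \ insert q S = Y := by
        ext v
        simp only [Set.mem_sdiff]
        refine ⟨fun h5 => h5.1, fun h5 => ⟨h5, fun h6 => ?_⟩⟩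
        have h7 := (hYK v h5 h6).2
        rw [h7] at h5
        exact hqY h5
      rw [h2, h4, Set.ncard_empty]
      push_cast
      ring
  unfold fden rho
  rw [hE, Set.ncard_union_eq hd (Set.toFinite _) (Set.toFinite _)]
  push_cast
  linarith

/-- The weight. -/
theorem SE.weight [Finite V] (h : SE H U T q a b S o e t) :
    ((vG H (insert q S) q a b o e).edgeSet.ncard : ℤ) -
      2 * ((vU U (insert q S) q e).ncard : ℤ) =
    (H.edgeSet.ncard : ℤ) - 2 * (U.ncard : ℤ) + sg H q a b o := by
  have haU : a ∈ vU U (insert q S) q e := by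
    refine Or.inl ⟨h.AU (Or.inl rfl), ?_⟩
    rintro (h1 | h1)
    · exact h.qa h1.symm
    · exact h.aT (h.ST h1)
  have h1 := h.count (Y := vU U (insert q S) q e) subset_rfl (Or.inl haU)
    (fun he => Or.inr ⟨he, rfl⟩)
  have h2 : (vU U (insert q S) q e \ insert q S) ∪ insert q S = U := by
    ext v
    simp only [Set.mem_union, Set.mem_sdiff]
    constructor
    · rintro (⟨h3 | h3, h4⟩ | h3)
      · exact h3.1
      · exact absurd (Or.inl h3.2) h4
      · exact h.KU h3
    · intro h3
      by_cases h4 : v ∈ insert q S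
      · exact Or.inr h4
      · exact Or.inl ⟨Or.inl ⟨h3, h4⟩, h4⟩
  rw [h2] at h1
  have h3 : EAt (vG H (insert q S) q a b o e) (vU U (insert q S) q e) =
      (vG H (insert q S) q a b o e).edgeSet := by
    ext x
    induction x using Sym2.ind with
    | _ u v =>
      rw [mem_EAt, SimpleGraph.mem_edgeSet]
      exact ⟨fun h3 => h3.1, fun h3 => ⟨h3, Or.inl (h.edge1 h3)⟩⟩
  have h4 : EAt H U = H.edgeSet := by
    ext x
    induction x using Sym2.ind with
    | _ u v =>
      rw [mem_EAt, SimpleGraph.mem_edgeSet]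
      exact ⟨fun h3 => h3.1, fun h3 => ⟨h3, Or.inl (h.edge_mem u v h3)⟩⟩
  unfold fden rho at h1
  rw [h3, h4] at h1
  exact h1

end Pool.Agent.Helper97.SO
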