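import Pool.Agent.Helper97.SO.StubCount

/-!
# One suppression step: balanced sets (StubDense)
-/

set_option autoImplicit false

namespace Pool.Agent.Helper97.SO

open SimpleGraph Pool.Agent.Helper57.TOK Pool.Agent.Helper57.TD Pool.Agent.Helper57.TOP
  Pool.Agent.Helper82.TK Pool.Agent.Helper75.SEP

variable {V : Type*} {H : SimpleGraph V} {U T : Set V} {q a b : V} {S : Set V} {o e : Prop} {t : V}

private lemma zmod2_ne {x y : ZMod 2} : x ≠ y ↔ y = x + 1 := by
  revert x y; decide

private lemma zmod2_three {x y z : ZMod 2} (h1 : x ≠ y) (h2 : x ≠ z) (h3 : y ≠ z) : False := by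
  revert x y z; decide

private lemma zmod2_eq {x y z : ZMod 2} (h1 : x ≠ y) (h2 : x ≠ z) : y = z := by
  revert x y z; decide

private lemma zmod2_self (x : ZMod 2) : x + 1 ≠ x := by
  revert x; decide

/-- The facts about a balanced set which contains `a` or `b`. -/
private lemma SE.dense_aux (h : SE H U T q a b S o e t) {Y : Set V} {κ : V → ZMod 2}
    (hb : PB (vG H (insert q S) q a b o e) κ Y)
    (hn : ∀ n ∈ Nb (vG H (insert q S) q a b o e) Y, n ∉ insert q S ∧ n ∉ T)
    (hab : a ∈ Y ∨ b ∈ Y) :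
    (e → q ∈ Y) ∧ (a ∈ Y ∪ Nb (vG H (insert q S) q a b o e) Y) ∧
      (b ∈ Y ∪ Nb (vG H (insert q S) q a b o e) Y) ∧
      (o → κ a ≠ κ b) ∧ ((e ∨ (Hand H t a b ∧ t ∈ T ∧ t ∉ S)) → κ a = κ b) := by
  classical
  set K := insert q S with hK
  set H1 := vG H K q a b o e with hH1
  have hqK : q ∈ K := Set.mem_insert _ _
  have haK : a ∉ K := by
    have := h.AK
    rw [Set.disjoint_left] at this
    exact this (Or.inl rfl)
  have hbK : b ∉ K := by
    have := h.AK
    rw [Set.disjoint_left] at this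
    exact this (Or.inr rfl)
  -- every vertex adjacent to a vertex of `Y` is in `Y ∪ Nb`
  have hclose : ∀ u v, u ∈ Y → H1.Adj u v → v ∈ Y ∪ Nb H1 Y := by
    intro u v hu huv
    by_cases hv : v ∈ Y
    · exact Or.inl hv
    · exact Or.inr ⟨hv, u, hu, huv⟩
  -- the new vertex
  have hqa : e → H1.Adj q a := fun he =>
    Or.inr (Or.inr ⟨he, h.qa, h.qb, Or.inl ⟨rfl, Or.inl rfl⟩⟩)
  have hqb : e → H1.Adj q b := fun he =>
    Or.inr (Or.inr ⟨he, h.qa, h.qb, Or.inl ⟨rfl, Or.inr rfl⟩⟩)
  have hqY : e → q ∈ Y := by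
    intro he
    have h1 : q ∈ Y ∪ Nb H1 Y := by
      rcases hab with ha | hb'
      · exact hclose a q ha (hqa he).symm
      · exact hclose b q hb' (hqb he).symm
    rcases h1 with h1 | h1
    · exact h1
    · exact absurd hqK (hn q h1).1
  -- the old handle
  have htK : (Hand H t a b ∧ t ∈ T ∧ t ∉ S) → t ∉ K := by
    rintro ⟨-, h2, h3⟩ (h4 | h4)
    · exact h.qT (h4 ▸ h2)
    · exact h3 h4
  have hta : (Hand H t a b ∧ t ∈ T ∧ t ∉ S) → H1.Adj t a := fun ht =>
    Or.inl ⟨ht.1.hp, htK ht, haK⟩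
  have htb : (Hand H t a b ∧ t ∈ T ∧ t ∉ S) → H1.Adj t b := fun ht =>
    Or.inl ⟨ht.1.hq, htK ht, hbK⟩
  have htY : (Hand H t a b ∧ t ∈ T ∧ t ∉ S) → t ∈ Y := by
    intro ht
    have h1 : t ∈ Y ∪ Nb H1 Y := by
      rcases hab with ha | hb'
      · exact hclose a t ha (hta ht).symm
      · exact hclose b t hb' (htb ht).symm
    rcases h1 with h1 | h1
    · exact h1
    · exact absurd ht.2.1 (hn t h1).2
  have hoab : o → H1.Adj a b := fun ho => Or.inr (Or.inl ⟨ho, h.ab, Or.inl ⟨rfl, rfl⟩⟩)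
  -- one of the three links exists
  have hlink : o ∨ e ∨ (Hand H t a b ∧ t ∈ T ∧ t ∉ S) := by
    by_cases ho : o
    · exact Or.inl ho
    · right
      apply h.he'
      have ho' := fun hh => ho (h.ho.2 hh)
      rcases h.la with h1 | h1
      · rcases h.lb with h2 | h2
        · exact Or.inl ⟨h1, h2⟩
        · exact absurd (Or.inl ⟨h1, h2⟩) ho'
      · rcases h.lb with h2 | h2
        · exact absurd (Or.inr ⟨h1, h2⟩) ho'
        · exact Or.inr ⟨h1, h2⟩
  have hA : a ∈ Y ∪ Nb H1 Y := by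
    rcases hab with ha | hb'
    · exact Or.inl ha
    · rcases hlink with h1 | h1 | h1
      · exact hclose b a hb' (hoab h1).symm
      · exact hclose q a (hqY h1) (hqa h1)
      · exact hclose t a (htY h1) (hta h1)
  have hB : b ∈ Y ∪ Nb H1 Y := by
    rcases hab with ha | hb'
    · rcases hlink with h1 | h1 | h1
      · exact hclose a b ha (hoab h1)
      · exact hclose q b (hqY h1) (hqb h1)
      · exact hclose t b (htY h1) (htb h1)
    · exact Or.inl hb'
  refine ⟨hqY, hA, hB, ?_, ?_⟩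
  · intro ho
    rcases hab with ha | hb'
    · exact hb a b ha (hoab ho)
    · exact (hb b a hb' (hoab ho).symm).symm
  · rintro (h1 | h1)
    · exact zmod2_eq (hb q a (hqY h1) (hqa h1)) (hb q b (hqY h1) (hqb h1))
    · exact zmod2_eq (hb t a (htY h1) (hta h1)) (hb t b (htY h1) (htb h1))

theorem SE.dense [Finite V] (h : SE H U T q a b S o e t) {Y : Set V}
    (hY : Y ⊆ vU U (insert q S) q e) {κ : V → ZMod 2}
    (hb : PB (vG H (insert q S) q a b o e) κ Y)
    (hn : ∀ n ∈ Nb (vG H (insert q S) q a b o e) Y, n ∉ insert q S ∧ n ∉ T) :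
    ∃ Y0 κ0, Y0 ⊆ U ∧ PB H κ0 Y0 ∧ Nb H Y0 ⊆ Nb (vG H (insert q S) q a b o e) Y ∧
      (∀ v, v ∉ insert q S → κ0 v = κ v) ∧
      (∀ v, v ∉ insert q S → (v ∈ Y0 ↔ v ∈ Y)) ∧
      (((∀ v ∈ insert q S, v ∉ Y0) ∧ fden (vG H (insert q S) q a b o e) Y = fden H Y0) ∨
        ((∃ v ∈ ({a, b} : Set V), v ∈ Y) ∧
          ({a, b} : Set V) ⊆ Y ∪ Nb (vG H (insert q S) q a b o e) Y ∧ insert q S ⊆ Y0 ∧
          fden (vG H (insert q S) q a b o e) Y = fden H Y0 + sg H q a b o)) := by
  classical
  have haK : a ∉ insert q S := by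
    have := h.AK
    rw [Set.disjoint_left] at this
    exact this (Or.inl rfl)
  have hbK : b ∉ insert q S := by
    have := h.AK
    rw [Set.disjoint_left] at this
    exact this (Or.inr rfl)
  by_cases hab : a ∈ Y ∨ b ∈ Y
  · -- the set contains `a` or `b`
    obtain ⟨hqY, hA, hB, hne, heq⟩ := h.dense_aux hb hn hab
    have hcount := h.count hY hab hqY
    -- no double links
    have hda : ¬ (H.Adj q a ∧ Ev H S q a) := by
      rintro ⟨h1, h2⟩
      rcases h.lb with h3 | h3
      · exact hne (h.ho.2 (Or.inr ⟨h2, h3⟩)) (heq (h.he' (Or.inl ⟨h1, h3⟩)))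
      · exact hne (h.ho.2 (Or.inl ⟨h1, h3⟩)) (heq (h.he' (Or.inr ⟨h2, h3⟩)))
    have hdb : ¬ (H.Adj q b ∧ Ev H S q b) := by
      rintro ⟨h1, h2⟩
      rcases h.la with h3 | h3
      · exact hne (h.ho.2 (Or.inl ⟨h3, h2⟩)) (heq (h.he' (Or.inl ⟨h3, h1⟩)))
      · exact hne (h.ho.2 (Or.inr ⟨h3, h1⟩)) (heq (h.he' (Or.inr ⟨h3, h2⟩)))
    set cq : ZMod 2 := if H.Adj q a then κ a + 1 else κ a with hcq
    set κ0 : V → ZMod 2 := fun v => if v = q then cq else if v ∈ S then cq + 1 else κ v with hκ0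
    have k1 : κ0 q = cq := by simp [hκ0]
    have k2 : ∀ s ∈ S, κ0 s = cq + 1 := by
      intro s hs
      have hsq : s ≠ q := fun hh => h.qS (hh ▸ hs)
      simp only [hκ0, if_neg hsq, if_pos hs]
    have k3 : ∀ v, v ∉ insert q S → κ0 v = κ v := by
      intro v hv
      have h1 : v ≠ q := fun hh => hv (Or.inl hh)
      have h2 : v ∉ S := fun hh => hv (Or.inr hh)
      simp only [hκ0, if_neg h1, if_neg h2]
    -- the colours of the edges at `q`
    have eqa : H.Adj q a → cq ≠ κ a := by
      intro h1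
      rw [hcq, if_pos h1]
      exact zmod2_self _
    have eqb : H.Adj q b → cq ≠ κ b := by
      intro h1
      by_cases h2 : H.Adj q a
      · rw [hcq, if_pos h2, ← heq (h.he' (Or.inl ⟨h2, h1⟩))]
        exact zmod2_self _
      · have h3 : Ev H S q a := h.la.resolve_left h2
        rw [hcq, if_neg h2]
        exact hne (h.ho.2 (Or.inr ⟨h3, h1⟩))
    have esa : Ev H S q a → cq + 1 ≠ κ a := by
      intro h1
      have h2 : ¬ H.Adj q a := fun h2 => hda ⟨h2, h1⟩
      rw [hcq, if_neg h2]
      exact zmod2_self _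
    have esb : Ev H S q b → cq + 1 ≠ κ b := by
      intro h1
      by_cases h2 : H.Adj q a
      · have h4 : κ b = κ a + 1 := zmod2_ne.1 (hne (h.ho.2 (Or.inl ⟨h2, h1⟩)))
        rw [hcq, if_pos h2, h4]
        exact zmod2_self _
      · have h3 : Ev H S q a := h.la.resolve_left h2
        rw [hcq, if_neg h2, ← heq (h.he' (Or.inr ⟨h3, h1⟩))]
        exact zmod2_self _
    -- edges with an end in `K`
    have hedge : ∀ u v, u ∈ insert q S → H.Adj u v → κ0 u ≠ κ0 v := by
      intro u v hu huv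
      rcases hu with hu | hu
      · subst hu
        rw [k1]
        rcases h.nbq v huv with h1 | h1 | h1
        · subst h1
          rw [k3 _ haK]
          exact eqa huv
        · subst h1
          rw [k3 _ hbK]
          exact eqb huv
        · rw [k2 v h1]
          exact (zmod2_self cq).symm
      · rw [k2 u hu]
        rcases h.hand u hu with h1 | h1
        · rcases h1.adj.1 huv with h2 | h2
          · subst h2
            rw [k1]
            exact zmod2_self cq
          · subst h2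
            rw [k3 _ haK]
            exact esa ⟨u, hu, h1⟩
        · rcases h1.adj.1 huv with h2 | h2
          · subst h2
            rw [k1]
            exact zmod2_self cq
          · subst h2
            rw [k3 _ hbK]
            exact esb ⟨u, hu, h1⟩
    refine ⟨(Y \ insert q S) ∪ insert q S, κ0, ?_, ?_, ?_, k3, ?_, Or.inr ⟨?_, ?_, ?_, hcount⟩⟩
    · rintro v (hv | hv)
      · rcases hY hv.1 with h1 | h1
        · exact h1.1
        · exact absurd (Or.inl h1.2) hv.2
      · exact h.KU hv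
    · rintro u v (hu | hu) huv
      · by_cases hv : v ∈ insert q S
        · exact (hedge v u hv huv.symm).symm
        · rw [k3 u hu.2, k3 v hv]
          exact hb u v hu.1 (Or.inl ⟨huv, hu.2, hv⟩)
      · exact hedge u v hu huv
    · rintro v ⟨hv, u, hu, huv⟩
      have hvK : v ∉ insert q S := fun hh => hv (Or.inr hh)
      have hvY : v ∉ Y := fun hh => hv (Or.inl ⟨hh, hvK⟩)
      rcases hu with hu | hu
      · exact ⟨hvY, u, hu.1, Or.inl ⟨huv, hu.2, hvK⟩⟩
      · rcases h.nbK hu huv with h1 | h1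
        · exact absurd h1 hvK
        · rcases h1 with h1 | h1
          · subst h1
            exact hA.resolve_left hvY
          · rw [Set.mem_singleton_iff] at h1
            subst h1
            exact hB.resolve_left hvY
    · intro v hv
      constructor
      · rintro (h1 | h1)
        · exact h1.1
        · exact absurd h1 hv
      · exact fun h1 => Or.inl ⟨h1, hv⟩
    · rcases hab with h1 | h1
      · exact ⟨a, Or.inl rfl, h1⟩
      · exact ⟨b, Or.inr rfl, h1⟩
    · rintro v (h1 | h1)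
      · rw [h1]; exact hA
      · rw [Set.mem_singleton_iff] at h1
        rw [h1]; exact hB
    · exact Set.subset_union_right
  · -- the set contains neither `a` nor `b`
    push Not at hab
    have hout : ∀ u v, u ∈ Y \ insert q S → H.Adj u v → v ∉ insert q S := by
      intro u v hu huv hv
      rcases h.nbK hv huv.symm with h1 | h1
      · exact hu.2 h1
      · rcases h1 with h1 | h1
        · exact hab.1 (h1 ▸ hu.1)
        · rw [Set.mem_singleton_iff] at h1
          exact hab.2 (h1 ▸ hu.1)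
    refine ⟨Y \ insert q S, κ, ?_, ?_, ?_, fun _ _ => rfl, ?_, Or.inl ⟨?_, ?_⟩⟩
    · intro v hv
      rcases hY hv.1 with h1 | h1
      · exact h1.1
      · exact absurd (Or.inl h1.2) hv.2
    · intro u v hu huv
      exact hb u v hu.1 (Or.inl ⟨huv, hu.2, hout u v hu huv⟩)
    · rintro v ⟨hv, u, hu, huv⟩
      have hvK := hout u v hu huv
      exact ⟨fun hh => hv ⟨hh, hvK⟩, u, hu.1, Or.inl ⟨huv, hu.2, hvK⟩⟩
    · intro v hv
      exact ⟨fun h1 => h1.1, fun h1 => ⟨h1, hv⟩⟩
    · exact fun v hv h1 => h1.2 hv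
    · exact h.count0 hY hab.1 hab.2

end Pool.Agent.Helper97.SO
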