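import Pool.Agent.Helper97.SO.Defs
import Pool.Agent.Helper82.RP.AllDef

/-!
# The two steps: basic facts
-/

set_option autoImplicit false

namespace Pool.Agent.Helper97.SO

open SimpleGraph Pool.Agent.Helper57.TOK Pool.Agent.Helper57.TD Pool.Agent.Helper57.TOP
  Pool.Agent.Helper82.TK Pool.Agent.Helper82.RP Pool.Agent.Helper75.SEP

variable {V : Type*} {G : SimpleGraph V} {U : Set V} {h p q : V} {H1 H2 : SimpleGraph V}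
  {U1 U2 Kq Aq Kp Ap : Set V} {σq σp : ℤ} {Bq Bp : V → Prop}

namespace Two

lemma pq (F : Two G U h p q H1 U1 H2 U2 Kq Aq Kp Ap σq σp Bq Bp) : p ≠ q := F.hand.ne

lemma p3 [Finite V] (F : Two G U h p q H1 U1 H2 U2 Kq Aq Kp Ap σq σp Bq Bp) :
    3 ≤ (G.neighborSet p).ncard := gmin_hand_real F.gmin F.hU F.hand

lemma q3 [Finite V] (F : Two G U h p q H1 U1 H2 U2 Kq Aq Kp Ap σq σp Bq Bp) :
    3 ≤ (G.neighborSet q).ncard := gmin_hand_real F.gmin F.hU F.hand.symm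

lemma pT [Finite V] (F : Two G U h p q H1 U1 H2 U2 Kq Aq Kp Ap σq σp Bq Bp) : p ∉ T2 G h :=
  fun h1 => by have := F.p3; have := h1.2; omega

lemma qT [Finite V] (F : Two G U h p q H1 U1 H2 U2 Kq Aq Kp Ap σq σp Bq Bp) : q ∉ T2 G h :=
  fun h1 => by have := F.q3; have := h1.2; omega

lemma hT (F : Two G U h p q H1 U1 H2 U2 Kq Aq Kp Ap σq σp Bq Bp) : h ∉ T2 G h :=
  fun h1 => h1.1 rfl

lemma pKq [Finite V] (F : Two G U h p q H1 U1 H2 U2 Kq Aq Kp Ap σq σp Bq Bp) : p ∉ Kq := by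
  intro h1
  rcases F.s1.KT p h1 with h2 | h2
  · exact F.pq h2
  · exact F.pT h2

lemma qKp [Finite V] (F : Two G U h p q H1 U1 H2 U2 Kq Aq Kp Ap σq σp Bq Bp) : q ∉ Kp := by
  intro h1
  rcases F.s2.KT q h1 with h2 | h2
  · exact F.pq h2.symm
  · exact F.qT h2

lemma hKq (F : Two G U h p q H1 U1 H2 U2 Kq Aq Kp Ap σq σp Bq Bp) : h ∉ Kq :=
  fun h1 => (F.s1.KU h1).2 rfl

lemma hAq (F : Two G U h p q H1 U1 H2 U2 Kq Aq Kp Ap σq σp Bq Bp) : h ∉ Aq :=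
  fun h1 => (F.s1.AU h1).2 rfl

lemma hU1 (F : Two G U h p q H1 U1 H2 U2 Kq Aq Kp Ap σq σp Bq Bp) : h ∉ U1 :=
  fun h1 => ((F.s1.out h F.hKq).1 h1).2 rfl

lemma hKp (F : Two G U h p q H1 U1 H2 U2 Kq Aq Kp Ap σq σp Bq Bp) : h ∉ Kp :=
  fun h1 => F.hU1 (F.s2.KU h1)

lemma hAp (F : Two G U h p q H1 U1 H2 U2 Kq Aq Kp Ap σq σp Bq Bp) : h ∉ Ap :=
  fun h1 => F.hU1 (F.s2.AU h1)

lemma hU2 (F : Two G U h p q H1 U1 H2 U2 Kq Aq Kp Ap σq σp Bq Bp) : h ∉ U2 :=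
  fun h1 => F.hU1 ((F.s2.out h F.hKp).1 h1)

/-- Vertices of `U2` outside of `Kq`, `Kp`. -/
lemma mem_U (F : Two G U h p q H1 U1 H2 U2 Kq Aq Kp Ap σq σp Bq Bp) {v : V} (hq : v ∉ Kq)
    (hp : v ∉ Kp) : v ∈ U2 ↔ v ∈ U \ {h} := by
  rw [F.s2.out v hp, F.s1.out v hq]

/-- A vertex of degree two of `G` in `U2` keeps its neighbours. -/
lemma nb_T [Finite V] (F : Two G U h p q H1 U1 H2 U2 Kq Aq Kp Ap σq σp Bq Bp) {t : V}
    (ht : t ∈ T2 G h) (hq : t ∉ Kq) (hp : t ∉ Kp) : H2.neighborSet t = G.neighborSet t := by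
  rw [F.s2.nbr t hp (fun h1 => (Set.disjoint_left.1 F.s2.AT) h1 ht),
    F.s1.nbr t hq (fun h1 => (Set.disjoint_left.1 F.s1.AT) h1 ht), delV_nb t ht.1]
  apply Set.sdiff_singleton_eq_self
  intro h1
  rcases F.hand.adj.1 (SimpleGraph.Adj.symm h1) with h2 | h2
  · exact F.pT (h2 ▸ ht)
  · exact F.qT (h2 ▸ ht)

/-- The vertex `q` in `U2`, if `q ∈ Kq`. -/
lemma nb_q [Finite V] (F : Two G U h p q H1 U1 H2 U2 Kq Aq Kp Ap σq σp Bq Bp) {t : V}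
    (ht : t ∈ Kq) (hU2 : t ∈ U2) : t = q ∧ H2.neighborSet q = Aq ∧ Aq.ncard = 2 ∧
      ∀ t' ∈ T2 G h, t' ∉ Kq → (delV G h).neighborSet t' ≠ Aq := by
  have h1 : t ∉ Kp := (Set.disjoint_left.1 F.KK) ht
  obtain ⟨h2, h3, h4, h5⟩ := F.s1.inn t ht ((F.s2.out t h1).1 hU2)
  refine ⟨h2, ?_, h4, h5⟩
  rw [F.s2.nbr q F.qKp F.qA, h3]

lemma nb_p [Finite V] (F : Two G U h p q H1 U1 H2 U2 Kq Aq Kp Ap σq σp Bq Bp) {t : V}
    (ht : t ∈ Kp) (hU2 : t ∈ U2) : t = p ∧ H2.neighborSet p = Ap ∧ Ap.ncard = 2 ∧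
      ∀ t' ∈ T2 G h, t' ∉ Kp → H1.neighborSet t' ≠ Ap :=
  F.s2.inn t ht hU2

/-- The new vertices of degree two and the vertices of degree two of `G`. -/
lemma deg_T [Finite V] (F : Two G U h p q H1 U1 H2 U2 Kq Aq Kp Ap σq σp Bq Bp) {t : V}
    (hU2 : t ∈ U2) (ht : t ∈ T2 G h ∨ t ∈ Kq ∨ t ∈ Kp) : (H2.neighborSet t).ncard = 2 := by
  by_cases hq : t ∈ Kq
  · obtain ⟨h1, h2, h3, -⟩ := F.nb_q hq hU2
    rw [h1, h2, h3]
  by_cases hp : t ∈ Kp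
  · obtain ⟨h1, h2, h3, -⟩ := F.nb_p hp hU2
    rw [h1, h2, h3]
  rcases ht with ht | ht | ht
  · rw [F.nb_T ht hq hp]; exact ht.2
  · exact absurd ht hq
  · exact absurd ht hp

end Two

end Pool.Agent.Helper97.SO
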